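import Mathlib

set_option autoImplicit false

open Finset

namespace Pool.Agent.H.MP_40bd32_nt.PS

/-! ### Lift.lean: powers which agree modulo `p^s`, and counting lemmas -/

theorem split_pow {p : ℤ} {a : ℕ} {A : ℤ} (h : ¬ p ^ (a + 1) ∣ A) :
    ∃ (α : ℕ) (A' : ℤ), α ≤ a ∧ A = p ^ α * A' ∧ ¬ p ∣ A' := by
  induction a generalizing A with
  | zero => exact ⟨0, A, le_rfl, by simp, by simpa using h⟩
  | succ a ih =>
    by_cases hA : p ∣ A
    · obtain ⟨A1, rfl⟩ := hA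
      have h1 : ¬ p ^ (a + 1) ∣ A1 := by
        intro h2
        apply h
        rw [pow_succ, mul_comm]
        exact mul_dvd_mul_left p h2
      obtain ⟨α, A', hα, rfl, hA'⟩ := ih h1
      exact ⟨α + 1, A', by omega, by ring, hA'⟩
    · exact ⟨0, A, by omega, by simp, hA⟩

theorem not_pow_dvd_mul {p : ℤ} (hp : Prime p) {a b : ℕ} {A B : ℤ} (hA : ¬ p ^ (a + 1) ∣ A)
    (hB : ¬ p ^ (b + 1) ∣ B) : ¬ p ^ (a + b + 1) ∣ A * B := by
  obtain ⟨α, A', hα, rfl, hA'⟩ := split_pow hA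
  obtain ⟨β, B', hβ, rfl, hB'⟩ := split_pow hB
  intro h
  have h1 : p ^ (α + β) * p ∣ p ^ (α + β) * (A' * B') := by
    have e : p ^ (α + β) * (A' * B') = p ^ α * A' * (p ^ β * B') := by ring
    rw [e, ← pow_succ]
    exact dvd_trans (pow_dvd_pow p (by omega)) h
  have h2 : p ∣ A' * B' := (mul_dvd_mul_iff_left (pow_ne_zero _ hp.ne_zero)).mp h1
  rcases hp.dvd_or_dvd h2 with h3 | h3
  · exact hA' h3
  · exact hB' h3

theorem dvd_cancel {p : ℤ} (hp : Prime p) {c s : ℕ} {G Q : ℤ} (hQ : ¬ p ^ c ∣ Q)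
    (h : p ^ s ∣ G * Q) : p ^ s ∣ p ^ c * G := by
  rcases Nat.eq_zero_or_pos c with h0 | h0
  · subst h0
    exact absurd (one_dvd Q) (by rwa [pow_zero] at hQ)
  obtain ⟨c', rfl⟩ : ∃ c', c = c' + 1 := ⟨c - 1, by omega⟩
  obtain ⟨γ, Q', hγ, rfl, hQ'⟩ := split_pow hQ
  have h1 : p ^ s ∣ (p ^ γ * G) * Q' := by
    have e : (p ^ γ * G) * Q' = G * (p ^ γ * Q') := by ring
    rw [e]
    exact h
  have h2 : p ^ s ∣ p ^ γ * G := hp.pow_dvd_of_dvd_mul_right s hQ' h1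
  exact dvd_trans h2 (mul_dvd_mul_right (pow_dvd_pow p (by omega)) G)

theorem not_pow_dvd_pow {p : ℤ} (hp : Prime p) {r : ℕ} {y : ℤ} (hy : ¬ p ^ (r + 1) ∣ y) (m : ℕ) :
    ¬ p ^ (m * r + 1) ∣ y ^ m := by
  induction m with
  | zero =>
    intro h
    simp only [Nat.zero_mul, Nat.zero_add, pow_one, pow_zero] at h
    exact hp.not_isUnit (isUnit_of_dvd_one h)
  | succ m ih =>
    rw [pow_succ y m, Nat.succ_mul]
    exact not_pow_dvd_mul hp ih hy

/-- Powers which agree modulo `p^s` (up to a factor `g`) have bases which agree modulo almost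
`p^s`, if the bases agree modulo `p^(n(r+1))` and are not divisible by `p^(r+1)`. -/
theorem lift {p : ℕ} (hp : p.Prime) {n r s : ℕ} (hn : 1 ≤ n) {y1 y2 g : ℤ}
    (hc : (p : ℤ) ^ (n * (r + 1)) ∣ y1 - y2) (hy : ¬ (p : ℤ) ^ (r + 1) ∣ y2)
    (hs : (p : ℤ) ^ s ∣ g * (y1 ^ n - y2 ^ n)) :
    (p : ℤ) ^ s ∣ (p : ℤ) ^ (n * (r + 1)) * (g * (y1 - y2)) := by
  have hpi : Prime (p : ℤ) := Nat.prime_iff_prime_int.mp hp
  have hQ : ¬ (p : ℤ) ^ (n * (r + 1)) ∣ ∑ i ∈ range n, y1 ^ i * y2 ^ (n - 1 - i) := by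
    rw [dvd_geom_sum₂_iff_of_dvd_sub hc]
    obtain ⟨m, rfl⟩ : ∃ m, n = m + 1 := ⟨n - 1, by omega⟩
    have h1 : ¬ (p : ℤ) ^ (m + 1) ∣ ((m + 1 : ℕ) : ℤ) := by
      intro h
      have h2 : p ^ (m + 1) ∣ m + 1 := by exact_mod_cast h
      have h3 := Nat.le_of_dvd (by omega) h2
      have h4 : m + 1 < p ^ (m + 1) := Nat.lt_pow_self hp.one_lt
      omega
    have h2 := not_pow_dvd_pow hpi hy m
    have h3 := not_pow_dvd_mul hpi h1 h2
    intro h
    apply h3
    have h4 : m + 1 - 1 = m := by omega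
    rw [h4] at h
    refine dvd_trans (pow_dvd_pow _ ?_) h
    nlinarith
  apply dvd_cancel hpi hQ
  have e : g * (y1 - y2) * ∑ i ∈ range n, y1 ^ i * y2 ^ (n - 1 - i) = g * (y1 ^ n - y2 ^ n) := by
    rw [← geom_sum₂_mul]
    ring
  rw [e]
  exact hs

theorem card_le_real {α β : Type*} [DecidableEq β] (s : Finset α) (t : Finset β) (f : α → β)
    (hf : ∀ a ∈ s, f a ∈ t) (c : ℝ)
    (hc : ∀ b ∈ t, ((s.filter (fun a => f a = b)).card : ℝ) ≤ c) :
    (s.card : ℝ) ≤ t.card * c := by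
  rw [Finset.card_eq_sum_card_fiberwise hf]
  push_cast
  calc ∑ b ∈ t, ((s.filter (fun a => f a = b)).card : ℝ) ≤ ∑ b ∈ t, c := Finset.sum_le_sum hc
    _ = t.card * c := by rw [Finset.sum_const, nsmul_eq_mul]

/-- A set of diameter `ℓ` all of whose elements are congruent. -/
theorem card_le_of_cong (S : Finset ℕ) (K q : ℕ) (hK : 1 ≤ K) (hq : 1 ≤ q) (ℓ : ℝ) (hℓ : 0 ≤ ℓ)
    (hlen : ∀ x ∈ S, ∀ y ∈ S, (x : ℝ) - y ≤ ℓ)
    (hcong : ∀ x ∈ S, ∀ y ∈ S, (q : ℤ) ∣ K * ((x : ℤ) - y)) :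
    (S.card : ℝ) ≤ ℓ * K / q + 1 := by
  have hnn : 0 ≤ ℓ * K / q := by positivity
  rcases S.eq_empty_or_nonempty with hS | hS
  · subst hS
    simp only [Finset.card_empty, Nat.cast_zero]
    linarith
  set y0 := S.min' hS with hy0
  have hy0S : y0 ∈ S := Finset.min'_mem S hS
  have hle : ∀ x ∈ S, y0 ≤ x := fun x hx => Finset.min'_le S x hx
  have hdvd : ∀ x ∈ S, q ∣ K * (x - y0) := by
    intro x hx
    have h1 := hcong x hx y0 hy0S
    have h2 : (K : ℤ) * ((x : ℤ) - y0) = ((K * (x - y0) : ℕ) : ℤ) := by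
      rw [Nat.cast_mul, Nat.cast_sub (hle x hx)]
    rw [h2] at h1
    exact_mod_cast h1
  have hmap : ∀ x ∈ S, K * (x - y0) / q ∈ range (⌊ℓ * K / q⌋₊ + 1) := by
    intro x hx
    rw [Finset.mem_range, Nat.lt_succ_iff]
    apply Nat.le_floor
    obtain ⟨m, hm⟩ := hdvd x hx
    rw [hm, Nat.mul_div_cancel_left _ (by omega)]
    have hq' : (0 : ℝ) < q := by exact_mod_cast hq
    rw [le_div_iff₀ hq']
    have h1 : (K : ℝ) * ((x : ℝ) - y0) = q * m := by
      have : ((K * (x - y0) : ℕ) : ℝ) = ((q * m : ℕ) : ℝ) := by rw [hm]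
      rw [Nat.cast_mul, Nat.cast_sub (hle x hx), Nat.cast_mul] at this
      exact this
    have h2 := hlen x hx y0 hy0S
    have hK' : (0 : ℝ) ≤ K := Nat.cast_nonneg K
    nlinarith
  have hinj : Set.InjOn (fun x => K * (x - y0) / q) (S : Set ℕ) := by
    intro x hx y hy hxy
    have hx' : x ∈ S := hx
    have hy' : y ∈ S := hy
    obtain ⟨m, hm⟩ := hdvd x hx'
    obtain ⟨m', hm'⟩ := hdvd y hy'
    have hxy' : K * (x - y0) / q = K * (y - y0) / q := hxy
    rw [hm, hm', Nat.mul_div_cancel_left _ (by omega), Nat.mul_div_cancel_left _ (by omega)] at hxy'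
    have h3 : K * (x - y0) = K * (y - y0) := by rw [hm, hm', hxy']
    have h4 : x - y0 = y - y0 := Nat.eq_of_mul_eq_mul_left (by omega) h3
    have h5 := hle x hx'
    have h6 := hle y hy'
    omega
  have hcard : S.card ≤ ⌊ℓ * K / q⌋₊ + 1 := by
    have := Finset.card_le_card_of_injOn (fun x => K * (x - y0) / q) hmap hinj
    rwa [Finset.card_range] at this
  have h1 : (S.card : ℝ) ≤ (⌊ℓ * K / q⌋₊ : ℝ) + 1 := by exact_mod_cast hcard
  have h2 := Nat.floor_le hnn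
  linarith

/-- multiples of `A` below `A * B` -/
theorem card_multiples_le (A B N : ℕ) (hN : N = A * B) :
    ((range N).filter (fun w => A ∣ w)).card ≤ B := by
  subst hN
  rcases Nat.eq_zero_or_pos A with h0 | h0
  · subst h0
    simp
  have := Finset.card_le_card_of_injOn (s := (range (A * B)).filter (fun w => A ∣ w))
    (t := range B) (fun w => w / A)
    (by
      intro w hw
      have hw' := Finset.mem_filter.mp hw
      have h1 := Finset.mem_range.mp hw'.1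
      simp only [Finset.coe_range, Set.mem_Iio]
      exact Nat.div_lt_of_lt_mul h1)
    (by
      intro x hx y hy hxy
      have hx' := (Finset.mem_filter.mp hx).2
      have hy' := (Finset.mem_filter.mp hy).2
      obtain ⟨a, rfl⟩ := hx'
      obtain ⟨b, rfl⟩ := hy'
      simp only [Nat.mul_div_cancel_left _ h0] at hxy
      rw [hxy])
  rwa [Finset.card_range] at this

end Pool.Agent.H.MP_40bd32_nt.PS
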