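import Pool.Agent.H.MP_40bd32_nt.PS.Close
import Pool.Agent.H.MP_40bd32_nt.PS.Lift

set_option autoImplicit false

open Finset N4baffcff

namespace Pool.Agent.H.MP_40bd32_nt.PS

/-! ### M7b Bad.lean : the `x` divisible by a high power of `p` (`p q = 10`)
`v = v_p x ≥ r + 1`, `q ∤ x`, `w = x^k % 10^j`.  All `x` with a given `w` lie in an interval of length
`10^(d+1-j)` (`close0`).
Case `k v ≤ j`: `p^(kv) ∣ w`, at most `10^j/p^(kv)` words `w`; classes of `x / p^v mod 10^k`: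
`10^k`; two `x` with the same `w`, `v`, class: `p^(j - kv) ∣ u1^k - u2^k = (u1 - u2) Q`, `p^k ∤ Q`
(`Q ≡ k u1^(k-1) mod p^k`), and `q^j ∣ q^k (x1 - x2)`: `x1 ≡ x2` modulo some
`δ ≥ 10^j/(p^((k-1)v) 10^k)`, so at most `10^(d+1-j) p^((k-1)v) 10^k/10^j + 1` of them.
Total for this `v`: `10^k (10^(d+1+k-j)/p^v + 10^j/p^(kv))`; at most `j` values of `v`.
Case `k v > j`, `v ≥ v0 = j/k + 1`: `p^j ∣ w`, `q^j` words, `q^k` classes of `x mod q^k`:
`q^j ∣ q^k (x1 - x2)`: total `≤ q^(2k) 10^(d+1-j) + q^(j+k)`.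
-/

/-- two `x` with the same word are close -/
theorem near {k j d L x y : ℕ} (hk : 1 ≤ k) (hj : 1 ≤ j) (hjL : j ≤ L)
    (hx1 : 1 ≤ x) (hxd : x < 10 ^ d) (hxp : IsDecimalPalindrome (x ^ k))
    (hxL : (Nat.digits 10 (x ^ k)).length = L)
    (hy1 : 1 ≤ y) (hyd : y < 10 ^ d) (hyp : IsDecimalPalindrome (y ^ k))
    (hyL : (Nat.digits 10 (y ^ k)).length = L) (hw : x ^ k % 10 ^ j = y ^ k % 10 ^ j) :
    (x : ℝ) - y ≤ 10 ^ (d + 1) / (10 : ℝ) ^ j := by
  obtain ⟨_, h1⟩ := close0 hk hx1 hxd hj hxp (by omega)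
  obtain ⟨h2, _⟩ := close0 hk hy1 hyd hj hyp (by omega)
  rw [hxL] at h1
  rw [hyL] at h2
  have h3 : rv j (x ^ k) = rv j (y ^ k) := rv_congr hw
  rw [h3] at h1
  linarith

theorem ten_dvd {p q : ℕ} (hp : p.Prime) (hq : q.Prime) (hne : p ≠ q) (hpq : p * q = 10)
    {j : ℕ} {A : ℤ} (h1 : (p : ℤ) ^ j ∣ A) (h2 : (q : ℤ) ^ j ∣ A) : ((10 ^ j : ℕ) : ℤ) ∣ A := by
  have e : ((10 ^ j : ℕ) : ℤ) = (p : ℤ) ^ j * (q : ℤ) ^ j := by
    rw [← hpq]
    push_cast
    rw [mul_pow]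
  rw [e]
  have hcop : IsCoprime ((p : ℤ) ^ j) ((q : ℤ) ^ j) := by
    apply IsCoprime.pow
    rw [Nat.isCoprime_iff_coprime]
    exact (Nat.coprime_primes hp hq).mpr hne
  exact hcop.mul_dvd h1 h2

theorem bad_v {k j d L v p q : ℕ} (hk : 1 ≤ k) (hp : p.Prime) (hq : q.Prime) (hne : p ≠ q)
    (hpq : p * q = 10) (hj : 1 ≤ j) (hjL : j ≤ L) (hv : k * v ≤ j) (S : Finset ℕ)
    (hS : ∀ x ∈ S, x < 10 ^ d ∧ 1 ≤ x ∧ IsDecimalPalindrome (x ^ k) ∧
      (Nat.digits 10 (x ^ k)).length = L ∧ ¬ q ∣ x ∧ p ^ v ∣ x ∧ ¬ p ^ (v + 1) ∣ x) :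
    (S.card : ℝ) ≤ 10 ^ (2 * k) * (10 ^ (d + 1) / 10 ^ j / (p : ℝ) ^ v)
      + 10 ^ k * (10 ^ j / (p : ℝ) ^ (k * v)) := by
  classical
  have hp0 : 0 < p := hp.pos
  have hpR : (0 : ℝ) < p := by exact_mod_cast hp0
  obtain ⟨k', rfl⟩ : ∃ k', k = k' + 1 := ⟨k - 1, by omega⟩
  set t : Finset (ℕ × ℕ) := ((range (10 ^ j)).filter (fun w => p ^ ((k' + 1) * v) ∣ w)) ×ˢ
    range (10 ^ (k' + 1)) with ht
  have hcard_t : (t.card : ℝ) ≤ (10 ^ j / (p : ℝ) ^ ((k' + 1) * v)) * 10 ^ (k' + 1) := by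
    have h1 : t.card ≤ (p ^ (j - (k' + 1) * v) * q ^ j) * 10 ^ (k' + 1) := by
      rw [ht, Finset.card_product, Finset.card_range]
      apply Nat.mul_le_mul_right
      apply card_multiples_le
      rw [← hpq, mul_pow, ← mul_assoc, ← pow_add]
      congr 2
      omega
    have h2 : (10 : ℝ) ^ j / (p : ℝ) ^ ((k' + 1) * v)
        = (p : ℝ) ^ (j - (k' + 1) * v) * (q : ℝ) ^ j := by
      rw [div_eq_iff (by positivity)]
      have e : (10 : ℝ) ^ j = (p : ℝ) ^ j * (q : ℝ) ^ j := by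
        rw [← mul_pow]
        congr 1
        exact_mod_cast hpq.symm
      have e2 : (p : ℝ) ^ j = (p : ℝ) ^ (j - (k' + 1) * v) * (p : ℝ) ^ ((k' + 1) * v) := by
        rw [← pow_add]
        congr 1
        omega
      rw [e, e2]
      ring
    rw [h2]
    exact_mod_cast h1
  have hmain := card_le_real S t (fun x => (x ^ (k' + 1) % 10 ^ j, (x / p ^ v) % 10 ^ (k' + 1)))
    (by
      intro x hx
      obtain ⟨_, _, _, _, _, hxv, _⟩ := hS x hx
      rw [ht, Finset.mem_product, Finset.mem_filter, Finset.mem_range, Finset.mem_range]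
      refine ⟨⟨Nat.mod_lt _ (by positivity), ?_⟩, Nat.mod_lt _ (by positivity)⟩
      have h1 : p ^ ((k' + 1) * v) ∣ x ^ (k' + 1) := by
        rw [mul_comm, pow_mul]
        exact pow_dvd_pow_of_dvd hxv _
      have h2 : p ^ ((k' + 1) * v) ∣ 10 ^ j := by
        refine dvd_trans (pow_dvd_pow p hv) ?_
        exact pow_dvd_pow_of_dvd ⟨q, hpq.symm⟩ _
      exact (Nat.dvd_mod_iff h2).mpr h1)
    (10 ^ (d + 1) / (10 : ℝ) ^ j * (10 ^ (k' + 1) * (p : ℝ) ^ (k' * v)) / 10 ^ j + 1)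
    (by
      intro b _
      have h2 := card_le_of_cong
        (S.filter (fun x => (x ^ (k' + 1) % 10 ^ j, (x / p ^ v) % 10 ^ (k' + 1)) = b))
        (10 ^ (k' + 1) * p ^ (k' * v)) (10 ^ j)
        (Nat.mul_pos (by positivity) (by positivity)) (Nat.pos_of_ne_zero (by positivity))
        (10 ^ (d + 1) / (10 : ℝ) ^ j) (by positivity)
        (by
          intro x hx y hy
          obtain ⟨hxS, hxb⟩ := Finset.mem_filter.mp hx
          obtain ⟨hyS, hyb⟩ := Finset.mem_filter.mp hy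
          obtain ⟨hx1, hx2, hx3, hx4, -, -, -⟩ := hS x hxS
          obtain ⟨hy1, hy2, hy3, hy4, -, -, -⟩ := hS y hyS
          have hw : x ^ (k' + 1) % 10 ^ j = y ^ (k' + 1) % 10 ^ j := by
            rw [← hyb] at hxb
            exact (Prod.mk.inj hxb).1
          exact near hk hj hjL hx2 hx1 hx3 hx4 hy2 hy1 hy3 hy4 hw)
        (by
          intro x hx y hy
          obtain ⟨hxS, hxb⟩ := Finset.mem_filter.mp hx
          obtain ⟨hyS, hyb⟩ := Finset.mem_filter.mp hy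
          obtain ⟨-, -, -, -, hxq, hxv, hxv'⟩ := hS x hxS
          obtain ⟨-, -, -, -, hyq, hyv, hyv'⟩ := hS y hyS
          rw [← hyb] at hxb
          obtain ⟨hw, hu⟩ := Prod.mk.inj hxb
          obtain ⟨u, rfl⟩ := hxv
          obtain ⟨u', rfl⟩ := hyv
          have hpv : 0 < p ^ v := by positivity
          rw [Nat.mul_div_cancel_left _ hpv, Nat.mul_div_cancel_left _ hpv] at hu
          have hu'p : ¬ p ∣ u' := by
            intro h
            apply hyv'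
            rw [pow_succ]
            exact Nat.mul_dvd_mul_left _ h
          have hmod : (10 : ℤ) ^ j ∣ ((p ^ v * u : ℕ) : ℤ) ^ (k' + 1)
              - ((p ^ v * u' : ℕ) : ℤ) ^ (k' + 1) := by
            have := (Nat.modEq_iff_dvd).mp (hw.symm : (p ^ v * u') ^ (k' + 1) ≡
              (p ^ v * u) ^ (k' + 1) [MOD 10 ^ j])
            exact_mod_cast this
          have huu : (10 : ℤ) ^ (k' + 1) ∣ (u : ℤ) - u' := by
            have := (Nat.modEq_iff_dvd).mp (hu.symm : u' ≡ u [MOD 10 ^ (k' + 1)])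
            exact_mod_cast this
          have hp10 : (p : ℤ) ∣ 10 := ⟨q, by exact_mod_cast hpq.symm⟩
          have hq10 : (q : ℤ) ∣ 10 := ⟨p, by rw [mul_comm]; exact_mod_cast hpq.symm⟩
          have hpZ : (p : ℤ) ≠ 0 := by exact_mod_cast hp0.ne'
          apply ten_dvd hp hq hne hpq
          · -- the `p`-part
            have h3 : (p : ℤ) ^ (j - (k' + 1) * v) ∣ 1 * ((u : ℤ) ^ (k' + 1) - (u' : ℤ) ^ (k' + 1)) := by
              have h4 : (p : ℤ) ^ ((k' + 1) * v) * (p : ℤ) ^ (j - (k' + 1) * v) ∣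
                  (p : ℤ) ^ ((k' + 1) * v) * ((u : ℤ) ^ (k' + 1) - (u' : ℤ) ^ (k' + 1)) := by
                have e1 : (p : ℤ) ^ ((k' + 1) * v) * (p : ℤ) ^ (j - (k' + 1) * v) = (p : ℤ) ^ j := by
                  rw [← pow_add]
                  congr 1
                  omega
                have e2 : (p : ℤ) ^ ((k' + 1) * v) * ((u : ℤ) ^ (k' + 1) - (u' : ℤ) ^ (k' + 1))
                    = ((p ^ v * u : ℕ) : ℤ) ^ (k' + 1) - ((p ^ v * u' : ℕ) : ℤ) ^ (k' + 1) := by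
                  push_cast
                  rw [mul_pow, mul_pow, ← pow_mul, mul_comm v (k' + 1)]
                  ring
                rw [e1, e2]
                exact dvd_trans (pow_dvd_pow_of_dvd hp10 j) hmod
              rw [one_mul]
              exact (mul_dvd_mul_iff_left (pow_ne_zero _ hpZ)).mp h4
            have h5 := lift hp (n := k' + 1) (r := 0) (s := j - (k' + 1) * v) hk
              (y1 := (u : ℤ)) (y2 := (u' : ℤ)) (g := 1)
              (by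
                rw [Nat.zero_add, mul_one]
                exact dvd_trans (pow_dvd_pow_of_dvd hp10 _) huu)
              (by
                rw [Nat.zero_add, pow_one]
                intro h
                exact hu'p (by exact_mod_cast h))
              h3
            rw [Nat.zero_add, mul_one, one_mul] at h5
            have e1 : (p : ℤ) ^ j = (p : ℤ) ^ ((k' + 1) * v) * (p : ℤ) ^ (j - (k' + 1) * v) := by
              rw [← pow_add]
              congr 1
              omega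
            rw [e1]
            have h6 : (p : ℤ) ^ ((k' + 1) * v) * (p : ℤ) ^ (j - (k' + 1) * v) ∣
                (p : ℤ) ^ ((k' + 1) * v) * ((p : ℤ) ^ (k' + 1) * ((u : ℤ) - u')) :=
              mul_dvd_mul_left _ h5
            refine dvd_trans h6 ?_
            refine ⟨(q : ℤ) ^ (k' + 1), ?_⟩
            have e10 : ((10 ^ (k' + 1) * p ^ (k' * v) : ℕ) : ℤ)
                = (p : ℤ) ^ (k' + 1) * (q : ℤ) ^ (k' + 1) * (p : ℤ) ^ (k' * v) := by
              rw [← hpq]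
              push_cast
              rw [mul_pow]
            rw [e10]
            push_cast
            ring
          · -- the `q`-part
            have h5 := lift hq (n := k' + 1) (r := 0) (s := j) hk
              (y1 := ((p ^ v * u : ℕ) : ℤ)) (y2 := ((p ^ v * u' : ℕ) : ℤ)) (g := 1)
              (by
                rw [Nat.zero_add, mul_one]
                refine dvd_trans (pow_dvd_pow_of_dvd hq10 _) (dvd_trans huu ?_)
                refine ⟨(p : ℤ) ^ v, ?_⟩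
                push_cast
                ring)
              (by
                rw [Nat.zero_add, pow_one]
                intro h
                exact hyq (by exact_mod_cast h))
              (by
                rw [one_mul]
                exact dvd_trans (pow_dvd_pow_of_dvd hq10 j) hmod)
            rw [Nat.zero_add, mul_one, one_mul] at h5
            refine dvd_trans h5 ?_
            refine ⟨(p : ℤ) ^ (k' + 1) * (p : ℤ) ^ (k' * v), ?_⟩
            have e10 : ((10 ^ (k' + 1) * p ^ (k' * v) : ℕ) : ℤ)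
                = (p : ℤ) ^ (k' + 1) * (q : ℤ) ^ (k' + 1) * (p : ℤ) ^ (k' * v) := by
              rw [← hpq]
              push_cast
              rw [mul_pow]
            rw [e10]
            ring)
      refine le_trans h2 (le_of_eq ?_)
      push_cast
      ring)
  refine le_trans hmain ?_
  have hnn : (0 : ℝ) ≤ 10 ^ (d + 1) / (10 : ℝ) ^ j * (10 ^ (k' + 1) * (p : ℝ) ^ (k' * v)) / 10 ^ j + 1 := by
    positivity
  refine le_trans (mul_le_mul_of_nonneg_right hcard_t hnn) (le_of_eq ?_)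
  have e1 : (p : ℝ) ^ ((k' + 1) * v) = (p : ℝ) ^ (k' * v) * (p : ℝ) ^ v := by
    rw [← pow_add]
    congr 1
    ring
  rw [e1]
  have h10 : (10 : ℝ) ^ j ≠ 0 := by positivity
  have hpv : (p : ℝ) ^ v ≠ 0 := by positivity
  have hpkv : (p : ℝ) ^ (k' * v) ≠ 0 := by positivity
  field_simp
  ring

theorem bad_inf {k j d L v p q : ℕ} (hk : 1 ≤ k) (hp : p.Prime) (hq : q.Prime)
    (hpq : p * q = 10) (hj : 1 ≤ j) (hjL : j ≤ L) (hv : j ≤ k * v) (S : Finset ℕ)
    (hS : ∀ x ∈ S, x < 10 ^ d ∧ 1 ≤ x ∧ IsDecimalPalindrome (x ^ k) ∧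
      (Nat.digits 10 (x ^ k)).length = L ∧ ¬ q ∣ x ∧ p ^ v ∣ x) :
    (S.card : ℝ) ≤ (q : ℝ) ^ (2 * k) * (10 ^ (d + 1) / 10 ^ j) + (q : ℝ) ^ k * (q : ℝ) ^ j := by
  classical
  have hq0 : 0 < q := hq.pos
  have hqR : (0 : ℝ) < q := by exact_mod_cast hq0
  set t : Finset (ℕ × ℕ) := ((range (10 ^ j)).filter (fun w => p ^ j ∣ w)) ×ˢ range (q ^ k) with ht
  have hcard_t : (t.card : ℝ) ≤ (q : ℝ) ^ j * (q : ℝ) ^ k := by
    have h1 : t.card ≤ q ^ j * q ^ k := by
      rw [ht, Finset.card_product, Finset.card_range]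
      apply Nat.mul_le_mul_right
      apply card_multiples_le
      rw [← hpq, mul_pow]
    exact_mod_cast h1
  have hq10 : (q : ℤ) ∣ 10 := ⟨p, by rw [mul_comm]; exact_mod_cast hpq.symm⟩
  have hmain := card_le_real S t (fun x => (x ^ k % 10 ^ j, x % q ^ k))
    (by
      intro x hx
      obtain ⟨_, _, _, _, _, hxv⟩ := hS x hx
      rw [ht, Finset.mem_product, Finset.mem_filter, Finset.mem_range, Finset.mem_range]
      refine ⟨⟨Nat.mod_lt _ (by positivity), ?_⟩, Nat.mod_lt _ (by positivity)⟩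
      have h1 : p ^ j ∣ x ^ k := by
        have : p ^ (k * v) ∣ x ^ k := by
          rw [mul_comm, pow_mul]
          exact pow_dvd_pow_of_dvd hxv _
        exact dvd_trans (pow_dvd_pow p hv) this
      have h2 : p ^ j ∣ 10 ^ j := pow_dvd_pow_of_dvd ⟨q, hpq.symm⟩ _
      exact (Nat.dvd_mod_iff h2).mpr h1)
    (10 ^ (d + 1) / (10 : ℝ) ^ j * (q : ℝ) ^ k / (q : ℝ) ^ j + 1)
    (by
      intro b _
      have h2 := card_le_of_cong
        (S.filter (fun x => (x ^ k % 10 ^ j, x % q ^ k) = b))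
        (q ^ k) (q ^ j)
        (Nat.pos_of_ne_zero (by positivity)) (Nat.pos_of_ne_zero (by positivity))
        (10 ^ (d + 1) / (10 : ℝ) ^ j) (by positivity)
        (by
          intro x hx y hy
          obtain ⟨hxS, hxb⟩ := Finset.mem_filter.mp hx
          obtain ⟨hyS, hyb⟩ := Finset.mem_filter.mp hy
          obtain ⟨hx1, hx2, hx3, hx4, -, -⟩ := hS x hxS
          obtain ⟨hy1, hy2, hy3, hy4, -, -⟩ := hS y hyS
          have hw : x ^ k % 10 ^ j = y ^ k % 10 ^ j := by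
            rw [← hyb] at hxb
            exact (Prod.mk.inj hxb).1
          exact near hk hj hjL hx2 hx1 hx3 hx4 hy2 hy1 hy3 hy4 hw)
        (by
          intro x hx y hy
          obtain ⟨hxS, hxb⟩ := Finset.mem_filter.mp hx
          obtain ⟨hyS, hyb⟩ := Finset.mem_filter.mp hy
          obtain ⟨-, -, -, -, hxq, -⟩ := hS x hxS
          obtain ⟨-, -, -, -, hyq, -⟩ := hS y hyS
          rw [← hyb] at hxb
          obtain ⟨hw, hu⟩ := Prod.mk.inj hxb
          have hmod : (10 : ℤ) ^ j ∣ (x : ℤ) ^ k - (y : ℤ) ^ k := by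
            have := (Nat.modEq_iff_dvd).mp (hw.symm : y ^ k ≡ x ^ k [MOD 10 ^ j])
            exact_mod_cast this
          have huu : (q : ℤ) ^ k ∣ (x : ℤ) - y := by
            have := (Nat.modEq_iff_dvd).mp (hu.symm : y ≡ x [MOD q ^ k])
            exact_mod_cast this
          have h5 := lift hq (n := k) (r := 0) (s := j) hk
            (y1 := (x : ℤ)) (y2 := (y : ℤ)) (g := 1)
            (by
              rw [Nat.zero_add, mul_one]
              exact huu)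
            (by
              rw [Nat.zero_add, pow_one]
              intro h
              exact hyq (by exact_mod_cast h))
            (by
              rw [one_mul]
              exact dvd_trans (pow_dvd_pow_of_dvd hq10 j) hmod)
          rw [Nat.zero_add, mul_one, one_mul] at h5
          exact_mod_cast h5)
      refine le_trans h2 (le_of_eq ?_)
      push_cast
      ring)
  refine le_trans hmain ?_
  have hnn : (0 : ℝ) ≤ 10 ^ (d + 1) / (10 : ℝ) ^ j * (q : ℝ) ^ k / (q : ℝ) ^ j + 1 := by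
    positivity
  refine le_trans (mul_le_mul_of_nonneg_right hcard_t hnn) (le_of_eq ?_)
  have hqj : (q : ℝ) ^ j ≠ 0 := by positivity
  field_simp
  ring

open Classical in
theorem bad {k j d L r p q : ℕ} (hk : 2 ≤ k) (hpq : (p = 2 ∧ q = 5) ∨ (p = 5 ∧ q = 2))
    (hj : 1 ≤ j) (hjL : j ≤ L) :
    (((range (10 ^ d)).filter (fun x => (1 ≤ x ∧ IsDecimalPalindrome (x ^ k) ∧
        (Nat.digits 10 (x ^ k)).length = L) ∧ p ^ (r + 1) ∣ x)).card : ℝ) ≤
      (j + 1) * 10 ^ (2 * k) * (10 ^ (d + 1) / 10 ^ j + 10 ^ j / 2 ^ (k * (r + 1)) + 5 ^ j) := by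
  have hk1 : 1 ≤ k := by omega
  have hp : p.Prime := by
    rcases hpq with ⟨h, _⟩ | ⟨h, _⟩ <;> subst h <;> norm_num
  have hq : q.Prime := by
    rcases hpq with ⟨_, h⟩ | ⟨_, h⟩ <;> subst h <;> norm_num
  have hne : p ≠ q := by
    rcases hpq with ⟨h, h'⟩ | ⟨h, h'⟩ <;> subst h <;> subst h' <;> norm_num
  have hmul : p * q = 10 := by
    rcases hpq with ⟨h, h'⟩ | ⟨h, h'⟩ <;> subst h <;> subst h' <;> norm_num
  have hp2 : 2 ≤ p := hp.two_le
  have hq5 : q ≤ 5 := by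
    rcases hpq with ⟨h, h'⟩ | ⟨h, h'⟩ <;> subst h' <;> norm_num
  have hpR : (2 : ℝ) ≤ p := by exact_mod_cast hp2
  have hqR : (q : ℝ) ≤ 5 := by exact_mod_cast hq5
  have hq0 : (0 : ℝ) ≤ q := Nat.cast_nonneg q
  set S := (range (10 ^ d)).filter (fun x => (1 ≤ x ∧ IsDecimalPalindrome (x ^ k) ∧
        (Nat.digits 10 (x ^ k)).length = L) ∧ p ^ (r + 1) ∣ x) with hSdef
  have hSmem : ∀ x ∈ S, x < 10 ^ d ∧ 1 ≤ x ∧ IsDecimalPalindrome (x ^ k) ∧
      (Nat.digits 10 (x ^ k)).length = L ∧ ¬ q ∣ x ∧ p ^ (r + 1) ∣ x := by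
    intro x hx
    obtain ⟨h1, ⟨h2, h3, h4⟩, h5⟩ := Finset.mem_filter.mp hx
    refine ⟨Finset.mem_range.mp h1, h2, h3, h4, ?_, h5⟩
    intro hqx
    have hpx : p ∣ x := dvd_trans (dvd_pow_self p (by omega)) h5
    have h10 : 10 ∣ x := by
      rw [← hmul]
      exact Nat.Coprime.mul_dvd_of_dvd_of_dvd ((Nat.coprime_primes hp hq).mpr hne) hpx hqx
    exact pal_not_dvd (Nat.one_le_pow _ _ h2) h3 (dvd_trans h10 (dvd_pow_self x (by omega)))
  -- the pieces
  have hcover : S ⊆ ((Icc (r + 1) (j / k)).biUnion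
      (fun v => S.filter (fun x => p ^ v ∣ x ∧ ¬ p ^ (v + 1) ∣ x)))
      ∪ S.filter (fun x => p ^ (j / k + 1) ∣ x) := by
    intro x hx
    rw [Finset.mem_union]
    by_cases h : p ^ (j / k + 1) ∣ x
    · exact Or.inr (Finset.mem_filter.mpr ⟨hx, h⟩)
    · left
      obtain ⟨-, hx1, -, -, -, hxr⟩ := hSmem x hx
      have h' : ¬ (p : ℤ) ^ (j / k + 1) ∣ (x : ℤ) := by
        intro h2
        exact h (by exact_mod_cast h2)
      obtain ⟨v, A', hv, hxA, hA'⟩ := split_pow h'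
      have hd1 : p ^ v ∣ x := by
        have : (p : ℤ) ^ v ∣ (x : ℤ) := ⟨A', hxA⟩
        exact_mod_cast this
      have hd2 : ¬ p ^ (v + 1) ∣ x := by
        intro h2
        have h3 : (p : ℤ) ^ (v + 1) ∣ (x : ℤ) := by exact_mod_cast h2
        rw [hxA, pow_succ] at h3
        have hpZ : (p : ℤ) ^ v ≠ 0 := pow_ne_zero _ (by exact_mod_cast hp.ne_zero)
        exact hA' ((mul_dvd_mul_iff_left hpZ).mp h3)
      rw [Finset.mem_biUnion]
      refine ⟨v, ?_, Finset.mem_filter.mpr ⟨hx, hd1, hd2⟩⟩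
      rw [Finset.mem_Icc]
      refine ⟨?_, hv⟩
      by_contra hlt
      apply hd2
      exact dvd_trans (pow_dvd_pow p (by omega)) hxr
  have hcardS : (S.card : ℝ) ≤ (∑ v ∈ Icc (r + 1) (j / k),
      ((S.filter (fun x => p ^ v ∣ x ∧ ¬ p ^ (v + 1) ∣ x)).card : ℝ))
      + ((S.filter (fun x => p ^ (j / k + 1) ∣ x)).card : ℝ) := by
    have h1 := Finset.card_le_card hcover
    have h2 := Finset.card_union_le ((Icc (r + 1) (j / k)).biUnion
      (fun v => S.filter (fun x => p ^ v ∣ x ∧ ¬ p ^ (v + 1) ∣ x)))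
      (S.filter (fun x => p ^ (j / k + 1) ∣ x))
    have h3 := Finset.card_biUnion_le (s := Icc (r + 1) (j / k))
      (t := fun v => S.filter (fun x => p ^ v ∣ x ∧ ¬ p ^ (v + 1) ∣ x))
    have h4 : S.card ≤ (∑ v ∈ Icc (r + 1) (j / k),
      (S.filter (fun x => p ^ v ∣ x ∧ ¬ p ^ (v + 1) ∣ x)).card)
      + (S.filter (fun x => p ^ (j / k + 1) ∣ x)).card := by omega
    exact_mod_cast h4
  have hAnn : (0 : ℝ) ≤ 10 ^ (d + 1) / 10 ^ j := by positivity
  have hBnn : (0 : ℝ) ≤ 10 ^ j / 2 ^ (k * (r + 1)) := by positivity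
  have h10k : (1 : ℝ) ≤ 10 ^ k := one_le_pow₀ (by norm_num)
  have h102k : (10 : ℝ) ^ (2 * k) = 10 ^ k * 10 ^ k := by rw [two_mul, pow_add]
  have hv_bound : ∀ v ∈ Icc (r + 1) (j / k),
      ((S.filter (fun x => p ^ v ∣ x ∧ ¬ p ^ (v + 1) ∣ x)).card : ℝ)
        ≤ 10 ^ (2 * k) * (10 ^ (d + 1) / 10 ^ j + 10 ^ j / 2 ^ (k * (r + 1))) := by
    intro v hv
    obtain ⟨hv1, hv2⟩ := Finset.mem_Icc.mp hv
    have hkv : k * v ≤ j := by
      calc k * v ≤ k * (j / k) := Nat.mul_le_mul_left _ hv2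
        _ ≤ j := Nat.mul_div_le j k
    have h1 := bad_v hk1 hp hq hne hmul hj hjL hkv
      (S.filter (fun x => p ^ v ∣ x ∧ ¬ p ^ (v + 1) ∣ x)) (d := d)
      (by
        intro x hx
        obtain ⟨hxS, hx1, hx2⟩ := Finset.mem_filter.mp hx
        obtain ⟨a1, a2, a3, a4, a5, -⟩ := hSmem x hxS
        exact ⟨a1, a2, a3, a4, a5, hx1, hx2⟩)
    refine le_trans h1 ?_
    have h2 : 10 ^ (d + 1) / 10 ^ j / (p : ℝ) ^ v ≤ 10 ^ (d + 1) / 10 ^ j := by
      apply div_le_self hAnn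
      exact one_le_pow₀ (by linarith)
    have h3 : (10 : ℝ) ^ j / (p : ℝ) ^ (k * v) ≤ 10 ^ j / 2 ^ (k * (r + 1)) := by
      apply div_le_div_of_nonneg_left (by positivity) (by positivity)
      calc (2 : ℝ) ^ (k * (r + 1)) ≤ 2 ^ (k * v) :=
            pow_le_pow_right₀ (by norm_num) (Nat.mul_le_mul_left _ hv1)
        _ ≤ (p : ℝ) ^ (k * v) := pow_le_pow_left₀ (by norm_num) hpR _
    have h4 : (10 : ℝ) ^ k * (10 ^ j / (p : ℝ) ^ (k * v))
        ≤ 10 ^ (2 * k) * (10 ^ j / 2 ^ (k * (r + 1))) := by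
      apply mul_le_mul _ h3 (by positivity) (by positivity)
      rw [h102k]
      nlinarith
    have h5 : (10 : ℝ) ^ (2 * k) * (10 ^ (d + 1) / 10 ^ j / (p : ℝ) ^ v)
        ≤ 10 ^ (2 * k) * (10 ^ (d + 1) / 10 ^ j) :=
      mul_le_mul_of_nonneg_left h2 (by positivity)
    linarith
  have hinf : ((S.filter (fun x => p ^ (j / k + 1) ∣ x)).card : ℝ)
      ≤ 10 ^ (2 * k) * (10 ^ (d + 1) / 10 ^ j + 5 ^ j) := by
    have hkv : j ≤ k * (j / k + 1) := by
      have := Nat.lt_mul_div_succ j (show 0 < k by omega)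
      omega
    have h1 := bad_inf hk1 hp hq hmul hj hjL hkv
      (S.filter (fun x => p ^ (j / k + 1) ∣ x)) (d := d)
      (by
        intro x hx
        obtain ⟨hxS, hx1⟩ := Finset.mem_filter.mp hx
        obtain ⟨a1, a2, a3, a4, a5, -⟩ := hSmem x hxS
        exact ⟨a1, a2, a3, a4, a5, hx1⟩)
    refine le_trans h1 ?_
    have h2 : (q : ℝ) ^ (2 * k) ≤ 10 ^ (2 * k) := pow_le_pow_left₀ hq0 (by linarith) _
    have h3 : (q : ℝ) ^ k ≤ 10 ^ (2 * k) := by
      calc (q : ℝ) ^ k ≤ 10 ^ k := pow_le_pow_left₀ hq0 (by linarith) _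
        _ ≤ 10 ^ (2 * k) := pow_le_pow_right₀ (by norm_num) (by omega)
    have h4 : (q : ℝ) ^ j ≤ 5 ^ j := pow_le_pow_left₀ hq0 hqR _
    have h5 : (q : ℝ) ^ k * (q : ℝ) ^ j ≤ 10 ^ (2 * k) * 5 ^ j :=
      mul_le_mul h3 h4 (by positivity) (by positivity)
    have h6 : (q : ℝ) ^ (2 * k) * (10 ^ (d + 1) / 10 ^ j) ≤ 10 ^ (2 * k) * (10 ^ (d + 1) / 10 ^ j) :=
      mul_le_mul_of_nonneg_right h2 hAnn
    linarith
  have hsum : ∑ v ∈ Icc (r + 1) (j / k),
      ((S.filter (fun x => p ^ v ∣ x ∧ ¬ p ^ (v + 1) ∣ x)).card : ℝ)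
      ≤ j * (10 ^ (2 * k) * (10 ^ (d + 1) / 10 ^ j + 10 ^ j / 2 ^ (k * (r + 1)))) := by
    refine le_trans (Finset.sum_le_sum hv_bound) ?_
    rw [Finset.sum_const, nsmul_eq_mul, Nat.card_Icc]
    apply mul_le_mul_of_nonneg_right _ (by positivity)
    have : j / k + 1 - (r + 1) ≤ j := by
      have := Nat.div_le_self j k
      omega
    exact_mod_cast this
  have h5j : (0 : ℝ) ≤ 5 ^ j := by positivity
  have hj0 : (0 : ℝ) ≤ j := Nat.cast_nonneg j
  have hT : (0 : ℝ) ≤ 10 ^ (2 * k) := by positivity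
  have hfin : (j : ℝ) * (10 ^ (2 * k) * (10 ^ (d + 1) / 10 ^ j + 10 ^ j / 2 ^ (k * (r + 1))))
      + 10 ^ (2 * k) * (10 ^ (d + 1) / 10 ^ j + 5 ^ j)
      ≤ (j + 1) * 10 ^ (2 * k) * (10 ^ (d + 1) / 10 ^ j + 10 ^ j / 2 ^ (k * (r + 1)) + 5 ^ j) := by
    have e : (j + 1) * 10 ^ (2 * k) * (10 ^ (d + 1) / 10 ^ j + 10 ^ j / 2 ^ (k * (r + 1)) + 5 ^ j)
        - ((j : ℝ) * (10 ^ (2 * k) * (10 ^ (d + 1) / 10 ^ j + 10 ^ j / 2 ^ (k * (r + 1))))
          + 10 ^ (2 * k) * (10 ^ (d + 1) / 10 ^ j + 5 ^ j))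
        = (j : ℝ) * 10 ^ (2 * k) * 5 ^ j + 10 ^ (2 * k) * (10 ^ j / 2 ^ (k * (r + 1))) := by ring
    have : 0 ≤ (j : ℝ) * 10 ^ (2 * k) * 5 ^ j + 10 ^ (2 * k) * (10 ^ j / 2 ^ (k * (r + 1))) := by
      positivity
    linarith
  linarith

end Pool.Agent.H.MP_40bd32_nt.PS
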