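import Mathlib
import Pool.Prelude.Def_F_f86fdde6

set_option autoImplicit false

open Finset

namespace Pool.Agent.H.MP_40bd32_nt.PS

/-- reversed digit expansion: `∑_{i<a} (digit i of w) 10^(-i-1)` -/
noncomputable def rv (a w : ℕ) : ℝ := ∑ i ∈ range a, ((w / 10 ^ i % 10 : ℕ) : ℝ) / 10 ^ (i + 1)

/-- `e(t) = exp(2πit)` -/
noncomputable def ee (t : ℝ) : ℂ := Complex.exp (((2 * Real.pi * t : ℝ) : ℂ) * Complex.I)

/-- the phase -/
noncomputable def Fv (k L j y : ℕ) : ℝ :=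
  ((y : ℝ) - (10 : ℝ) ^ ((L : ℝ) / k) * (rv j (y ^ k)) ^ ((1 : ℝ) / k)) / 10 ^ j

/-- the sum over all words of length `a` -/
noncomputable def SS (a M : ℕ) (Λ : ℝ) : ℂ :=
  ∑ w ∈ range (10 ^ a), ee ((M : ℝ) * w / 10 ^ a - Λ * rv a w)

noncomputable def tau : ℝ := 1 - 1 / 12100

/-- weight: a factor `tau` for each digit `1, …, 8` of `v` at the places `1, …, a - 1` -/
noncomputable def wt (a v : ℕ) : ℝ :=
  ∏ i ∈ range (a - 1), (if 1 ≤ v / 10 ^ (i + 1) % 10 ∧ v / 10 ^ (i + 1) % 10 ≤ 8 then tau else 1)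

/-! ### `ee` -/

theorem norm_ee (t : ℝ) : ‖ee t‖ = 1 := by
  unfold ee
  exact Complex.norm_exp_ofReal_mul_I _

theorem ee_zero : ee 0 = 1 := by
  unfold ee
  simp

theorem ee_add (s t : ℝ) : ee (s + t) = ee s * ee t := by
  unfold ee
  rw [← Complex.exp_add]
  congr 1
  push_cast
  ring

theorem ee_int (n : ℤ) : ee n = 1 := by
  unfold ee
  have h : (((2 * Real.pi * (n : ℝ) : ℝ) : ℂ)) * Complex.I = n * (2 * Real.pi * Complex.I) := by
    push_cast
    ring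
  rw [h]
  exact Complex.exp_int_mul_two_pi_mul_I n

theorem ee_nat (n : ℕ) : ee n = 1 := by
  have := ee_int (n : ℤ)
  simpa using this

theorem ee_add_int (t : ℝ) (n : ℤ) : ee (t + n) = ee t := by
  rw [ee_add, ee_int, mul_one]

theorem ee_neg (t : ℝ) : ee (-t) = (starRingEnd ℂ) (ee t) := by
  unfold ee
  rw [← Complex.exp_conj, map_mul, Complex.conj_ofReal, Complex.conj_I]
  congr 1
  push_cast
  ring

theorem ee_lip (s t : ℝ) : ‖ee s - ee t‖ ≤ 2 * Real.pi * |s - t| := by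
  have h1 : ee s - ee t = ee t * (ee (s - t) - 1) := by
    have h2 : ee s = ee t * ee (s - t) := by
      rw [← ee_add]
      congr 1
      ring
    rw [h2]
    ring
  rw [h1, norm_mul, norm_ee, one_mul]
  unfold ee
  rw [mul_comm _ Complex.I]
  refine (Real.norm_exp_I_mul_ofReal_sub_one_le (x := 2 * Real.pi * (s - t))).trans ?_
  rw [Real.norm_eq_abs, abs_mul, abs_of_pos (by positivity : (0 : ℝ) < 2 * Real.pi)]

/-! ### `rv` -/

theorem rv_zero (w : ℕ) : rv 0 w = 0 := by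
  simp [rv]

theorem rv_nonneg (a w : ℕ) : 0 ≤ rv a w :=
  Finset.sum_nonneg fun _ _ => by positivity

/-- only the last `a` digits matter -/
theorem rv_mod (a w : ℕ) : rv a (w % 10 ^ a) = rv a w := by
  unfold rv
  refine Finset.sum_congr rfl fun i hi => ?_
  have hi' : i < a := Finset.mem_range.1 hi
  have h : w % 10 ^ a / 10 ^ i % 10 = w / 10 ^ i % 10 := by
    obtain ⟨b, rfl⟩ : ∃ b, a = i + 1 + b := ⟨a - (i + 1), by omega⟩
    have h1 : (10 : ℕ) ^ (i + 1 + b) = 10 ^ i * (10 * 10 ^ b) := by ring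
    rw [h1, Nat.mod_mul_right_div_self]
    exact Nat.mod_mul_right_mod _ _ _
  rw [h]

theorem rv_congr {a w w' : ℕ} (h : w ≡ w' [MOD 10 ^ a]) : rv a w = rv a w' := by
  rw [← rv_mod a w, ← rv_mod a w', h]

/-- splitting off the low digits -/
theorem rv_add (a b w : ℕ) : rv (a + b) w = rv a w + rv b (w / 10 ^ a) / 10 ^ a := by
  unfold rv
  rw [Finset.sum_range_add, Finset.sum_div]
  congr 1
  refine Finset.sum_congr rfl fun i _ => ?_
  rw [Nat.div_div_eq_div_mul, ← pow_add, div_div]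
  congr 1
  ring

theorem rv_succ (a w : ℕ) : rv (a + 1) w = ((w % 10 : ℕ) : ℝ) / 10 + rv a (w / 10) / 10 := by
  rw [add_comm a 1, rv_add]
  simp [rv]

theorem rv_le (a w : ℕ) : rv a w ≤ 1 - 1 / 10 ^ a := by
  induction a generalizing w with
  | zero => simp [rv]
  | succ a ih =>
    rw [rv_succ]
    have h1 := ih (w / 10)
    have h2 : ((w % 10 : ℕ) : ℝ) ≤ 9 := by
      have : w % 10 ≤ 9 := by omega
      exact_mod_cast this
    have h3 : (1 : ℝ) / 10 ^ (a + 1) = (1 / 10 ^ a) / 10 := by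
      rw [pow_succ]
      field_simp
    rw [h3]
    linarith

theorem rv_lt_one (a w : ℕ) : rv a w < 1 := by
  have h1 := rv_le a w
  have h2 : (0 : ℝ) < 1 / 10 ^ a := by positivity
  linarith

theorem rv_ge {a w : ℕ} (ha : 1 ≤ a) (hw : ¬ 10 ∣ w) : 1 / 10 ≤ rv a w := by
  obtain ⟨b, rfl⟩ : ∃ b, a = b + 1 := ⟨a - 1, by omega⟩
  rw [rv_succ]
  have h1 : 1 ≤ w % 10 := by omega
  have h2 : (1 : ℝ) ≤ ((w % 10 : ℕ) : ℝ) := by exact_mod_cast h1
  have h3 := rv_nonneg b (w / 10)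
  linarith

/-! ### `wt` -/

theorem tau_pos : 0 < tau := by unfold tau; norm_num

theorem tau_lt_one : tau < 1 := by unfold tau; norm_num

theorem wt_nonneg (a v : ℕ) : 0 ≤ wt a v := by
  refine Finset.prod_nonneg fun i _ => ?_
  split_ifs
  · exact tau_pos.le
  · norm_num

theorem wt_le_one (a v : ℕ) : wt a v ≤ 1 := by
  refine Finset.prod_le_one (fun i _ => ?_) (fun i _ => ?_)
  · split_ifs
    · exact tau_pos.le
    · norm_num
  · split_ifs
    · exact tau_lt_one.le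
    · exact le_rfl

theorem wt_mod (a v : ℕ) : wt a (v % 10 ^ a) = wt a v := by
  unfold wt
  refine Finset.prod_congr rfl fun i hi => ?_
  have hi' : i < a - 1 := Finset.mem_range.1 hi
  have h : v % 10 ^ a / 10 ^ (i + 1) % 10 = v / 10 ^ (i + 1) % 10 := by
    obtain ⟨b, rfl⟩ : ∃ b, a = i + 1 + 1 + b := ⟨a - (i + 2), by omega⟩
    have h1 : (10 : ℕ) ^ (i + 1 + 1 + b) = 10 ^ (i + 1) * (10 * 10 ^ b) := by ring
    rw [h1, Nat.mod_mul_right_div_self]
    exact Nat.mod_mul_right_mod _ _ _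
  rw [h]

theorem not_dvd_pow {y k : ℕ} (hy : ¬ 10 ∣ y) : ¬ 10 ∣ y ^ k := by
  intro h
  apply hy
  have h2 : 2 ∣ y := Nat.prime_two.dvd_of_dvd_pow ((by norm_num : (2 : ℕ) ∣ 10).trans h)
  have h5 : 5 ∣ y := Nat.prime_five.dvd_of_dvd_pow ((by norm_num : (5 : ℕ) ∣ 10).trans h)
  omega

end Pool.Agent.H.MP_40bd32_nt.PS
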