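import Pool.Agent.H.MP_40bd32_nt.PS.Base
import Pool.Agent.H.MP_40bd32_nt.PS.Lift

set_option autoImplicit false

open Finset

namespace Pool.Agent.H.MP_40bd32_nt.PS

/-! ### M7 Fibre.lean
`c = n (r+1)`.  Two elements `y1, y2` with `y1 ≡ y2 mod 10^c`:  from `M y1^n ≡ h ≡ M y2^n` one gets
`10^s ∣ h (y1^n - y2^n) = h (y1 - y2) Q`, `Q = ∑_{i<n} y1^i y2^(n-1-i) ≡ n y1^(n-1) mod 10^c`.
For `p = 2, 5`: `p^(r+1) ∤ y1` gives `p^c ∤ n y1^(n-1)` (the exponent is at most `(n-1) r + (n-1)`), so
`p^c ∤ Q`, and `p^s ∣ h (y1 - y2) Q` gives `p^s ∣ p^c h (y1 - y2)`.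
Hence `10^s ∣ 10^c h (y1 - y2)`: in each class modulo `10^c` the elements are congruent modulo some
`δ ≥ 10^s / (10^c h)`, so there are at most `B/δ + 1` of them.
-/

theorem fibre (n r s B M h : ℕ) (hn : 1 ≤ n) (hh : 1 ≤ h) :
    (((range B).filter (fun y => ¬ 2 ^ (r + 1) ∣ y ∧ ¬ 5 ^ (r + 1) ∣ y ∧
        M * y ^ n ≡ h [MOD 10 ^ s])).card : ℝ) ≤
      10 ^ (n * (r + 1)) * ((B : ℝ) * h * 10 ^ (n * (r + 1)) / 10 ^ s + 1) := by
  classical
  have h1 := card_le_real ((range B).filter (fun y => ¬ 2 ^ (r + 1) ∣ y ∧ ¬ 5 ^ (r + 1) ∣ y ∧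
        M * y ^ n ≡ h [MOD 10 ^ s])) (range (10 ^ (n * (r + 1)))) (fun y => y % 10 ^ (n * (r + 1)))
    (fun a _ => Finset.mem_range.mpr (Nat.mod_lt _ (by positivity)))
    ((B : ℝ) * h * 10 ^ (n * (r + 1)) / 10 ^ s + 1)
    (by
      intro b _
      have h2 := card_le_of_cong
        (((range B).filter (fun y => ¬ 2 ^ (r + 1) ∣ y ∧ ¬ 5 ^ (r + 1) ∣ y ∧
          M * y ^ n ≡ h [MOD 10 ^ s])).filter (fun a => a % 10 ^ (n * (r + 1)) = b))
        (10 ^ (n * (r + 1)) * h) (10 ^ s)
        (Nat.mul_pos (by positivity) (by omega)) (Nat.pos_of_ne_zero (by positivity))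
        (B : ℝ) (Nat.cast_nonneg B)
        (by
          intro x hx y _
          have hx1 := (Finset.mem_filter.mp (Finset.mem_filter.mp hx).1).1
          have hx2 : (x : ℝ) ≤ B := by exact_mod_cast (Finset.mem_range.mp hx1).le
          have hy0 : (0 : ℝ) ≤ y := Nat.cast_nonneg y
          linarith)
        (by
          intro x hx y hy
          obtain ⟨hx1, hxb⟩ := Finset.mem_filter.mp hx
          obtain ⟨hx2, -, -, hx5⟩ := Finset.mem_filter.mp hx1
          obtain ⟨hy1, hyb⟩ := Finset.mem_filter.mp hy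
          obtain ⟨-, hy3, hy4, hy5⟩ := Finset.mem_filter.mp hy1
          -- x ≡ y mod 10^c
          have hxy : (10 : ℤ) ^ (n * (r + 1)) ∣ (x : ℤ) - y := by
            have h3 : y ≡ x [MOD 10 ^ (n * (r + 1))] := by
              unfold Nat.ModEq
              rw [hxb, hyb]
            have h4 := (Nat.modEq_iff_dvd).mp h3
            exact_mod_cast h4
          have hpow : (10 : ℤ) ^ s ∣ (h : ℤ) * ((x : ℤ) ^ n - (y : ℤ) ^ n) := by
            have h3 : (10 : ℤ) ^ s ∣ (h : ℤ) - M * (x : ℤ) ^ n := by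
              have := (Nat.modEq_iff_dvd).mp hx5
              exact_mod_cast this
            have h4 : (10 : ℤ) ^ s ∣ (h : ℤ) - M * (y : ℤ) ^ n := by
              have := (Nat.modEq_iff_dvd).mp hy5
              exact_mod_cast this
            have e : (h : ℤ) * ((x : ℤ) ^ n - (y : ℤ) ^ n)
                = ((h : ℤ) - M * (y : ℤ) ^ n) * (x : ℤ) ^ n
                  - ((h : ℤ) - M * (x : ℤ) ^ n) * (y : ℤ) ^ n := by ring
            rw [e]
            exact dvd_sub (Dvd.dvd.mul_right h4 _) (Dvd.dvd.mul_right h3 _)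
          have hp2 : (2 : ℤ) ^ s ∣ (2 : ℤ) ^ (n * (r + 1)) * ((h : ℤ) * ((x : ℤ) - y)) := by
            have := lift (p := 2) Nat.prime_two (n := n) (r := r) (s := s) hn
              (y1 := (x : ℤ)) (y2 := (y : ℤ)) (g := (h : ℤ))
              (dvd_trans (pow_dvd_pow_of_dvd (by norm_num) _) hxy)
              (by
                intro h6
                apply hy3
                exact_mod_cast h6)
              (dvd_trans (pow_dvd_pow_of_dvd (by norm_num) _) hpow)
            exact_mod_cast this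
          have hp5 : (5 : ℤ) ^ s ∣ (5 : ℤ) ^ (n * (r + 1)) * ((h : ℤ) * ((x : ℤ) - y)) := by
            have := lift (p := 5) Nat.prime_five (n := n) (r := r) (s := s) hn
              (y1 := (x : ℤ)) (y2 := (y : ℤ)) (g := (h : ℤ))
              (dvd_trans (pow_dvd_pow_of_dvd (by norm_num) _) hxy)
              (by
                intro h6
                apply hy4
                exact_mod_cast h6)
              (dvd_trans (pow_dvd_pow_of_dvd (by norm_num) _) hpow)
            exact_mod_cast this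
          have e10 : (10 : ℤ) ^ s = 2 ^ s * 5 ^ s := by rw [← mul_pow]; norm_num
          have e10' : (10 : ℤ) ^ (n * (r + 1)) = 2 ^ (n * (r + 1)) * 5 ^ (n * (r + 1)) := by
            rw [← mul_pow]; norm_num
          push_cast
          rw [e10]
          have hcop : IsCoprime ((2 : ℤ) ^ s) ((5 : ℤ) ^ s) :=
            IsCoprime.pow (by exact ⟨-2, 1, by norm_num⟩)
          apply hcop.mul_dvd
          · have e : (10 : ℤ) ^ (n * (r + 1)) * h * ((x : ℤ) - y)
                = (2 ^ (n * (r + 1)) * (h * ((x : ℤ) - y))) * 5 ^ (n * (r + 1)) := by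
              rw [e10']; ring
            rw [e]
            exact Dvd.dvd.mul_right hp2 _
          · have e : (10 : ℤ) ^ (n * (r + 1)) * h * ((x : ℤ) - y)
                = (5 ^ (n * (r + 1)) * (h * ((x : ℤ) - y))) * 2 ^ (n * (r + 1)) := by
              rw [e10']; ring
            rw [e]
            exact Dvd.dvd.mul_right hp5 _)
      refine le_trans h2 (le_of_eq ?_)
      push_cast
      ring)
  refine le_trans h1 (le_of_eq ?_)
  rw [Finset.card_range]
  push_cast
  ring

end Pool.Agent.H.MP_40bd32_nt.PS
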