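import Pool.Agent.H.MP_40bd32_nt.PS.Close

set_option autoImplicit false

open Finset

namespace Pool.Agent.H.MP_40bd32_nt.PS

/-! ### M8 Lin.lean
`(y0 + 10^(j-s) z)^k ≡ y0^k + 10^(j-s) k y0^(k-1) z mod 10^j` (as `2 (j-s) ≥ j`), so by `rv_add`
`rv j (y^k) = X0 + ρ'`, `X0 = rv (j-s) (y0^k) ≥ 1/10`, `ρ' = rv s (W + A z)/10^(j-s)`,
`W = y0^k / 10^(j-s)`, `A = k y0^(k-1)`.  With `t = ρ'/X0 ≤ 10 ρ'`:
`1 + t/k - t^2 ≤ (1+t)^(1/k) ≤ 1 + t/k`, `(X0+ρ')^(1/k) = X0^(1/k) (1+t)^(1/k)`, `X0^(1/k) ≤ 1`,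
and `10^(L/k) ≤ 10^d`.
-/

theorem root_lin0 {p t : ℝ} (hp0 : 0 ≤ p) (hp1 : p ≤ 1) (ht : 0 ≤ t) :
    |(1 + t) ^ p - (1 + p * t)| ≤ t ^ 2 := by
  have h1 : (1 + t) ^ p ≤ 1 + p * t :=
    _root_.rpow_one_add_le_one_add_mul_self (by linarith) hp0 hp1
  have h2 : t - t ^ 2 ≤ Real.log (1 + t) := by
    have h3 := Real.one_sub_inv_le_log_of_pos (by linarith : (0 : ℝ) < 1 + t)
    refine le_trans ?_ h3
    have h4 : (1 + t) * (1 + t)⁻¹ = 1 := mul_inv_cancel₀ (by linarith)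
    have h5 : 0 < (1 + t)⁻¹ := inv_pos.2 (by linarith)
    have h6 : 1 - (1 + t)⁻¹ - (t - t ^ 2) = t ^ 3 * (1 + t)⁻¹ := by
      have h7 : (1 : ℝ) - (t - t ^ 2) = (1 + t ^ 3) * (1 + t)⁻¹ := by
        have h8 : (1 + t ^ 3) = (1 + t) * (1 - t + t ^ 2) := by ring
        rw [h8]
        rw [mul_assoc, mul_comm (1 - t + t ^ 2), ← mul_assoc, h4]
        ring
      have h9 : (1 + t ^ 3) * (1 + t)⁻¹ = (1 + t)⁻¹ + t ^ 3 * (1 + t)⁻¹ := by ring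
      linarith
    have h10 : 0 ≤ t ^ 3 * (1 + t)⁻¹ := by positivity
    linarith
  have h3 : 1 + p * (t - t ^ 2) ≤ (1 + t) ^ p := by
    rw [Real.rpow_def_of_pos (by linarith)]
    have h4 := Real.add_one_le_exp (Real.log (1 + t) * p)
    have h5 : p * (t - t ^ 2) ≤ Real.log (1 + t) * p := by
      rw [mul_comm]
      exact mul_le_mul_of_nonneg_right h2 hp0
    linarith
  rw [abs_le]
  constructor
  · have : p * t ^ 2 ≤ t ^ 2 := by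
      have := sq_nonneg t
      nlinarith
    nlinarith
  · have := sq_nonneg t
    linarith

theorem root_lin {p X ρ : ℝ} (hp0 : 0 ≤ p) (hp1 : p ≤ 1) (hX : 1 / 10 ≤ X) (hX1 : X ≤ 1)
    (hρ : 0 ≤ ρ) : |(X + ρ) ^ p - X ^ p * (1 + p * (ρ / X))| ≤ 100 * ρ ^ 2 := by
  have hX0 : 0 < X := by linarith
  have h1 : X + ρ = X * (1 + ρ / X) := by field_simp
  have ht : 0 ≤ ρ / X := by positivity
  have h2 : (X + ρ) ^ p - X ^ p * (1 + p * (ρ / X))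
      = X ^ p * ((1 + ρ / X) ^ p - (1 + p * (ρ / X))) := by
    rw [h1, Real.mul_rpow hX0.le (by linarith)]
    ring
  rw [h2, abs_mul, abs_of_nonneg (by positivity : 0 ≤ X ^ p)]
  have h3 := root_lin0 hp0 hp1 ht
  have h4 : X ^ p ≤ 1 := Real.rpow_le_one hX0.le hX1 hp0
  have h5 : ρ / X ≤ 10 * ρ := by
    rw [div_le_iff₀ hX0]
    nlinarith
  have h6 : (ρ / X) ^ 2 ≤ (10 * ρ) ^ 2 := pow_le_pow_left₀ ht h5 2
  calc X ^ p * |(1 + ρ / X) ^ p - (1 + p * (ρ / X))|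
      ≤ 1 * |(1 + ρ / X) ^ p - (1 + p * (ρ / X))| :=
        mul_le_mul_of_nonneg_right h4 (abs_nonneg _)
    _ ≤ (ρ / X) ^ 2 := by rw [one_mul]; exact h3
    _ ≤ (10 * ρ) ^ 2 := h6
    _ = 100 * ρ ^ 2 := by ring

/-- the reversed expansion in a window -/
theorem rv_window {k b s y0 z : ℕ} (hs : s ≤ b) :
    rv (b + s) ((y0 + 10 ^ b * z) ^ k)
      = rv b (y0 ^ k) + rv s (y0 ^ k / 10 ^ b + k * y0 ^ (k - 1) * z) / 10 ^ b := by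
  obtain ⟨c, hc⟩ := Polynomial.powAddExpansion y0 (10 ^ b * z) k
  have h1 : (y0 + 10 ^ b * z) ^ k ≡ y0 ^ k + 10 ^ b * (k * y0 ^ (k - 1) * z) [MOD 10 ^ (b + s)] := by
    rw [hc, Nat.cast_id]
    have h2 : y0 ^ k + k * y0 ^ (k - 1) * (10 ^ b * z) + c * (10 ^ b * z) ^ 2
        = (y0 ^ k + 10 ^ b * (k * y0 ^ (k - 1) * z)) + 10 ^ (b + s) * (10 ^ (b - s) * c * z ^ 2) := by
      have h3 : (10 : ℕ) ^ (b + s) * 10 ^ (b - s) = 10 ^ b * 10 ^ b := by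
        rw [← pow_add, ← pow_add]
        congr 1
        omega
      calc y0 ^ k + k * y0 ^ (k - 1) * (10 ^ b * z) + c * (10 ^ b * z) ^ 2
          = (y0 ^ k + 10 ^ b * (k * y0 ^ (k - 1) * z)) + (10 ^ b * 10 ^ b) * (c * z ^ 2) := by ring
        _ = _ := by rw [← h3]; ring
    rw [h2]
    unfold Nat.ModEq
    rw [Nat.add_mul_mod_self_left]
  rw [rv_congr h1, rv_add]
  have h4 : y0 ^ k + 10 ^ b * (k * y0 ^ (k - 1) * z) ≡ y0 ^ k [MOD 10 ^ b] := by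
    unfold Nat.ModEq
    rw [Nat.add_mul_mod_self_left]
  rw [rv_congr h4, Nat.add_mul_div_left _ _ (by positivity)]

theorem lin {k L j s d y0 : ℕ} (hk : 1 ≤ k) (hs : 2 * s ≤ j) (hj : 1 ≤ j) (hL : L ≤ k * d)
    (hy0 : ¬ 10 ∣ y0) :
    ∃ c l : ℝ, ∀ z : ℕ, |Fv k L j (y0 + 10 ^ (j - s) * z) -
      (c + z / 10 ^ s - l * rv s (y0 ^ k / 10 ^ (j - s) + k * y0 ^ (k - 1) * z))|
      ≤ 100 * 10 ^ d / (10 ^ (2 * (j - s)) * 10 ^ j) := by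
  obtain ⟨b, hb⟩ : ∃ b, j = b + s := ⟨j - s, by omega⟩
  have hbs : j - s = b := by omega
  rw [hbs]
  have hb1 : 1 ≤ b := by omega
  have hk0 : (0 : ℝ) < k := by exact_mod_cast hk
  have hk1 : (1 : ℝ) ≤ k := by exact_mod_cast hk
  set R := (10 : ℝ) ^ ((L : ℝ) / k) with hR
  have hRle : R ≤ 10 ^ d := R_le hk hL
  have hR0 : 0 < R := Real.rpow_pos_of_pos (by norm_num) _
  set p : ℝ := 1 / k with hp
  have hp0 : 0 ≤ p := by positivity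
  have hp1 : p ≤ 1 := by rw [hp, div_le_one hk0]; exact hk1
  set X := rv b (y0 ^ k) with hX
  have hX0 : 1 / 10 ≤ X := rv_ge hb1 (not_dvd_pow hy0)
  have hX1 : X ≤ 1 := (rv_lt_one _ _).le
  refine ⟨((y0 : ℝ) - R * X ^ p) / 10 ^ j, R * X ^ p * p / X / 10 ^ b / 10 ^ j, fun z => ?_⟩
  set ω := rv s (y0 ^ k / 10 ^ b + k * y0 ^ (k - 1) * z) with hω
  have hω0 : 0 ≤ ω := rv_nonneg _ _
  have hω1 : ω ≤ 1 := (rv_lt_one _ _).le
  have h1 : Fv k L j (y0 + 10 ^ b * z)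
      = ((y0 : ℝ) + 10 ^ b * z - R * (X + ω / 10 ^ b) ^ p) / 10 ^ j := by
    unfold Fv
    rw [hb, rv_window (by omega)]
    push_cast
    rfl
  have h10b : (0 : ℝ) < 10 ^ b := by positivity
  have h10s : (0 : ℝ) < 10 ^ s := by positivity
  have h10j : (10 : ℝ) ^ j = 10 ^ b * 10 ^ s := by rw [hb, pow_add]
  have hXne : X ≠ 0 := by linarith
  have h2 : Fv k L j (y0 + 10 ^ b * z) -
      (((y0 : ℝ) - R * X ^ p) / 10 ^ j + z / 10 ^ s - R * X ^ p * p / X / 10 ^ b / 10 ^ j * ω)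
      = -(R * ((X + ω / 10 ^ b) ^ p - X ^ p * (1 + p * ((ω / 10 ^ b) / X)))) / 10 ^ j := by
    rw [h1, h10j]
    field_simp
    ring
  rw [h2, abs_div, abs_neg, abs_mul, abs_of_pos hR0, abs_of_pos (by positivity : (0 : ℝ) < 10 ^ j)]
  have h3 := root_lin hp0 hp1 hX0 hX1 (by positivity : 0 ≤ ω / 10 ^ b)
  have h4 : (ω / 10 ^ b) ^ 2 ≤ (1 / 10 ^ b) ^ 2 := by
    apply pow_le_pow_left₀ (by positivity)
    exact div_le_div_of_nonneg_right hω1 h10b.le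
  have h5 : R * |(X + ω / 10 ^ b) ^ p - X ^ p * (1 + p * ((ω / 10 ^ b) / X))|
      ≤ 10 ^ d * (100 * (1 / 10 ^ b) ^ 2) := by
    apply mul_le_mul hRle (h3.trans (by linarith)) (abs_nonneg _) (by positivity)
  have h6 : (100 : ℝ) * 10 ^ d / (10 ^ (2 * b) * 10 ^ j) = 10 ^ d * (100 * (1 / 10 ^ b) ^ 2) / 10 ^ j := by
    have : (10 : ℝ) ^ (2 * b) = 10 ^ b * 10 ^ b := by rw [two_mul, pow_add]
    rw [this]
    field_simp
  rw [h6]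
  exact div_le_div_of_nonneg_right h5 (by positivity)

end Pool.Agent.H.MP_40bd32_nt.PS
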