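import Pool.Agent.H.MP_40bd32_nt.PS.Base

set_option autoImplicit false

open Finset

namespace Pool.Agent.H.MP_40bd32_nt.PS

/-! ### M5 Ortho.lean
`φ (W + A z) = ∑_{w<q} φ w (1/q) ∑_{M<q} ee (M (w - W - A z)/q)`, so the left side is
`∑_M (∑_w φ w ee (M w/q)) ee (-M W/q) (1/q) ∑_z ee ((h - M A) z/q)`, and the last factor is `0`
unless `q ∣ h - M A`, when it is `1`.
-/

theorem ee_mul_nat (t : ℝ) (M : ℕ) : ee ((M : ℝ) * t) = ee t ^ M := by
  induction M with
  | zero => simp [ee_zero]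
  | succ M ih =>
    rw [pow_succ, ← ih, ← ee_add]
    congr 1
    push_cast
    ring

theorem ee_eq_one {t : ℝ} (h : ee t = 1) : ∃ n : ℤ, t = n := by
  unfold ee at h
  rw [Complex.exp_eq_one_iff] at h
  obtain ⟨n, hn⟩ := h
  refine ⟨n, ?_⟩
  have h1 : ((2 * Real.pi * t : ℝ) : ℂ) = ((n * (2 * Real.pi) : ℝ) : ℂ) := by
    have h2 : ((2 * Real.pi * t : ℝ) : ℂ) * Complex.I = ((n * (2 * Real.pi) : ℝ) : ℂ) * Complex.I := by
      rw [hn]
      push_cast
      ring
    exact mul_right_cancel₀ Complex.I_ne_zero h2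
  have h3 : 2 * Real.pi * t = n * (2 * Real.pi) := by exact_mod_cast h1
  have h4 : (2 * Real.pi) ≠ 0 := by positivity
  have h5 : 2 * Real.pi * t = 2 * Real.pi * n := by rw [h3]; ring
  exact mul_left_cancel₀ h4 h5

theorem orth_sum (q : ℕ) (hq : 0 < q) (n : ℤ) :
    ∑ M ∈ range q, ee ((M : ℝ) * (n / q)) = if (q : ℤ) ∣ n then (q : ℂ) else 0 := by
  have hq0 : (q : ℝ) ≠ 0 := by exact_mod_cast hq.ne'
  simp only [ee_mul_nat]
  by_cases h : (q : ℤ) ∣ n
  · rw [if_pos h]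
    obtain ⟨c, rfl⟩ := h
    have h1 : (((q : ℤ) * c : ℤ) : ℝ) / q = c := by
      push_cast
      field_simp
    rw [h1, ee_int]
    simp
  · rw [if_neg h]
    have h1 : ee ((n : ℝ) / q) ≠ 1 := by
      intro h2
      obtain ⟨c, hc⟩ := ee_eq_one h2
      apply h
      refine ⟨c, ?_⟩
      rw [div_eq_iff hq0] at hc
      have : (n : ℝ) = ((c * q : ℤ) : ℝ) := by
        push_cast
        exact hc
      have h3 : n = c * q := by exact_mod_cast this
      rw [h3]
      ring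
    have h2 : ee ((n : ℝ) / q) ^ q = 1 := by
      rw [← ee_mul_nat]
      have h3 : (q : ℝ) * ((n : ℝ) / q) = n := by field_simp
      rw [h3, ee_int]
    rw [geom_sum_eq h1, h2, sub_self, zero_div]

theorem ortho (q : ℕ) (hq : 0 < q) (φ : ℕ → ℂ) (hφ : ∀ w, φ (w % q) = φ w) (h W A : ℕ) :
    ‖∑ z ∈ range q, ee ((h : ℝ) * z / q) * φ (W + A * z)‖ ≤
      ∑ M ∈ (range q).filter (fun M => M * A ≡ h [MOD q]),
        ‖∑ w ∈ range q, ee ((M : ℝ) * w / q) * φ w‖ := by
  have hqR : (q : ℝ) ≠ 0 := by exact_mod_cast hq.ne'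
  have hqC : (q : ℂ) ≠ 0 := by exact_mod_cast hq.ne'
  set S : ℕ → ℂ := fun M => ∑ w ∈ range q, ee ((M : ℝ) * w / q) * φ w with hS
  -- Fourier inversion
  have h1 : ∀ u : ℕ, (q : ℂ) * φ u = ∑ M ∈ range q, ee (-((M : ℝ) * u / q)) * S M := by
    intro u
    have h2 : ∀ M ∈ range q, ee (-((M : ℝ) * u / q)) * S M
        = ∑ w ∈ range q, ee ((M : ℝ) * ((((w : ℤ) - (u : ℤ) : ℤ) : ℝ) / q)) * φ w := by
      intro M _
      rw [hS]
      simp only
      rw [Finset.mul_sum]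
      refine Finset.sum_congr rfl fun w _ => ?_
      rw [← mul_assoc, ← ee_add]
      congr 2
      push_cast
      field_simp
      ring
    rw [Finset.sum_congr rfl h2, Finset.sum_comm]
    have h3 : ∀ w ∈ range q, ∑ M ∈ range q, ee ((M : ℝ) * ((((w : ℤ) - (u : ℤ) : ℤ) : ℝ) / q)) * φ w
        = if w = u % q then (q : ℂ) * φ u else 0 := by
      intro w hw
      rw [← Finset.sum_mul, orth_sum q hq]
      have hw' : w < q := Finset.mem_range.1 hw
      by_cases h4 : w = u % q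
      · rw [if_pos h4]
        have h5 : (q : ℤ) ∣ (w : ℤ) - (u : ℤ) := by
          rw [h4]
          have h6 : ((u % q : ℕ) : ℤ) = (u : ℤ) % (q : ℤ) := by simp
          rw [h6]
          exact ⟨-((u : ℤ) / q), by
            have := Int.emod_add_mul_ediv (u : ℤ) (q : ℤ)
            linarith⟩
        rw [if_pos h5, h4, hφ]
      · rw [if_neg h4]
        have h5 : ¬ (q : ℤ) ∣ (w : ℤ) - (u : ℤ) := by
          intro h6
          apply h4
          have h7 : u ≡ w [MOD q] := (Nat.modEq_iff_dvd).2 h6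
          have h8 : u % q = w % q := h7
          rw [h8, Nat.mod_eq_of_lt hw']
        rw [if_neg h5, zero_mul]
    rw [Finset.sum_congr rfl h3, Finset.sum_ite_eq']
    rw [if_pos (Finset.mem_range.2 (Nat.mod_lt _ hq))]
  -- the sum
  have h2 : (q : ℂ) * ∑ z ∈ range q, ee ((h : ℝ) * z / q) * φ (W + A * z)
      = ∑ M ∈ range q, (ee (-((M : ℝ) * W / q)) * S M) *
          ∑ z ∈ range q, ee ((z : ℝ) * ((((h : ℤ) - (M * A : ℕ) : ℤ) : ℝ) / q)) := by
    rw [Finset.mul_sum]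
    have h3 : ∀ z ∈ range q, (q : ℂ) * (ee ((h : ℝ) * z / q) * φ (W + A * z))
        = ∑ M ∈ range q, (ee (-((M : ℝ) * W / q)) * S M) *
            ee ((z : ℝ) * ((((h : ℤ) - (M * A : ℕ) : ℤ) : ℝ) / q)) := by
      intro z _
      have h4 : (q : ℂ) * (ee ((h : ℝ) * z / q) * φ (W + A * z))
          = ee ((h : ℝ) * z / q) * ((q : ℂ) * φ (W + A * z)) := by ring
      rw [h4, h1, Finset.mul_sum]
      refine Finset.sum_congr rfl fun M _ => ?_
      have h5 : ee ((h : ℝ) * z / q) * (ee (-((M : ℝ) * ((W + A * z : ℕ) : ℝ) / q)) * S M)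
          = (ee ((h : ℝ) * z / q) * ee (-((M : ℝ) * ((W + A * z : ℕ) : ℝ) / q))) * S M := by ring
      have h6 : (ee (-((M : ℝ) * W / q)) * S M) *
            ee ((z : ℝ) * ((((h : ℤ) - (M * A : ℕ) : ℤ) : ℝ) / q))
          = (ee (-((M : ℝ) * W / q)) * ee ((z : ℝ) * ((((h : ℤ) - (M * A : ℕ) : ℤ) : ℝ) / q)))
            * S M := by ring
      rw [h5, h6, ← ee_add, ← ee_add]
      congr 2
      push_cast
      field_simp
      ring
    rw [Finset.sum_congr rfl h3, Finset.sum_comm]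
    exact Finset.sum_congr rfl fun M _ => (Finset.mul_sum _ _ _).symm
  have h3 : ∑ z ∈ range q, ee ((h : ℝ) * z / q) * φ (W + A * z)
      = ∑ M ∈ (range q).filter (fun M => M * A ≡ h [MOD q]), ee (-((M : ℝ) * W / q)) * S M := by
    apply mul_left_cancel₀ hqC
    rw [h2, Finset.sum_filter, Finset.mul_sum]
    refine Finset.sum_congr rfl fun M _ => ?_
    rw [orth_sum q hq]
    by_cases h4 : M * A ≡ h [MOD q]
    · rw [if_pos h4, if_pos ((Nat.modEq_iff_dvd).1 h4)]
      ring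
    · rw [if_neg h4, if_neg (fun h5 => h4 ((Nat.modEq_iff_dvd).2 h5))]
      ring
  rw [h3]
  refine (norm_sum_le _ _).trans (Finset.sum_le_sum fun M _ => ?_)
  rw [norm_mul, norm_ee, one_mul]

end Pool.Agent.H.MP_40bd32_nt.PS
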