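import Mathlib

/-!
# Digits: sums over digit strings and counting strings by their digits
-/

namespace PalPS

open Finset

/-- The digit of `a` at place `i` (place `0` is the units place). -/
def dg (i a : ℕ) : ℕ := a / 10 ^ i % 10

theorem dg_lt (i a : ℕ) : dg i a < 10 := Nat.mod_lt _ (by norm_num)

theorem dg_lower (i L a b : ℕ) (h : i < L) : dg i (a * 10 ^ L + b) = dg i b := by
  unfold dg
  obtain ⟨d, rfl⟩ := Nat.exists_eq_add_of_lt h
  have e : a * 10 ^ (i + d + 1) + b = 10 ^ i * (10 * (a * 10 ^ d)) + b := by ring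
  rw [e, Nat.mul_add_div (by positivity), Nat.mul_add_mod]

theorem dg_upper (i L a b : ℕ) (hb : b < 10 ^ L) : dg (L + i) (a * 10 ^ L + b) = dg i a := by
  unfold dg
  rw [pow_add, ← Nat.div_div_eq_div_mul]
  have : (a * 10 ^ L + b) / 10 ^ L = a := by
    rw [mul_comm, Nat.mul_add_div (by positivity), Nat.div_eq_of_lt hb, add_zero]
  rw [this]

/-- Splitting a sum over `range (m * 10)`. -/
theorem sum_split {R : Type*} [AddCommMonoid R] (m k : ℕ) (F : ℕ → R) :
    ∑ u ∈ Finset.range (k * m), F u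
      = ∑ a ∈ Finset.range k, ∑ b ∈ Finset.range m, F (a * m + b) := by
  induction k with
  | zero => simp
  | succ k ih =>
    rw [Finset.sum_range_succ, ← ih, Nat.succ_mul, Finset.sum_range_add]

/-- Sums of products over digit strings factor. -/
theorem sum_prod_dg {R : Type*} [CommSemiring R] (L : ℕ) (f : ℕ → ℕ → R) :
    ∑ u ∈ Finset.range (10 ^ L), ∏ i ∈ Finset.range L, f i (dg i u)
      = ∏ i ∈ Finset.range L, ∑ a ∈ Finset.range 10, f i a := by
  induction L with
  | zero => simp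
  | succ L ih =>
    have e : 10 ^ (L + 1) = 10 * 10 ^ L := by ring
    rw [e, sum_split, Finset.prod_range_succ, ← ih, Finset.sum_mul_sum, Finset.sum_comm]
    apply Finset.sum_congr rfl
    intro b hb
    have hb' := Finset.mem_range.mp hb
    apply Finset.sum_congr rfl
    intro a ha
    have ha' := Finset.mem_range.mp ha
    rw [Finset.prod_range_succ]
    congr 1
    · apply Finset.prod_congr rfl
      intro i hi
      rw [dg_lower i L a b (Finset.mem_range.mp hi)]
    · have h1 := dg_upper 0 L a b hb'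
      rw [add_zero] at h1
      rw [h1]
      unfold dg
      simp [Nat.mod_eq_of_lt ha']

/-- A number below `10^L` is the sum of its digits. -/
theorem sum_dg (L u : ℕ) (hu : u < 10 ^ L) :
    ∑ i ∈ Finset.range L, dg i u * 10 ^ i = u := by
  induction L generalizing u with
  | zero =>
    have : u = 0 := by simpa using hu
    simp [this]
  | succ L ih =>
    have hb : u % 10 ^ L < 10 ^ L := Nat.mod_lt _ (by positivity)
    have e : u = u / 10 ^ L * 10 ^ L + u % 10 ^ L := (Nat.div_add_mod' u (10 ^ L)).symm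
    have hq : u / 10 ^ L < 10 := by
      apply Nat.div_lt_of_lt_mul
      rw [pow_succ] at hu
      exact hu
    rw [Finset.sum_range_succ]
    have h1 : ∑ i ∈ Finset.range L, dg i u * 10 ^ i = u % 10 ^ L := by
      rw [← ih _ hb]
      apply Finset.sum_congr rfl
      intro i hi
      congr 1
      conv_lhs => rw [e]
      rw [dg_lower i L _ _ (Finset.mem_range.mp hi)]
    have h2 : dg L u = u / 10 ^ L := by
      unfold dg
      exact Nat.mod_eq_of_lt hq
    rw [h1, h2]
    omega

/-- The number of places `< L` at which the digit is neither `0` nor `9`. -/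
def nz (L j : ℕ) : ℕ := ((Finset.range L).filter (fun i => dg i j ≠ 0 ∧ dg i j ≠ 9)).card

theorem card_few_nz (L : ℕ) :
    ((Finset.range (10 ^ L)).filter (fun j => 2 * nz L j ≤ L)).card ≤ 8 ^ L := by
  classical
  -- weights `2^{-2 nz}`
  have h1 : ∑ u ∈ Finset.range (10 ^ L), ∏ i ∈ Finset.range L,
      (if dg i u ≠ 0 ∧ dg i u ≠ 9 then (1 / 4 : ℝ) else 1) = 4 ^ L := by
    rw [sum_prod_dg L (fun _ a => if a ≠ 0 ∧ a ≠ 9 then (1 / 4 : ℝ) else 1)]
    rw [Finset.prod_const, Finset.card_range]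
    congr 1
    simp only [Finset.sum_range_succ, Finset.sum_range_zero]
    norm_num
  have h2 : ∀ u, ∏ i ∈ Finset.range L,
      (if dg i u ≠ 0 ∧ dg i u ≠ 9 then (1 / 4 : ℝ) else 1) = (1 / 4 : ℝ) ^ nz L u := by
    intro u
    rw [Finset.prod_ite, Finset.prod_const, Finset.prod_const_one, mul_one]
    rfl
  have h3 : ∀ u ∈ (Finset.range (10 ^ L)).filter (fun j => 2 * nz L j ≤ L),
      (1 / 2 : ℝ) ^ L ≤ ∏ i ∈ Finset.range L,
      (if dg i u ≠ 0 ∧ dg i u ≠ 9 then (1 / 4 : ℝ) else 1) := by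
    intro u hu
    have hu2 := (Finset.mem_filter.mp hu).2
    rw [h2]
    have : (1 / 4 : ℝ) ^ nz L u = (1 / 2 : ℝ) ^ (2 * nz L u) := by
      rw [pow_mul]
      norm_num
    rw [this]
    exact pow_le_pow_of_le_one (by norm_num) (by norm_num) hu2
  have h4 : (((Finset.range (10 ^ L)).filter (fun j => 2 * nz L j ≤ L)).card : ℝ)
      * (1 / 2 : ℝ) ^ L ≤ 4 ^ L := by
    rw [← h1]
    calc (((Finset.range (10 ^ L)).filter (fun j => 2 * nz L j ≤ L)).card : ℝ)
        * (1 / 2 : ℝ) ^ L
        = ∑ u ∈ (Finset.range (10 ^ L)).filter (fun j => 2 * nz L j ≤ L),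
            (1 / 2 : ℝ) ^ L := by rw [Finset.sum_const, nsmul_eq_mul]
      _ ≤ ∑ u ∈ (Finset.range (10 ^ L)).filter (fun j => 2 * nz L j ≤ L),
            ∏ i ∈ Finset.range L,
            (if dg i u ≠ 0 ∧ dg i u ≠ 9 then (1 / 4 : ℝ) else 1) := Finset.sum_le_sum h3
      _ ≤ _ := by
        apply Finset.sum_le_sum_of_subset_of_nonneg (Finset.filter_subset _ _)
        intro u _ _
        rw [h2]
        positivity
  have h5 : (((Finset.range (10 ^ L)).filter (fun j => 2 * nz L j ≤ L)).card : ℝ) ≤ 8 ^ L := by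
    have e : (8 : ℝ) ^ L = 4 ^ L * 2 ^ L := by rw [← mul_pow]; norm_num
    rw [e]
    have h6 : (0 : ℝ) < 2 ^ L := by positivity
    have h7 : (1 / 2 : ℝ) ^ L * 2 ^ L = 1 := by rw [← mul_pow]; norm_num
    calc (((Finset.range (10 ^ L)).filter (fun j => 2 * nz L j ≤ L)).card : ℝ)
        = (((Finset.range (10 ^ L)).filter (fun j => 2 * nz L j ≤ L)).card : ℝ)
          * (1 / 2 : ℝ) ^ L * 2 ^ L := by rw [mul_assoc, h7, mul_one]
      _ ≤ 4 ^ L * 2 ^ L := mul_le_mul_of_nonneg_right h4 h6.le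
  exact_mod_cast h5

end PalPS
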