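import Pool.Agent.H.MP_40bd32_nt.PS.Base
import Pool.Agent.H.MP_40bd32_nt.PS.K2

set_option autoImplicit false

open Finset

namespace Pool.Agent.H.MP_40bd32_nt.PS

/-! ### M6 Weight.lean
`M ↦ 99 M % 10^s` is a bijection of `range (10^s)` (`wt_mod`), and the sum of the weights over all
words is a product over the places: `10 (2 + 8 tau)^(s-1)`; `(2 + 8 tau)/10 = 1 - 1/15125`.
-/

/-- The weight of the digit `d` at the place `i`. -/
noncomputable def wf (i d : ℕ) : ℝ := if i = 0 then 1 else (if 1 ≤ d ∧ d ≤ 8 then tau else 1)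

theorem sum_wt_all (s : ℕ) (hs : 1 ≤ s) :
    ∑ v ∈ range (10 ^ s), wt s v = 10 ^ s * (1 - 1 / 15125 : ℝ) ^ (s - 1) := by
  obtain ⟨a, rfl⟩ : ∃ a, s = a + 1 := ⟨s - 1, by omega⟩
  have h1 : ∀ v, wt (a + 1) v = ∏ i ∈ range (a + 1), wf i (PalPS.dg i v) := by
    intro v
    rw [Finset.prod_range_succ']
    unfold wt PalPS.dg wf
    simp
  rw [Finset.sum_congr rfl (fun v _ => h1 v), PalPS.sum_prod_dg (a + 1) wf,
    Finset.prod_range_succ']
  have h3 : ∀ i ∈ range a, ∑ d ∈ range 10, wf (i + 1) d = 10 * (1 - 1 / 15125) := by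
    intro i _
    unfold wf
    simp only [Finset.sum_range_succ, Finset.sum_range_zero]
    norm_num [tau]
  have h4 : ∑ d ∈ range 10, wf 0 d = 10 := by
    unfold wf
    simp
  rw [Finset.prod_congr rfl h3, Finset.prod_const, Finset.card_range, h4, mul_pow, pow_succ]
  simp only [Nat.add_sub_cancel]
  ring

theorem sum_wt (s : ℕ) (hs : 1 ≤ s) :
    ∑ M ∈ range (10 ^ s), wt s (99 * M) ≤ 10 ^ s * (1 - 1 / 15125 : ℝ) ^ (s - 1) := by
  rw [← sum_wt_all s hs]
  have h1 : ∑ M ∈ range (10 ^ s), wt s (99 * M) = ∑ v ∈ range (10 ^ s), wt s v := by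
    have hcop : Nat.Coprime (10 ^ s) 99 := Nat.Coprime.pow_left s (by norm_num)
    have hinj : Set.InjOn (fun M => 99 * M % 10 ^ s) (range (10 ^ s) : Set ℕ) := by
      intro x hx y hy hxy
      have hx' : x < 10 ^ s := by simpa using hx
      have hy' : y < 10 ^ s := by simpa using hy
      have h : 99 * x ≡ 99 * y [MOD 10 ^ s] := hxy
      have h' := Nat.ModEq.cancel_left_of_coprime hcop h
      exact Nat.ModEq.eq_of_lt_of_lt h' hx' hy'
    have hmap : ∀ M ∈ range (10 ^ s), (fun M => 99 * M % 10 ^ s) M ∈ range (10 ^ s) := by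
      intro M _
      exact Finset.mem_range.mpr (Nat.mod_lt _ (by positivity))
    have himg : (range (10 ^ s)).image (fun M => 99 * M % 10 ^ s) = range (10 ^ s) := by
      apply Finset.eq_of_subset_of_card_le
      · intro v hv
        obtain ⟨M, hM, rfl⟩ := Finset.mem_image.mp hv
        exact hmap M hM
      · rw [Finset.card_image_of_injOn hinj]
    conv_rhs => rw [← himg]
    rw [Finset.sum_image (fun x hx y hy h => hinj (by simpa using hx) (by simpa using hy) h)]
    apply Finset.sum_congr rfl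
    intro M _
    rw [wt_mod]
  exact h1.le

end Pool.Agent.H.MP_40bd32_nt.PS
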