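import Pool.Agent.H.MP_40bd32_nt.PS.Kernel
import Pool.Agent.H.MP_40bd32_nt.PS.Ortho
import Pool.Agent.H.MP_40bd32_nt.PS.Weight
import Pool.Agent.H.MP_40bd32_nt.PS.Fibre
import Pool.Agent.H.MP_40bd32_nt.PS.Lin

set_option autoImplicit false

open Finset

namespace Pool.Agent.H.MP_40bd32_nt.PS

/-! ### M9 Expo.lean : the exponential sum
`y = y0 + 10^(j-s) z`, `y0 < 10^(j-s)`, `z < 10^s`; the conditions on `y` are conditions on `y0`.
`lin`, `ee_lip`, `ortho` with `q = 10^s`, `φ w = ee (-(h l) rv s w)`, `SS_bound`, then exchange the sums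
over `y0` and `M`, `fibre` with `n = k - 1`, `M * k` in place of `M`, `sum_wt`.
-/

theorem sum_split {β : Type*} [AddCommMonoid β] (g : ℕ → β) (B n : ℕ) :
    ∑ y ∈ range (B * n), g y = ∑ y0 ∈ range B, ∑ z ∈ range n, g (y0 + B * z) := by
  rw [Finset.sum_comm]
  induction n with
  | zero => simp
  | succ n ih =>
    rw [Nat.mul_succ, Finset.sum_range_add, ih, Finset.sum_range_succ]
    congr 1
    exact Finset.sum_congr rfl fun i _ => by rw [add_comm]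

/-- one window -/
theorem window {k L j s d y0 h : ℕ} (hk : 1 ≤ k) (hs : 2 * s ≤ j) (hj : 1 ≤ j) (hL : L ≤ k * d)
    (hy0 : ¬ 10 ∣ y0) :
    ‖∑ z ∈ range (10 ^ s), ee (h * Fv k L j (y0 + 10 ^ (j - s) * z))‖ ≤
      (∑ M ∈ (range (10 ^ s)).filter (fun M => M * (k * y0 ^ (k - 1)) ≡ h [MOD 10 ^ s]),
        10 ^ s * wt s (99 * M))
      + 10 ^ s * (2 * Real.pi * (h * (100 * 10 ^ d / (10 ^ (2 * (j - s)) * 10 ^ j)))) := by
  obtain ⟨c, l, hcl⟩ := lin hk hs hj hL hy0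
  set W := y0 ^ k / 10 ^ (j - s) with hW
  set A := k * y0 ^ (k - 1) with hA
  set err : ℝ := 100 * 10 ^ d / (10 ^ (2 * (j - s)) * 10 ^ j) with herr
  set φ : ℕ → ℂ := fun w => ee (-((h * l) * rv s w)) with hφ
  have hφ1 : ∀ w, φ (w % 10 ^ s) = φ w := by
    intro w
    simp only [hφ]
    rw [rv_mod]
  have hmain := ortho (10 ^ s) (by positivity) φ hφ1 h W A
  have hb : ∀ M : ℕ, ‖∑ w ∈ range (10 ^ s), ee ((M : ℝ) * w / ((10 ^ s : ℕ) : ℝ)) * φ w‖
      ≤ 10 ^ s * wt s (99 * M) := by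
    intro M
    refine le_trans (le_of_eq ?_) (SS_bound s M (h * l))
    unfold SS
    congr 1
    refine Finset.sum_congr rfl fun w _ => ?_
    simp only [hφ]
    rw [← ee_add]
    congr 1
    push_cast
    ring
  have h1 : ‖∑ z ∈ range (10 ^ s), ee ((h : ℝ) * z / ((10 ^ s : ℕ) : ℝ)) * φ (W + A * z)‖
      ≤ ∑ M ∈ (range (10 ^ s)).filter (fun M => M * A ≡ h [MOD 10 ^ s]), 10 ^ s * wt s (99 * M) :=
    hmain.trans (Finset.sum_le_sum fun M _ => hb M)
  have h2 : ∑ z ∈ range (10 ^ s), ee (h * (c + z / 10 ^ s - l * rv s (W + A * z)))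
      = ee (h * c) * ∑ z ∈ range (10 ^ s), ee ((h : ℝ) * z / ((10 ^ s : ℕ) : ℝ)) * φ (W + A * z) := by
    rw [Finset.mul_sum]
    refine Finset.sum_congr rfl fun z _ => ?_
    simp only [hφ]
    rw [← ee_add, ← ee_add]
    congr 1
    push_cast
    ring
  have h3 : ‖∑ z ∈ range (10 ^ s), ee (h * (c + z / 10 ^ s - l * rv s (W + A * z)))‖
      ≤ ∑ M ∈ (range (10 ^ s)).filter (fun M => M * A ≡ h [MOD 10 ^ s]), 10 ^ s * wt s (99 * M) := by
    rw [h2, norm_mul, norm_ee, one_mul]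
    exact h1
  have h4 : ‖∑ z ∈ range (10 ^ s), ee (h * Fv k L j (y0 + 10 ^ (j - s) * z))
      - ∑ z ∈ range (10 ^ s), ee (h * (c + z / 10 ^ s - l * rv s (W + A * z)))‖
      ≤ 10 ^ s * (2 * Real.pi * (h * err)) := by
    rw [← Finset.sum_sub_distrib]
    refine (norm_sum_le _ _).trans ?_
    have h5 : ∀ z ∈ range (10 ^ s), ‖ee (h * Fv k L j (y0 + 10 ^ (j - s) * z))
        - ee (h * (c + z / 10 ^ s - l * rv s (W + A * z)))‖ ≤ 2 * Real.pi * (h * err) := by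
      intro z _
      refine (ee_lip _ _).trans ?_
      rw [← mul_sub, abs_mul, abs_of_nonneg (by positivity : (0 : ℝ) ≤ h)]
      have h6 := hcl z
      exact mul_le_mul_of_nonneg_left (mul_le_mul_of_nonneg_left h6 (by positivity)) (by positivity)
    refine (Finset.sum_le_sum h5).trans ?_
    rw [Finset.sum_const, Finset.card_range, nsmul_eq_mul]
    push_cast
    exact le_rfl
  have h5 := norm_add_le
    (∑ z ∈ range (10 ^ s), ee (h * Fv k L j (y0 + 10 ^ (j - s) * z))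
      - ∑ z ∈ range (10 ^ s), ee (h * (c + z / 10 ^ s - l * rv s (W + A * z))))
    (∑ z ∈ range (10 ^ s), ee (h * (c + z / 10 ^ s - l * rv s (W + A * z))))
  rw [sub_add_cancel] at h5
  linarith

theorem expo {k L j s d r h : ℕ} (hk : 2 ≤ k) (hL : L ≤ k * d) (hs1 : 1 ≤ s) (hs : 2 * s ≤ j)
    (hr : r + 1 ≤ j - s) (hh : 1 ≤ h) :
    ‖∑ y ∈ (range (10 ^ j)).filter (fun y => ¬ 10 ∣ y ∧ ¬ 2 ^ (r + 1) ∣ y ∧ ¬ 5 ^ (r + 1) ∣ y),
        ee (h * Fv k L j y)‖ ≤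
      10 ^ (2 * s) * (1 - 1 / 15125 : ℝ) ^ (s - 1) * (10 ^ ((k - 1) * (r + 1)) *
        (10 ^ (j - s) * h * 10 ^ ((k - 1) * (r + 1)) / 10 ^ s + 1))
      + 700 * h * 10 ^ d / 10 ^ (2 * (j - s)) := by
  set b := j - s with hb
  have hjb : j = b + s := by omega
  have h10j : (10 : ℕ) ^ j = 10 ^ b * 10 ^ s := by rw [hjb, pow_add]
  set Y0 := (range (10 ^ b)).filter (fun y => ¬ 10 ∣ y ∧ ¬ 2 ^ (r + 1) ∣ y ∧ ¬ 5 ^ (r + 1) ∣ y)
    with hY0
  -- splitting
  have hcond : ∀ y0 z : ℕ, (¬ 10 ∣ y0 + 10 ^ b * z ∧ ¬ 2 ^ (r + 1) ∣ y0 + 10 ^ b * z ∧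
      ¬ 5 ^ (r + 1) ∣ y0 + 10 ^ b * z) ↔ (¬ 10 ∣ y0 ∧ ¬ 2 ^ (r + 1) ∣ y0 ∧ ¬ 5 ^ (r + 1) ∣ y0) := by
    intro y0 z
    have e1 : 10 ∣ 10 ^ b * z := (dvd_pow_self 10 (by omega)).mul_right z
    have e2 : 2 ^ (r + 1) ∣ 10 ^ b * z :=
      ((pow_dvd_pow 2 hr).trans (pow_dvd_pow_of_dvd (by norm_num) b)).mul_right z
    have e3 : 5 ^ (r + 1) ∣ 10 ^ b * z :=
      ((pow_dvd_pow 5 hr).trans (pow_dvd_pow_of_dvd (by norm_num) b)).mul_right z
    rw [← Nat.dvd_add_iff_left e1, ← Nat.dvd_add_iff_left e2, ← Nat.dvd_add_iff_left e3]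
  have hsplit : ∑ y ∈ (range (10 ^ j)).filter
        (fun y => ¬ 10 ∣ y ∧ ¬ 2 ^ (r + 1) ∣ y ∧ ¬ 5 ^ (r + 1) ∣ y), ee (h * Fv k L j y)
      = ∑ y0 ∈ Y0, ∑ z ∈ range (10 ^ s), ee (h * Fv k L j (y0 + 10 ^ b * z)) := by
    rw [Finset.sum_filter, h10j, sum_split, hY0, Finset.sum_filter]
    refine Finset.sum_congr rfl fun y0 _ => ?_
    by_cases hc : (¬ 10 ∣ y0 ∧ ¬ 2 ^ (r + 1) ∣ y0 ∧ ¬ 5 ^ (r + 1) ∣ y0)
    · rw [if_pos hc]
      refine Finset.sum_congr rfl fun z _ => ?_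
      rw [if_pos ((hcond y0 z).2 hc)]
    · rw [if_neg hc]
      refine Finset.sum_eq_zero fun z _ => ?_
      rw [if_neg (fun h => hc ((hcond y0 z).1 h))]
  rw [hsplit]
  refine (norm_sum_le _ _).trans ?_
  set err : ℝ := 10 ^ s * (2 * Real.pi * (h * (100 * 10 ^ d / (10 ^ (2 * b) * 10 ^ j)))) with herr
  have h1 : ∀ y0 ∈ Y0, ‖∑ z ∈ range (10 ^ s), ee (h * Fv k L j (y0 + 10 ^ b * z))‖ ≤
      (∑ M ∈ (range (10 ^ s)).filter (fun M => M * (k * y0 ^ (k - 1)) ≡ h [MOD 10 ^ s]),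
        10 ^ s * wt s (99 * M)) + err := by
    intro y0 hy0
    have h2 := (Finset.mem_filter.1 hy0).2.1
    exact window (by omega) hs (by omega) hL h2
  refine (Finset.sum_le_sum h1).trans ?_
  rw [Finset.sum_add_distrib, Finset.sum_const, nsmul_eq_mul]
  apply add_le_add
  · -- the main term
    have h2 : ∑ y0 ∈ Y0, ∑ M ∈ (range (10 ^ s)).filter
          (fun M => M * (k * y0 ^ (k - 1)) ≡ h [MOD 10 ^ s]), (10 : ℝ) ^ s * wt s (99 * M)
        = ∑ M ∈ range (10 ^ s), ((Y0.filter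
            (fun y0 => M * (k * y0 ^ (k - 1)) ≡ h [MOD 10 ^ s])).card : ℝ)
              * (10 ^ s * wt s (99 * M)) := by
      simp only [Finset.sum_filter]
      rw [Finset.sum_comm]
      refine Finset.sum_congr rfl fun M _ => ?_
      rw [← Finset.sum_filter, Finset.sum_const, nsmul_eq_mul]
    rw [h2]
    have h3 : ∀ M ∈ range (10 ^ s), ((Y0.filter
            (fun y0 => M * (k * y0 ^ (k - 1)) ≡ h [MOD 10 ^ s])).card : ℝ)
              * (10 ^ s * wt s (99 * M))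
        ≤ (10 ^ ((k - 1) * (r + 1)) * (10 ^ b * h * 10 ^ ((k - 1) * (r + 1)) / 10 ^ s + 1))
              * (10 ^ s * wt s (99 * M)) := by
      intro M _
      apply mul_le_mul_of_nonneg_right _ (mul_nonneg (by positivity) (wt_nonneg _ _))
      have h4 := fibre (k - 1) r s (10 ^ b) (M * k) h (by omega) hh
      refine le_trans ?_ (le_trans h4 ?_)
      · have h5 : (Y0.filter (fun y0 => M * (k * y0 ^ (k - 1)) ≡ h [MOD 10 ^ s])).card ≤
            ((range (10 ^ b)).filter (fun y => ¬ 2 ^ (r + 1) ∣ y ∧ ¬ 5 ^ (r + 1) ∣ y ∧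
              M * k * y ^ (k - 1) ≡ h [MOD 10 ^ s])).card := by
          apply Finset.card_le_card
          intro y hy
          rw [Finset.mem_filter, hY0, Finset.mem_filter] at hy
          rw [Finset.mem_filter]
          refine ⟨hy.1.1, hy.1.2.2.1, hy.1.2.2.2, ?_⟩
          rw [mul_assoc]
          exact hy.2
        exact_mod_cast h5
      · push_cast
        exact le_rfl
    refine (Finset.sum_le_sum h3).trans ?_
    rw [← Finset.mul_sum, ← Finset.mul_sum]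
    have h4 := sum_wt s hs1
    have h5 : (0 : ℝ) ≤ 10 ^ ((k - 1) * (r + 1))
        * (10 ^ b * h * 10 ^ ((k - 1) * (r + 1)) / 10 ^ s + 1) := by positivity
    calc (10 ^ ((k - 1) * (r + 1)) * (10 ^ b * h * 10 ^ ((k - 1) * (r + 1)) / 10 ^ s + 1))
          * (10 ^ s * ∑ M ∈ range (10 ^ s), wt s (99 * M))
        ≤ (10 ^ ((k - 1) * (r + 1)) * (10 ^ b * h * 10 ^ ((k - 1) * (r + 1)) / 10 ^ s + 1))
          * (10 ^ s * (10 ^ s * (1 - 1 / 15125 : ℝ) ^ (s - 1))) :=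
          mul_le_mul_of_nonneg_left (mul_le_mul_of_nonneg_left h4 (by positivity)) h5
      _ = 10 ^ (2 * s) * (1 - 1 / 15125 : ℝ) ^ (s - 1) * (10 ^ ((k - 1) * (r + 1)) *
        (10 ^ b * h * 10 ^ ((k - 1) * (r + 1)) / 10 ^ s + 1)) := by
          rw [two_mul, pow_add]
          ring
  · -- the error term
    have h2 : (Y0.card : ℝ) ≤ 10 ^ b := by
      have h3 : Y0.card ≤ 10 ^ b := by
        rw [hY0]
        refine (Finset.card_filter_le _ _).trans ?_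
        rw [Finset.card_range]
      exact_mod_cast h3
    have h3 : 0 ≤ err := by
      rw [herr]
      positivity
    refine (mul_le_mul_of_nonneg_right h2 h3).trans ?_
    have h4 : (10 : ℝ) ^ b * err = (200 * Real.pi) * (h * 10 ^ d) / 10 ^ (2 * b) := by
      rw [herr, hjb, pow_add (10 : ℝ) b s]
      have e1 : (10 : ℝ) ^ b ≠ 0 := by positivity
      have e2 : (10 : ℝ) ^ s ≠ 0 := by positivity
      have e3 : (10 : ℝ) ^ (2 * b) ≠ 0 := by positivity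
      field_simp
      ring
    rw [h4]
    have h5 : 200 * Real.pi ≤ 700 := by
      have := Real.pi_lt_d2
      linarith
    apply div_le_div_of_nonneg_right _ (by positivity)
    calc 200 * Real.pi * (h * 10 ^ d) ≤ 700 * (h * 10 ^ d) :=
          mul_le_mul_of_nonneg_right h5 (by positivity)
      _ = 700 * h * 10 ^ d := by ring

end Pool.Agent.H.MP_40bd32_nt.PS
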