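import Pool.Agent.H.MP_40bd32_nt.PS.Base

set_option autoImplicit false

open Finset

namespace Pool.Agent.H.MP_40bd32_nt.PS

/-! ### M3 Major.lean
For a good `y`, `Re ∑_{h<H} ee (h F y) ≥ H √2 / 2`, so
`‖∑_{h<H} ee (h F y)‖^2 ≥ H^2/2`.  `∑_y ‖∑_h ee (h F y)‖^2 = ∑_{h1,h2} ∑_y ee ((h1-h2) F y)
≤ H |Y| + H^2 E` (for `h1 < h2` use `ee_neg`, the norm of the conjugate).
-/

theorem ee_re (x : ℝ) : (ee x).re = Real.cos (2 * Real.pi * x) := by
  unfold ee
  rw [Complex.exp_ofReal_mul_I_re]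

/-- The counting lemma: few points can have `y` close to integers if all exponential sums with
small frequencies are small. -/
theorem count_close {ι : Type*} (U B : Finset ι) (hBU : B ⊆ U) (y : ι → ℝ) (M : ℕ) (ε : ℝ)
    (hε : 8 * M * ε ≤ 1) (hy : ∀ u ∈ B, ∃ n : ℤ, |y u - n| ≤ ε) :
    (B.card : ℝ) * ((M : ℝ) ^ 2 / 2)
      ≤ ∑ j ∈ Finset.range M, ∑ j' ∈ Finset.range M,
          ‖∑ u ∈ U, ee (((j : ℝ) - j') * y u)‖ := by
  classical
  -- pointwise lower bound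
  have hlow : ∀ u ∈ B, (M : ℝ) ^ 2 / 2 ≤ ‖∑ j ∈ Finset.range M, ee ((j : ℝ) * y u)‖ ^ 2 := by
    intro u hu
    obtain ⟨n, hn⟩ := hy u hu
    have hre : ∀ j ∈ Finset.range M, Real.sqrt 2 / 2 ≤ (ee ((j : ℝ) * y u)).re := by
      intro j hj
      have hjM : (j : ℝ) ≤ M := by exact_mod_cast (Finset.mem_range.mp hj).le
      have hj0 : (0 : ℝ) ≤ j := Nat.cast_nonneg j
      have e1 : (j : ℝ) * y u = (j : ℝ) * (y u - n) + ((j * n : ℤ) : ℝ) := by
        push_cast; ring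
      rw [e1, ee_add_int, ee_re]
      have habs : |2 * Real.pi * ((j : ℝ) * (y u - n))| ≤ Real.pi / 4 := by
        rw [abs_mul (2 * Real.pi), abs_mul (j : ℝ), abs_of_nonneg hj0,
          abs_of_pos (by positivity : (0 : ℝ) < 2 * Real.pi)]
        have hε0 : 0 ≤ ε := le_trans (abs_nonneg _) hn
        have h1 : (j : ℝ) * |y u - n| ≤ M * ε :=
          mul_le_mul hjM hn (abs_nonneg _) (le_trans hj0 hjM)
        have := Real.pi_pos
        nlinarith
      rw [← Real.cos_abs, ← Real.cos_pi_div_four]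
      apply Real.cos_le_cos_of_nonneg_of_le_pi (abs_nonneg _) _ habs
      have := Real.pi_pos
      linarith
    have hsum : (M : ℝ) * (Real.sqrt 2 / 2) ≤ (∑ j ∈ Finset.range M, ee ((j : ℝ) * y u)).re := by
      rw [Complex.re_sum]
      calc (M : ℝ) * (Real.sqrt 2 / 2) = ∑ j ∈ Finset.range M, Real.sqrt 2 / 2 := by
            rw [Finset.sum_const, Finset.card_range, nsmul_eq_mul]
        _ ≤ _ := Finset.sum_le_sum hre
    have hnorm : (M : ℝ) * (Real.sqrt 2 / 2) ≤ ‖∑ j ∈ Finset.range M, ee ((j : ℝ) * y u)‖ :=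
      le_trans hsum (Complex.re_le_norm _)
    have hsq : ((M : ℝ) * (Real.sqrt 2 / 2)) ^ 2 = (M : ℝ) ^ 2 / 2 := by
      have : Real.sqrt 2 ^ 2 = 2 := Real.sq_sqrt (by norm_num)
      rw [mul_pow, div_pow, this]
      ring
    rw [← hsq]
    exact pow_le_pow_left₀ (by positivity) hnorm 2
  have hexp : ∀ u, ((‖∑ j ∈ Finset.range M, ee ((j : ℝ) * y u)‖ ^ 2 : ℝ) : ℂ)
      = ∑ j ∈ Finset.range M, ∑ j' ∈ Finset.range M, ee (((j : ℝ) - j') * y u) := by
    intro u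
    rw [← Complex.normSq_eq_norm_sq, ← Complex.mul_conj, map_sum, Finset.sum_mul_sum]
    apply Finset.sum_congr rfl
    intro j _
    apply Finset.sum_congr rfl
    intro j' _
    rw [← ee_neg, ← ee_add]
    congr 1
    ring
  have hU : (B.card : ℝ) * ((M : ℝ) ^ 2 / 2)
      ≤ ∑ u ∈ U, ‖∑ j ∈ Finset.range M, ee ((j : ℝ) * y u)‖ ^ 2 := by
    calc (B.card : ℝ) * ((M : ℝ) ^ 2 / 2) = ∑ u ∈ B, (M : ℝ) ^ 2 / 2 := by
          rw [Finset.sum_const, nsmul_eq_mul]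
      _ ≤ ∑ u ∈ B, ‖∑ j ∈ Finset.range M, ee ((j : ℝ) * y u)‖ ^ 2 := Finset.sum_le_sum hlow
      _ ≤ _ := Finset.sum_le_sum_of_subset_of_nonneg hBU (fun _ _ _ => by positivity)
  refine le_trans hU ?_
  have hreal : ((∑ u ∈ U, ‖∑ j ∈ Finset.range M, ee ((j : ℝ) * y u)‖ ^ 2 : ℝ) : ℂ)
      = ∑ j ∈ Finset.range M, ∑ j' ∈ Finset.range M,
          ∑ u ∈ U, ee (((j : ℝ) - j') * y u) := by
    rw [Complex.ofReal_sum]
    rw [Finset.sum_congr rfl (fun u _ => hexp u)]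
    rw [Finset.sum_comm]
    apply Finset.sum_congr rfl
    intro j _
    rw [Finset.sum_comm]
  have hnn : 0 ≤ ∑ u ∈ U, ‖∑ j ∈ Finset.range M, ee ((j : ℝ) * y u)‖ ^ 2 :=
    Finset.sum_nonneg (fun _ _ => by positivity)
  calc ∑ u ∈ U, ‖∑ j ∈ Finset.range M, ee ((j : ℝ) * y u)‖ ^ 2
      = ‖((∑ u ∈ U, ‖∑ j ∈ Finset.range M, ee ((j : ℝ) * y u)‖ ^ 2 : ℝ) : ℂ)‖ := by
        rw [Complex.norm_real, Real.norm_of_nonneg hnn]
    _ = ‖∑ j ∈ Finset.range M, ∑ j' ∈ Finset.range M,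
          ∑ u ∈ U, ee (((j : ℝ) - j') * y u)‖ := by rw [hreal]
    _ ≤ ∑ j ∈ Finset.range M, ‖∑ j' ∈ Finset.range M,
          ∑ u ∈ U, ee (((j : ℝ) - j') * y u)‖ := norm_sum_le _ _
    _ ≤ _ := Finset.sum_le_sum (fun _ _ => norm_sum_le _ _)

open Classical in
theorem majorant {ι : Type*} (Y : Finset ι) (F : ι → ℝ) (H : ℕ) (hH : 1 ≤ H) (E : ℝ) (hE0 : 0 ≤ E)
    (hE : ∀ h : ℕ, 1 ≤ h → h < H → ‖∑ y ∈ Y, ee (h * F y)‖ ≤ E) :
    ((Y.filter (fun y => ∃ z : ℤ, |F y - z| ≤ 1 / (10 * (H : ℝ)))).card : ℝ)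
      ≤ 2 * ((Y.card : ℝ) / H + E) := by
  have hH' : (1 : ℝ) ≤ H := by exact_mod_cast hH
  have hH0 : (0 : ℝ) < H := by linarith
  have h1 := count_close Y (Y.filter (fun y => ∃ z : ℤ, |F y - z| ≤ 1 / (10 * (H : ℝ))))
    (Finset.filter_subset _ _) F H (1 / (10 * (H : ℝ)))
    (by
      have : 8 * (H : ℝ) * (1 / (10 * (H : ℝ))) = 8 / 10 := by field_simp
      rw [this]
      norm_num)
    (fun u hu => (Finset.mem_filter.mp hu).2)
  have hterm : ∀ j ∈ Finset.range H, ∀ j' ∈ Finset.range H,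
      ‖∑ u ∈ Y, ee (((j : ℝ) - j') * F u)‖ ≤ (if j = j' then (Y.card : ℝ) else 0) + E := by
    intro j hj j' hj'
    have hjH := Finset.mem_range.mp hj
    have hjH' := Finset.mem_range.mp hj'
    rcases lt_trichotomy j j' with h | h | h
    · have e : ∀ u, ee (((j : ℝ) - j') * F u) = (starRingEnd ℂ) (ee (((j' - j : ℕ) : ℝ) * F u)) := by
        intro u
        rw [← ee_neg]
        congr 1
        rw [Nat.cast_sub h.le]
        ring
      rw [Finset.sum_congr rfl (fun u _ => e u), ← map_sum, Complex.norm_conj]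
      rw [if_neg (by omega), zero_add]
      exact hE _ (by omega) (by omega)
    · subst h
      rw [if_pos rfl]
      have : ‖∑ u ∈ Y, ee (((j : ℝ) - j) * F u)‖ ≤ (Y.card : ℝ) := by
        refine le_trans (norm_sum_le _ _) ?_
        simp [norm_ee]
      linarith
    · have e : ∀ u, ee (((j : ℝ) - j') * F u) = ee (((j - j' : ℕ) : ℝ) * F u) := by
        intro u
        rw [Nat.cast_sub h.le]
      rw [Finset.sum_congr rfl (fun u _ => e u)]
      rw [if_neg (by omega), zero_add]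
      exact hE _ (by omega) (by omega)
  have h2 : ∑ j ∈ Finset.range H, ∑ j' ∈ Finset.range H,
      ‖∑ u ∈ Y, ee (((j : ℝ) - j') * F u)‖ ≤ H * Y.card + (H : ℝ) ^ 2 * E := by
    calc ∑ j ∈ Finset.range H, ∑ j' ∈ Finset.range H, ‖∑ u ∈ Y, ee (((j : ℝ) - j') * F u)‖
        ≤ ∑ j ∈ Finset.range H, ∑ j' ∈ Finset.range H,
            ((if j = j' then (Y.card : ℝ) else 0) + E) :=
          Finset.sum_le_sum (fun j hj => Finset.sum_le_sum (fun j' hj' => hterm j hj j' hj'))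
      _ = ∑ j ∈ Finset.range H, ((Y.card : ℝ) + H * E) := by
          apply Finset.sum_congr rfl
          intro j hj
          rw [Finset.sum_add_distrib, Finset.sum_ite_eq, if_pos hj, Finset.sum_const,
            Finset.card_range, nsmul_eq_mul]
      _ = H * Y.card + (H : ℝ) ^ 2 * E := by
          rw [Finset.sum_const, Finset.card_range, nsmul_eq_mul]
          ring
  have h3 := le_trans h1 h2
  set c : ℝ := ((Y.filter (fun y => ∃ z : ℤ, |F y - z| ≤ 1 / (10 * (H : ℝ)))).card : ℝ) with hc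
  have h4 : (2 * ((Y.card : ℝ) / H + E)) * ((H : ℝ) ^ 2 / 2) = H * Y.card + (H : ℝ) ^ 2 * E := by
    field_simp
  rw [← h4] at h3
  exact le_of_mul_le_mul_right h3 (by positivity)

end Pool.Agent.H.MP_40bd32_nt.PS
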