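import Pool.Agent.H.MP_40bd32_nt.PS.Close
import Pool.Agent.H.MP_40bd32_nt.PS.Bad
import Pool.Agent.H.MP_40bd32_nt.PS.Major
import Pool.Agent.H.MP_40bd32_nt.PS.Expo

set_option autoImplicit false

open Finset N4baffcff

namespace Pool.Agent.H.MP_40bd32_nt.PS

/-! ### M10 Block.lean : the count for one number of digits
`count_le`, `majorant` with `H = 10^e` (`1/(10 H) = 10^(d+1)/10^(2j)`), `expo` (with `h ≤ 10^e`), `bad` twice.
-/

open Classical in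
theorem block_good {k L j s d r e : ℕ} (hk : 2 ≤ k) (hL : L ≤ k * d) (hjL : j ≤ L) (hs1 : 1 ≤ s)
    (hs : 2 * s ≤ j) (hr : r + 1 ≤ j - s) (he : 2 * j = d + 2 + e) :
    (((range (10 ^ d)).filter (fun x => (1 ≤ x ∧ IsDecimalPalindrome (x ^ k) ∧
        (Nat.digits 10 (x ^ k)).length = L) ∧ ¬ 2 ^ (r + 1) ∣ x ∧ ¬ 5 ^ (r + 1) ∣ x)).card : ℝ) ≤
      2 * (10 ^ j / 10 ^ e
        + (10 ^ (2 * s) * (1 - 1 / 15125 : ℝ) ^ (s - 1) * (10 ^ ((k - 1) * (r + 1)) *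
            (10 ^ (j - s) * 10 ^ e * 10 ^ ((k - 1) * (r + 1)) / 10 ^ s + 1))
          + 700 * 10 ^ e * 10 ^ d / 10 ^ (2 * (j - s)))) := by
  have h1 := count_le (k := k) (j := j) (d := d) (L := L) (r := r) (by omega) (by omega) hjL (by omega)
  set Y := (range (10 ^ j)).filter (fun y => ¬ 10 ∣ y ∧ ¬ 2 ^ (r + 1) ∣ y ∧ ¬ 5 ^ (r + 1) ∣ y) with hY
  set E : ℝ := 10 ^ (2 * s) * (1 - 1 / 15125 : ℝ) ^ (s - 1) * (10 ^ ((k - 1) * (r + 1)) *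
            (10 ^ (j - s) * 10 ^ e * 10 ^ ((k - 1) * (r + 1)) / 10 ^ s + 1))
          + 700 * 10 ^ e * 10 ^ d / 10 ^ (2 * (j - s)) with hE
  have hρ : (0 : ℝ) ≤ (1 - 1 / 15125 : ℝ) ^ (s - 1) := by positivity
  have hE0 : 0 ≤ E := by
    rw [hE]
    positivity
  have hEh : ∀ h : ℕ, 1 ≤ h → h < 10 ^ e → ‖∑ y ∈ Y, ee (h * Fv k L j y)‖ ≤ E := by
    intro h hh1 hh2
    refine (expo (r := r) hk hL hs1 hs hr hh1).trans ?_
    have hh3 : (h : ℝ) ≤ 10 ^ e := by exact_mod_cast hh2.le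
    rw [hE]
    gcongr
  have h2 := majorant Y (Fv k L j) (10 ^ e) (Nat.one_le_pow _ _ (by norm_num)) E hE0 hEh
  have h3 : ((Y.filter (fun y => ∃ z : ℤ, |Fv k L j y - z| ≤ 10 ^ (d + 1) / (10 : ℝ) ^ (2 * j))).card : ℝ)
      ≤ ((Y.filter (fun y => ∃ z : ℤ, |Fv k L j y - z| ≤ 1 / (10 * ((10 ^ e : ℕ) : ℝ)))).card : ℝ) := by
    have h4 : (10 : ℝ) ^ (d + 1) / (10 : ℝ) ^ (2 * j) = 1 / (10 * ((10 ^ e : ℕ) : ℝ)) := by
      rw [he]
      have h5 : (10 : ℝ) ^ (d + 2 + e) = 10 ^ (d + 1) * (10 * 10 ^ e) := by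
        ring
      rw [h5]
      push_cast
      have h6 : (10 : ℝ) ^ (d + 1) ≠ 0 := by positivity
      field_simp
    rw [h4]
  have h1' : (((range (10 ^ d)).filter (fun x => (1 ≤ x ∧ IsDecimalPalindrome (x ^ k) ∧
        (Nat.digits 10 (x ^ k)).length = L) ∧ ¬ 2 ^ (r + 1) ∣ x ∧ ¬ 5 ^ (r + 1) ∣ x)).card : ℝ)
      ≤ ((Y.filter (fun y => ∃ z : ℤ, |Fv k L j y - z| ≤ 10 ^ (d + 1) / (10 : ℝ) ^ (2 * j))).card : ℝ) := by
    exact_mod_cast h1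
  refine (h1'.trans (h3.trans h2)).trans ?_
  have h7 : (Y.card : ℝ) ≤ 10 ^ j := by
    have h8 : Y.card ≤ 10 ^ j := by
      rw [hY]
      refine (Finset.card_filter_le _ _).trans ?_
      rw [Finset.card_range]
    exact_mod_cast h8
  have h8 : (Y.card : ℝ) / ((10 ^ e : ℕ) : ℝ) ≤ 10 ^ j / 10 ^ e := by
    push_cast
    exact div_le_div_of_nonneg_right h7 (by positivity)
  linarith

open Classical in
theorem block {k L j s d r e : ℕ} (hk : 2 ≤ k) (hL : L ≤ k * d) (hjL : j ≤ L) (hs1 : 1 ≤ s)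
    (hs : 2 * s ≤ j) (hr : r + 1 ≤ j - s) (he : 2 * j = d + 2 + e) :
    (((range (10 ^ d)).filter (fun x => 1 ≤ x ∧ IsDecimalPalindrome (x ^ k) ∧
        (Nat.digits 10 (x ^ k)).length = L)).card : ℝ) ≤
      2 * ((j + 1) * 10 ^ (2 * k) * (10 ^ (d + 1) / 10 ^ j + 10 ^ j / 2 ^ (k * (r + 1)) + 5 ^ j))
      + 2 * (10 ^ j / 10 ^ e
        + (10 ^ (2 * s) * (1 - 1 / 15125 : ℝ) ^ (s - 1) * (10 ^ ((k - 1) * (r + 1)) *
            (10 ^ (j - s) * 10 ^ e * 10 ^ ((k - 1) * (r + 1)) / 10 ^ s + 1))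
          + 700 * 10 ^ e * 10 ^ d / 10 ^ (2 * (j - s)))) := by
  have h1 := block_good (r := r) hk hL hjL hs1 hs hr he
  have h2 := bad (k := k) (j := j) (d := d) (L := L) (r := r) (p := 2) (q := 5) hk (Or.inl ⟨rfl, rfl⟩)
    (by omega) hjL
  have h3 := bad (k := k) (j := j) (d := d) (L := L) (r := r) (p := 5) (q := 2) hk (Or.inr ⟨rfl, rfl⟩)
    (by omega) hjL
  set S := (range (10 ^ d)).filter (fun x => 1 ≤ x ∧ IsDecimalPalindrome (x ^ k) ∧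
        (Nat.digits 10 (x ^ k)).length = L) with hS
  set S1 := (range (10 ^ d)).filter (fun x => (1 ≤ x ∧ IsDecimalPalindrome (x ^ k) ∧
        (Nat.digits 10 (x ^ k)).length = L) ∧ ¬ 2 ^ (r + 1) ∣ x ∧ ¬ 5 ^ (r + 1) ∣ x) with hS1
  set S2 := (range (10 ^ d)).filter (fun x => (1 ≤ x ∧ IsDecimalPalindrome (x ^ k) ∧
        (Nat.digits 10 (x ^ k)).length = L) ∧ 2 ^ (r + 1) ∣ x) with hS2
  set S3 := (range (10 ^ d)).filter (fun x => (1 ≤ x ∧ IsDecimalPalindrome (x ^ k) ∧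
        (Nat.digits 10 (x ^ k)).length = L) ∧ 5 ^ (r + 1) ∣ x) with hS3
  have h4 : S ⊆ S1 ∪ (S2 ∪ S3) := by
    intro x hx
    rw [hS, Finset.mem_filter] at hx
    rw [Finset.mem_union, Finset.mem_union, hS1, hS2, hS3, Finset.mem_filter, Finset.mem_filter,
      Finset.mem_filter]
    by_cases e2 : 2 ^ (r + 1) ∣ x
    · exact Or.inr (Or.inl ⟨hx.1, hx.2, e2⟩)
    · by_cases e5 : 5 ^ (r + 1) ∣ x
      · exact Or.inr (Or.inr ⟨hx.1, hx.2, e5⟩)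
      · exact Or.inl ⟨hx.1, hx.2, e2, e5⟩
  have h5 : S.card ≤ S1.card + (S2.card + S3.card) :=
    (Finset.card_le_card h4).trans ((Finset.card_union_le _ _).trans
      (Nat.add_le_add_left (Finset.card_union_le _ _) _))
  have h6 : (S.card : ℝ) ≤ S1.card + (S2.card + S3.card) := by exact_mod_cast h5
  linarith

end Pool.Agent.H.MP_40bd32_nt.PS
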