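import Pool.Agent.H.MP_40bd32_nt.PS.Pal

set_option autoImplicit false

open Finset N4baffcff

namespace Pool.Agent.H.MP_40bd32_nt.PS

/-! ### M2 Close.lean
`m = x^k = 10^L (X + δ)`, `X = rv j (x^k) = rv j (y^k) ≥ 1/10`, `0 ≤ δ < 10^(-j)`, `R = 10^(L/k) ≤ 10^d`
(as `x^k < 10^(kd)` gives `L ≤ kd`).  `x = R (X+δ)^(1/k)` and
`0 ≤ (X+δ)^(1/k) - X^(1/k) ≤ X^(1/k) (δ/X)/k ≤ 10 δ` (Bernoulli).
So `0 ≤ x - R X^(1/k) ≤ 10^(d+1-j)`, and `Fv + x / 10^j = (x - R X^(1/k)) / 10^j`.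
`count_le`: the map `x ↦ x % 10^j` is injective: two `x` with the same `y` have quotients
`x / 10^j` at distance `≤ 2 * 10^(d+1-2j) ≤ 2/10 < 1`.
-/

theorem len_le {k x d : ℕ} (hd : x < 10 ^ d) (hk : 1 ≤ k) :
    (Nat.digits 10 (x ^ k)).length ≤ k * d := by
  have h1 : x ^ k < 10 ^ (k * d) := by
    rw [mul_comm, pow_mul]
    exact Nat.pow_lt_pow_left hd (by omega)
  exact (Nat.digits_length_le_iff (by norm_num) _).2 h1

theorem R_le {k L d : ℕ} (hk : 1 ≤ k) (hL : L ≤ k * d) :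
    (10 : ℝ) ^ ((L : ℝ) / k) ≤ 10 ^ d := by
  rw [← Real.rpow_natCast 10 d]
  refine Real.rpow_le_rpow_of_exponent_le (by norm_num) ?_
  have hk0 : (0 : ℝ) < k := by exact_mod_cast hk
  rw [div_le_iff₀ hk0, mul_comm]
  exact_mod_cast hL

theorem close0 {k x j d : ℕ} (hk : 1 ≤ k) (hx : 1 ≤ x) (hd : x < 10 ^ d) (hj : 1 ≤ j)
    (hpal : IsDecimalPalindrome (x ^ k)) (hjL : j ≤ (Nat.digits 10 (x ^ k)).length) :
    (10 : ℝ) ^ (((Nat.digits 10 (x ^ k)).length : ℝ) / k) * (rv j (x ^ k)) ^ ((1 : ℝ) / k) ≤ x ∧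
    (x : ℝ) ≤ (10 : ℝ) ^ (((Nat.digits 10 (x ^ k)).length : ℝ) / k) * (rv j (x ^ k)) ^ ((1 : ℝ) / k)
      + 10 ^ (d + 1) / (10 : ℝ) ^ j := by
  have hm : 1 ≤ x ^ k := Nat.one_le_pow _ _ hx
  have h10 := pal_not_dvd hm hpal
  have hX := rv_ge hj h10
  have hX1 := rv_lt_one j (x ^ k)
  obtain ⟨hA, hB⟩ := pal_rv hpal hjL
  have hR := R_le hk (len_le hd hk)
  set L := (Nat.digits 10 (x ^ k)).length with hL
  set X := rv j (x ^ k) with hXdef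
  have hk0 : (0 : ℝ) < k := by exact_mod_cast hk
  have hk1 : (1 : ℝ) ≤ k := by exact_mod_cast hk
  have hp0 : (0 : ℝ) ≤ 1 / (k : ℝ) := by positivity
  have hp1 : (1 : ℝ) / (k : ℝ) ≤ 1 := by
    rw [div_le_one hk0]
    exact hk1
  have hX0 : 0 < X := by linarith
  have hx0 : (0 : ℝ) ≤ x := by positivity
  have hxk : ((x ^ k : ℕ) : ℝ) ^ ((1 : ℝ) / k) = x := by
    push_cast
    rw [one_div]
    exact Real.pow_rpow_inv_natCast hx0 (by omega)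
  have hRdef : ((10 : ℝ) ^ L) ^ ((1 : ℝ) / k) = (10 : ℝ) ^ ((L : ℝ) / k) := by
    rw [← Real.rpow_natCast, ← Real.rpow_mul (by norm_num)]
    congr 1
    ring
  set R := (10 : ℝ) ^ ((L : ℝ) / k) with hRd
  have hR0 : 0 < R := Real.rpow_pos_of_pos (by norm_num) _
  have hd0 : (0 : ℝ) < 1 / 10 ^ j := by positivity
  constructor
  · have h1 := Real.rpow_le_rpow (by positivity) hA hp0
    rw [hxk, Real.mul_rpow (by positivity) hX0.le, hRdef] at h1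
    exact h1
  · have h1 := Real.rpow_le_rpow (by positivity) hB.le hp0
    rw [hxk, Real.mul_rpow (by positivity) (by positivity), hRdef] at h1
    refine h1.trans ?_
    have h2 : X + 1 / 10 ^ j = X * (1 + (1 / 10 ^ j) / X) := by
      field_simp
    have h3 : (X + 1 / 10 ^ j) ^ ((1 : ℝ) / k) ≤ X ^ ((1 : ℝ) / k) + 10 * (1 / 10 ^ j) := by
      rw [h2, Real.mul_rpow hX0.le (by positivity)]
      have h4 : (1 + (1 / 10 ^ j) / X) ^ ((1 : ℝ) / k) ≤ 1 + (1 / (k : ℝ)) * ((1 / 10 ^ j) / X) :=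
        _root_.rpow_one_add_le_one_add_mul_self
          (by have : 0 ≤ (1 / (10 : ℝ) ^ j) / X := by positivity
              linarith) hp0 hp1
      have h5 : X ^ ((1 : ℝ) / k) ≤ 1 := Real.rpow_le_one hX0.le hX1.le hp0
      have h6 : 0 ≤ X ^ ((1 : ℝ) / k) := by positivity
      have h7 : (1 / (10 : ℝ) ^ j) / X ≤ 10 * (1 / 10 ^ j) := by
        rw [div_le_iff₀ hX0]
        nlinarith
      have h8 : (1 / (k : ℝ)) * ((1 / 10 ^ j) / X) ≤ 10 * (1 / 10 ^ j) := by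
        have h9 : 0 ≤ (1 / (10 : ℝ) ^ j) / X := by positivity
        nlinarith
      have h10 : 0 ≤ (1 / (k : ℝ)) * ((1 / 10 ^ j) / X) := by positivity
      calc X ^ ((1 : ℝ) / k) * (1 + (1 / 10 ^ j) / X) ^ ((1 : ℝ) / k)
          ≤ X ^ ((1 : ℝ) / k) * (1 + (1 / (k : ℝ)) * ((1 / 10 ^ j) / X)) :=
            mul_le_mul_of_nonneg_left h4 h6
        _ = X ^ ((1 : ℝ) / k) + X ^ ((1 : ℝ) / k) * ((1 / (k : ℝ)) * ((1 / 10 ^ j) / X)) := by ring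
        _ ≤ X ^ ((1 : ℝ) / k) + 1 * ((1 / (k : ℝ)) * ((1 / 10 ^ j) / X)) := by
            have := mul_le_mul_of_nonneg_right h5 h10
            linarith
        _ ≤ X ^ ((1 : ℝ) / k) + 10 * (1 / 10 ^ j) := by linarith
    calc R * (X + 1 / 10 ^ j) ^ ((1 : ℝ) / k)
        ≤ R * (X ^ ((1 : ℝ) / k) + 10 * (1 / 10 ^ j)) := mul_le_mul_of_nonneg_left h3 hR0.le
      _ = R * X ^ ((1 : ℝ) / k) + R * (10 * (1 / 10 ^ j)) := by ring
      _ ≤ R * X ^ ((1 : ℝ) / k) + 10 ^ d * (10 * (1 / 10 ^ j)) := by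
          have := mul_le_mul_of_nonneg_right hR (by positivity : (0 : ℝ) ≤ 10 * (1 / 10 ^ j))
          linarith
      _ = R * X ^ ((1 : ℝ) / k) + 10 ^ (d + 1) / (10 : ℝ) ^ j := by
          rw [pow_succ]
          ring

theorem close {k x j d : ℕ} (hk : 1 ≤ k) (hx : 1 ≤ x) (hd : x < 10 ^ d) (hj : 1 ≤ j)
    (hpal : IsDecimalPalindrome (x ^ k)) (hjL : j ≤ (Nat.digits 10 (x ^ k)).length) :
    |Fv k (Nat.digits 10 (x ^ k)).length j (x % 10 ^ j) + ((x / 10 ^ j : ℕ) : ℝ)|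
      ≤ 10 ^ (d + 1) / (10 : ℝ) ^ (2 * j) := by
  obtain ⟨hA, hB⟩ := close0 hk hx hd hj hpal hjL
  unfold Fv
  have h1 : rv j ((x % 10 ^ j) ^ k) = rv j (x ^ k) :=
    rv_congr ((Nat.mod_modEq x (10 ^ j)).pow k)
  rw [h1]
  set Z := (10 : ℝ) ^ (((Nat.digits 10 (x ^ k)).length : ℝ) / k) * (rv j (x ^ k)) ^ ((1 : ℝ) / k)
    with hZ
  have h2 : ((x % 10 ^ j : ℕ) : ℝ) + 10 ^ j * ((x / 10 ^ j : ℕ) : ℝ) = x := by
    exact_mod_cast Nat.mod_add_div x (10 ^ j)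
  have h3 : (0 : ℝ) < 10 ^ j := by positivity
  have h4 : (((x % 10 ^ j : ℕ) : ℝ) - Z) / 10 ^ j + ((x / 10 ^ j : ℕ) : ℝ) = (x - Z) / 10 ^ j := by
    rw [← h2]
    field_simp
    ring
  rw [h4, abs_of_nonneg (div_nonneg (by linarith) h3.le)]
  have h5 : (10 : ℝ) ^ (d + 1) / (10 : ℝ) ^ (2 * j) = (10 ^ (d + 1) / (10 : ℝ) ^ j) / 10 ^ j := by
    rw [div_div, ← pow_add, ← two_mul]
  rw [h5]
  exact div_le_div_of_nonneg_right (by linarith) h3.le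

open Classical in
theorem count_le {k j d L r : ℕ} (hk : 1 ≤ k) (hj : r + 1 ≤ j) (hjL : j ≤ L)
    (hjd : d + 2 ≤ 2 * j) :
    ((range (10 ^ d)).filter (fun x => (1 ≤ x ∧ IsDecimalPalindrome (x ^ k) ∧
        (Nat.digits 10 (x ^ k)).length = L) ∧ ¬ 2 ^ (r + 1) ∣ x ∧ ¬ 5 ^ (r + 1) ∣ x)).card
      ≤ (((range (10 ^ j)).filter (fun y => ¬ 10 ∣ y ∧ ¬ 2 ^ (r + 1) ∣ y ∧ ¬ 5 ^ (r + 1) ∣ y)).filter
          (fun y => ∃ z : ℤ, |Fv k L j y - z| ≤ 10 ^ (d + 1) / (10 : ℝ) ^ (2 * j))).card := by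
  refine Finset.card_le_card_of_injOn (fun x => x % 10 ^ j) ?_ ?_
  · intro x hx
    have hx' := Finset.mem_coe.1 hx
    rw [Finset.mem_filter, Finset.mem_range] at hx'
    obtain ⟨hxd, ⟨hx1, hpal, hlen⟩, h2, h5⟩ := hx'
    have hc := close hk hx1 hxd (by omega : 1 ≤ j) hpal (by rw [hlen]; exact hjL)
    rw [hlen] at hc
    have h10 : ¬ 10 ∣ x := fun h =>
      pal_not_dvd (Nat.one_le_pow _ _ hx1) hpal (h.trans (dvd_pow_self x (by omega)))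
    refine Finset.mem_coe.2 (Finset.mem_filter.2 ⟨Finset.mem_filter.2 ⟨?_, ?_, ?_, ?_⟩, ?_⟩)
    · exact Finset.mem_range.2 (Nat.mod_lt _ (by positivity))
    · intro h
      exact h10 ((Nat.dvd_mod_iff (dvd_pow_self 10 (by omega))).1 h)
    · intro h
      apply h2
      refine (Nat.dvd_mod_iff ?_).1 h
      exact (pow_dvd_pow 2 hj).trans (pow_dvd_pow_of_dvd (by norm_num) j)
    · intro h
      apply h5
      refine (Nat.dvd_mod_iff ?_).1 h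
      exact (pow_dvd_pow 5 hj).trans (pow_dvd_pow_of_dvd (by norm_num) j)
    · refine ⟨-((x / 10 ^ j : ℕ) : ℤ), ?_⟩
      rw [Int.cast_neg, Int.cast_natCast, sub_neg_eq_add]
      exact hc
  · intro x hx x' hx' hxx
    have hx1 := Finset.mem_coe.1 hx
    have hx2 := Finset.mem_coe.1 hx'
    rw [Finset.mem_filter, Finset.mem_range] at hx1 hx2
    obtain ⟨hxd, ⟨hx1, hpal, hlen⟩, -, -⟩ := hx1
    obtain ⟨hxd', ⟨hx1', hpal', hlen'⟩, -, -⟩ := hx2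
    have hc := close hk hx1 hxd (by omega : 1 ≤ j) hpal (by rw [hlen]; exact hjL)
    have hc' := close hk hx1' hxd' (by omega : 1 ≤ j) hpal' (by rw [hlen']; exact hjL)
    rw [hlen] at hc
    rw [hlen'] at hc'
    have hxx' : x % 10 ^ j = x' % 10 ^ j := hxx
    rw [← hxx'] at hc'
    have hb : (10 : ℝ) ^ (d + 1) / 10 ^ (2 * j) ≤ 1 / 10 := by
      rw [div_le_div_iff₀ (by positivity) (by norm_num)]
      have : (10 : ℝ) ^ (d + 2) ≤ 10 ^ (2 * j) := pow_le_pow_right₀ (by norm_num) hjd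
      calc (10 : ℝ) ^ (d + 1) * 10 = 10 ^ (d + 2) := by ring
        _ ≤ 1 * 10 ^ (2 * j) := by linarith
    have h1 : |((x / 10 ^ j : ℕ) : ℝ) - ((x' / 10 ^ j : ℕ) : ℝ)| < 1 := by
      rw [abs_le] at hc hc'
      rw [abs_lt]
      constructor <;> linarith [hc.1, hc.2, hc'.1, hc'.2]
    have h2 : x / 10 ^ j = x' / 10 ^ j := by
      rw [abs_lt] at h1
      have h3 : ((x / 10 ^ j : ℕ) : ℝ) < ((x' / 10 ^ j : ℕ) : ℝ) + 1 := by linarith [h1.2]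
      have h4 : ((x' / 10 ^ j : ℕ) : ℝ) < ((x / 10 ^ j : ℕ) : ℝ) + 1 := by linarith [h1.1]
      have h3' : x / 10 ^ j < x' / 10 ^ j + 1 := by exact_mod_cast h3
      have h4' : x' / 10 ^ j < x / 10 ^ j + 1 := by exact_mod_cast h4
      omega
    rw [← Nat.mod_add_div x (10 ^ j), ← Nat.mod_add_div x' (10 ^ j), hxx', h2]

end Pool.Agent.H.MP_40bd32_nt.PS
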