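import Pool.Agent.H.MP_40bd32_nt.PS.Param

set_option autoImplicit false

open Finset N4baffcff

namespace Pool.Agent.H.MP_40bd32_nt.PS

/-! ### M12 Final.lean
`fixed`: `x` with exactly `d` digits (`10^(d-1) ≤ x < 10^d`) has `k(d-1)+1 ≤ L ≤ kd`; `k` values of `L`;
sum over `d ≤ D`, geometric series (`q ≥ 3/2`).
`fixed_k`: `D = log N / k + 1`, so `x^k ≤ N` gives `x < 10^D`, and `10^(k(D-1)) ≤ N`;
`q ≤ 10^((1-c)/2)`.
`all_k`: the exponents `K ≤ k < 4K` by `fixed_k`; `k ≥ 4K`: at most `N^(1/(4K))` values of `x`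
for each `k ≤ 4K + log_2 N`; `c < 1/2`.
-/

theorem geom_le (q : ℝ) (hq : 3 / 2 ≤ q) (D : ℕ) : ∑ d ∈ Icc 1 D, q ^ d ≤ 3 * q ^ D := by
  induction D with
  | zero => simp
  | succ D ih =>
    rw [Finset.sum_Icc_succ_top (by omega)]
    have h1 : 0 ≤ q ^ D := by positivity
    have h2 : q ^ (D + 1) = q ^ D * q := pow_succ q D
    nlinarith

open Classical in
theorem fixed : ∃ q : ℝ, 3 / 2 ≤ q ∧ q < Real.sqrt 10 ∧ ∀ k : ℕ, 2 ≤ k → ∃ C : ℝ, 0 ≤ C ∧
    ∀ D : ℕ, (((range (10 ^ D)).filter (fun x => 1 ≤ x ∧ IsDecimalPalindrome (x ^ k))).card : ℝ)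
      ≤ C * q ^ D := by
  obtain ⟨q, hq1, hq2, hpar⟩ := param
  refine ⟨q, hq1, hq2, ?_⟩
  intro k hk
  obtain ⟨C, hC, hC'⟩ := hpar k hk
  refine ⟨3 * (k * C), by positivity, ?_⟩
  intro D
  set A : ℕ → ℕ → Finset ℕ := fun d L => (range (10 ^ d)).filter
    (fun x => 1 ≤ x ∧ IsDecimalPalindrome (x ^ k) ∧ (Nat.digits 10 (x ^ k)).length = L) with hA
  have hcover : (range (10 ^ D)).filter (fun x => 1 ≤ x ∧ IsDecimalPalindrome (x ^ k))
      ⊆ (Icc 1 D).biUnion (fun d => (Icc (k * (d - 1) + 1) (k * d)).biUnion (fun L => A d L)) := by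
    intro x hx
    obtain ⟨hx1, hx2, hx3⟩ := Finset.mem_filter.mp hx
    have hxD := Finset.mem_range.mp hx1
    set d := Nat.log 10 x + 1 with hd
    have hlt : x < 10 ^ d := Nat.lt_pow_succ_log_self (by norm_num) x
    have hle : 10 ^ (d - 1) ≤ x := by
      have : d - 1 = Nat.log 10 x := by omega
      rw [this]
      exact Nat.pow_log_le_self 10 (by omega)
    have hdD : d ≤ D := by
      by_contra h
      have h1 : 10 ^ D ≤ 10 ^ (d - 1) := Nat.pow_le_pow_right (by norm_num) (by omega)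
      omega
    have hxk0 : x ^ k ≠ 0 := by positivity
    have hL : (Nat.digits 10 (x ^ k)).length = Nat.log 10 (x ^ k) + 1 :=
      Nat.length_digits 10 _ (by norm_num) hxk0
    have hup : x ^ k < 10 ^ (k * d) := by
      rw [mul_comm, pow_mul]
      exact Nat.pow_lt_pow_left hlt (by omega)
    have hlow : 10 ^ (k * (d - 1)) ≤ x ^ k := by
      rw [mul_comm, pow_mul]
      exact Nat.pow_le_pow_left hle k
    have h1 : Nat.log 10 (x ^ k) < k * d := Nat.log_lt_of_lt_pow hxk0 hup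
    have h2 : k * (d - 1) ≤ Nat.log 10 (x ^ k) := Nat.le_log_of_pow_le (by norm_num) hlow
    rw [Finset.mem_biUnion]
    refine ⟨d, Finset.mem_Icc.mpr ⟨by omega, hdD⟩, ?_⟩
    rw [Finset.mem_biUnion]
    refine ⟨(Nat.digits 10 (x ^ k)).length, Finset.mem_Icc.mpr ⟨by omega, by omega⟩, ?_⟩
    simp only [hA]
    exact Finset.mem_filter.mpr ⟨Finset.mem_range.mpr hlt, hx2, hx3, rfl⟩
  have hcard : (((range (10 ^ D)).filter (fun x => 1 ≤ x ∧ IsDecimalPalindrome (x ^ k))).card : ℝ)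
      ≤ ∑ d ∈ Icc 1 D, ∑ L ∈ Icc (k * (d - 1) + 1) (k * d), ((A d L).card : ℝ) := by
    have h1 := Finset.card_le_card hcover
    have h2 := Finset.card_biUnion_le (s := Icc 1 D)
      (t := fun d => (Icc (k * (d - 1) + 1) (k * d)).biUnion (fun L => A d L))
    have h3 : ∀ d ∈ Icc 1 D, ((Icc (k * (d - 1) + 1) (k * d)).biUnion (fun L => A d L)).card
        ≤ ∑ L ∈ Icc (k * (d - 1) + 1) (k * d), (A d L).card := fun d _ => Finset.card_biUnion_le
    have h4 := Finset.sum_le_sum h3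
    have h5 := le_trans h1 (le_trans h2 h4)
    exact_mod_cast h5
  refine le_trans hcard ?_
  have hterm : ∀ d ∈ Icc 1 D, ∑ L ∈ Icc (k * (d - 1) + 1) (k * d), ((A d L).card : ℝ)
      ≤ (k * C) * q ^ d := by
    intro d hd
    obtain ⟨hd1, _⟩ := Finset.mem_Icc.mp hd
    have h1 : ∀ L ∈ Icc (k * (d - 1) + 1) (k * d), ((A d L).card : ℝ) ≤ C * q ^ d := by
      intro L hL
      obtain ⟨hL1, hL2⟩ := Finset.mem_Icc.mp hL
      exact hC' d L hd1 hL2 hL1
    refine le_trans (Finset.sum_le_sum h1) (le_of_eq ?_)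
    rw [Finset.sum_const, nsmul_eq_mul, Nat.card_Icc]
    have : k * d + 1 - (k * (d - 1) + 1) = k := by
      obtain ⟨e, rfl⟩ : ∃ e, d = e + 1 := ⟨d - 1, by omega⟩
      simp only [Nat.add_sub_cancel]
      rw [Nat.mul_succ]
      omega
    rw [this]
    ring
  refine le_trans (Finset.sum_le_sum hterm) ?_
  rw [← Finset.mul_sum]
  have h6 := geom_le q hq1 D
  have h7 : (0 : ℝ) ≤ k * C := by positivity
  nlinarith

open Classical in
theorem fixed_k : ∃ c : ℝ, 0 < c ∧ c < 1 / 2 ∧ ∀ k : ℕ, 2 ≤ k → ∃ C : ℝ, 0 ≤ C ∧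
    ∀ N : ℕ, 1 ≤ N →
    (((Icc 1 N).filter (fun m => IsDecimalPalindrome m ∧ ∃ x : ℕ, m = x ^ k)).card : ℝ)
      ≤ C * (N : ℝ) ^ ((1 - c) / (2 * (k : ℝ))) := by
  obtain ⟨q, hq1, hq2, hfix⟩ := fixed
  have hq0 : 0 < q := by linarith
  -- choice of `c`
  set c : ℝ := min (1 - 2 * Real.logb 10 q) (1 / 4) with hc
  have hlog : Real.logb 10 q < 1 / 2 := by
    rw [Real.logb_lt_iff_lt_rpow (by norm_num) hq0, ← Real.sqrt_eq_rpow]
    exact hq2
  have hc0 : 0 < c := lt_min (by linarith) (by norm_num)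
  have hc1 : c < 1 / 2 := lt_of_le_of_lt (min_le_right _ _) (by norm_num)
  have hqc : q ≤ (10 : ℝ) ^ ((1 - c) / 2) := by
    rw [← Real.logb_le_iff_le_rpow (by norm_num) hq0]
    have : c ≤ 1 - 2 * Real.logb 10 q := min_le_left _ _
    linarith
  refine ⟨c, hc0, hc1, ?_⟩
  intro k hk
  obtain ⟨C, hC, hC'⟩ := hfix k hk
  refine ⟨C * q, by positivity, ?_⟩
  intro N hN
  set D := Nat.log 10 N / k + 1 with hD
  have hk0 : 0 < k := by omega
  have hN0 : N ≠ 0 := by omega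
  have hND : N < 10 ^ (k * D) := by
    have h1 : N < 10 ^ (Nat.log 10 N + 1) := Nat.lt_pow_succ_log_self (by norm_num) N
    refine lt_of_lt_of_le h1 (Nat.pow_le_pow_right (by norm_num) ?_)
    have := Nat.lt_mul_div_succ (Nat.log 10 N) hk0
    rw [hD]
    omega
  have hDN : 10 ^ (k * (D - 1)) ≤ N := by
    have h1 : k * (D - 1) ≤ Nat.log 10 N := by
      rw [hD, Nat.add_sub_cancel]
      exact Nat.mul_div_le _ _
    exact le_trans (Nat.pow_le_pow_right (by norm_num) h1) (Nat.pow_log_le_self 10 hN0)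
  have hsub : (Icc 1 N).filter (fun m => IsDecimalPalindrome m ∧ ∃ x : ℕ, m = x ^ k)
      ⊆ ((range (10 ^ D)).filter (fun x => 1 ≤ x ∧ IsDecimalPalindrome (x ^ k))).image
        (fun x => x ^ k) := by
    intro m hm
    obtain ⟨hm1, hm2, x, rfl⟩ := Finset.mem_filter.mp hm
    obtain ⟨hm3, hm4⟩ := Finset.mem_Icc.mp hm1
    rw [Finset.mem_image]
    refine ⟨x, Finset.mem_filter.mpr ⟨Finset.mem_range.mpr ?_, ?_, hm2⟩, rfl⟩
    · by_contra h
      have h1 : 10 ^ D ≤ x := by omega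
      have h2 : 10 ^ (k * D) ≤ x ^ k := by
        rw [mul_comm, pow_mul]
        exact Nat.pow_le_pow_left h1 k
      omega
    · rcases Nat.eq_zero_or_pos x with h | h
      · subst h
        rw [zero_pow (by omega)] at hm3
        omega
      · exact h
  have h1 : (((Icc 1 N).filter (fun m => IsDecimalPalindrome m ∧ ∃ x : ℕ, m = x ^ k)).card : ℝ)
      ≤ C * q ^ D := by
    refine le_trans ?_ (hC' D)
    have := le_trans (Finset.card_le_card hsub) Finset.card_image_le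
    exact_mod_cast this
  refine le_trans h1 ?_
  have h2 : q ^ D ≤ q * (N : ℝ) ^ ((1 - c) / (2 * (k : ℝ))) := by
    have e1 : q ^ D = q * q ^ (D - 1) := by
      rw [← pow_succ']
      congr 1
    rw [e1]
    apply mul_le_mul_of_nonneg_left _ hq0.le
    have hkR : (0 : ℝ) < k := by exact_mod_cast hk0
    calc q ^ (D - 1) ≤ ((10 : ℝ) ^ ((1 - c) / 2)) ^ (D - 1) := pow_le_pow_left₀ hq0.le hqc _
      _ = ((10 : ℝ) ^ (k * (D - 1))) ^ ((1 - c) / (2 * (k : ℝ))) := by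
          rw [← Real.rpow_natCast, ← Real.rpow_mul (by norm_num), ← Real.rpow_natCast,
            ← Real.rpow_mul (by norm_num)]
          congr 1
          push_cast
          field_simp
      _ ≤ (N : ℝ) ^ ((1 - c) / (2 * (k : ℝ))) := by
          apply Real.rpow_le_rpow (by positivity)
          · exact_mod_cast hDN
          · apply div_nonneg (by linarith) (by positivity)
  have h3 := mul_le_mul_of_nonneg_left h2 hC
  calc C * q ^ D ≤ C * (q * (N : ℝ) ^ ((1 - c) / (2 * (k : ℝ)))) := h3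
    _ = C * q * (N : ℝ) ^ ((1 - c) / (2 * (k : ℝ))) := by ring

open Classical in
theorem all_k : ∃ c : ℝ, 0 < c ∧ ∀ K : ℕ, 2 ≤ K → ∃ C : ℝ, ∀ N : ℕ, 1 ≤ N →
    (((Icc 1 N).filter (fun m => IsDecimalPalindrome m ∧ ∃ x k : ℕ, K ≤ k ∧ m = x ^ k)).card : ℝ)
      ≤ C * (N : ℝ) ^ ((1 - c) / (2 * (K : ℝ))) := by
  obtain ⟨c, hc0, hc1, hfix⟩ := fixed_k
  refine ⟨c, hc0, ?_⟩
  intro K hK
  have hKR : (2 : ℝ) ≤ K := by exact_mod_cast hK
  choose! Ck hCk hCk' using hfix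
  set ε : ℝ := (1 - c) / (2 * (K : ℝ)) - 1 / (4 * (K : ℝ)) with hε
  have hε0 : 0 < ε := by
    have : ε = (1 / 2 - c) / (2 * (K : ℝ)) := by
      rw [hε]
      field_simp
      ring
    rw [this]
    apply div_pos (by linarith) (by linarith)
  refine ⟨(∑ k ∈ Ico K (4 * K), Ck k) + (4 * K + 1 + 1 / (ε * Real.log 2)), ?_⟩
  intro N hN
  have hNR : (1 : ℝ) ≤ N := by exact_mod_cast hN
  have hN0 : (0 : ℝ) < N := by linarith
  set X : ℕ := ⌊(N : ℝ) ^ (1 / (4 * (K : ℝ)))⌋₊ with hX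
  have hcover : (Icc 1 N).filter (fun m => IsDecimalPalindrome m ∧ ∃ x k : ℕ, K ≤ k ∧ m = x ^ k)
      ⊆ ((Ico K (4 * K)).biUnion (fun k => (Icc 1 N).filter
          (fun m => IsDecimalPalindrome m ∧ ∃ x : ℕ, m = x ^ k)))
        ∪ ((Icc 1 X) ×ˢ (range (4 * K + Nat.log 2 N + 1))).image (fun p => p.1 ^ p.2) := by
    intro m hm
    obtain ⟨hm1, hm2, x, k, hk, rfl⟩ := Finset.mem_filter.mp hm
    obtain ⟨hm3, hm4⟩ := Finset.mem_Icc.mp hm1
    rw [Finset.mem_union]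
    by_cases hk4 : k < 4 * K
    · left
      rw [Finset.mem_biUnion]
      exact ⟨k, Finset.mem_Ico.mpr ⟨hk, hk4⟩, Finset.mem_filter.mpr ⟨hm1, hm2, x, rfl⟩⟩
    · right
      have hk4' : 4 * K ≤ k := by omega
      have hx1 : 1 ≤ x := by
        rcases Nat.eq_zero_or_pos x with h | h
        · subst h
          rw [zero_pow (by omega)] at hm3
          omega
        · exact h
      have hxX : x ≤ X := by
        apply Nat.le_floor
        have h1 : (x : ℝ) ^ (4 * K) ≤ N := by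
          have : x ^ (4 * K) ≤ N := le_trans (Nat.pow_le_pow_right hx1 hk4') hm4
          exact_mod_cast this
        have hx0 : (0 : ℝ) ≤ x := Nat.cast_nonneg x
        have h2 : ((x : ℝ) ^ (4 * K)) ^ (1 / (4 * (K : ℝ))) = x := by
          rw [← Real.rpow_natCast, ← Real.rpow_mul hx0]
          have : (((4 * K : ℕ) : ℝ)) * (1 / (4 * (K : ℝ))) = 1 := by
            push_cast
            have : (K : ℝ) ≠ 0 := by linarith
            field_simp
          rw [this, Real.rpow_one]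
        rw [← h2]
        exact Real.rpow_le_rpow (by positivity) h1 (by positivity)
      rw [Finset.mem_image]
      rcases Nat.lt_or_ge x 2 with hx2 | hx2
      · have hxe : x = 1 := by omega
        refine ⟨(1, 0), ?_, by simp [hxe]⟩
        rw [Finset.mem_product, Finset.mem_Icc, Finset.mem_range]
        exact ⟨⟨le_rfl, by omega⟩, by omega⟩
      · refine ⟨(x, k), ?_, rfl⟩
        rw [Finset.mem_product, Finset.mem_Icc, Finset.mem_range]
        refine ⟨⟨hx1, hxX⟩, ?_⟩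
        have h1 : 2 ^ k ≤ N := le_trans (Nat.pow_le_pow_left hx2 k) hm4
        have h2 : k ≤ Nat.log 2 N := Nat.le_log_of_pow_le (by norm_num) h1
        show k < 4 * K + Nat.log 2 N + 1
        omega
  have hcard : (((Icc 1 N).filter (fun m => IsDecimalPalindrome m ∧
      ∃ x k : ℕ, K ≤ k ∧ m = x ^ k)).card : ℝ)
      ≤ (∑ k ∈ Ico K (4 * K), (((Icc 1 N).filter
          (fun m => IsDecimalPalindrome m ∧ ∃ x : ℕ, m = x ^ k)).card : ℝ))
        + (X : ℝ) * (4 * K + Nat.log 2 N + 1) := by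
    have h1 := Finset.card_le_card hcover
    have h2 := Finset.card_union_le ((Ico K (4 * K)).biUnion (fun k => (Icc 1 N).filter
          (fun m => IsDecimalPalindrome m ∧ ∃ x : ℕ, m = x ^ k)))
        (((Icc 1 X) ×ˢ (range (4 * K + Nat.log 2 N + 1))).image (fun p => p.1 ^ p.2))
    have h3 := Finset.card_biUnion_le (s := Ico K (4 * K)) (t := fun k => (Icc 1 N).filter
          (fun m => IsDecimalPalindrome m ∧ ∃ x : ℕ, m = x ^ k))
    have h4 : (((Icc 1 X) ×ˢ (range (4 * K + Nat.log 2 N + 1))).image (fun p => p.1 ^ p.2)).card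
        ≤ X * (4 * K + Nat.log 2 N + 1) := by
      refine le_trans Finset.card_image_le ?_
      rw [Finset.card_product, Nat.card_Icc, Finset.card_range, Nat.add_sub_cancel]
    have h5 : ((Icc 1 N).filter (fun m => IsDecimalPalindrome m ∧
        ∃ x k : ℕ, K ≤ k ∧ m = x ^ k)).card
        ≤ (∑ k ∈ Ico K (4 * K), ((Icc 1 N).filter
          (fun m => IsDecimalPalindrome m ∧ ∃ x : ℕ, m = x ^ k)).card)
          + X * (4 * K + Nat.log 2 N + 1) := by omega
    exact_mod_cast h5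
  refine le_trans hcard ?_
  set P : ℝ := (N : ℝ) ^ ((1 - c) / (2 * (K : ℝ))) with hP
  have hP0 : 0 ≤ P := by positivity
  have hsum : ∑ k ∈ Ico K (4 * K), (((Icc 1 N).filter
          (fun m => IsDecimalPalindrome m ∧ ∃ x : ℕ, m = x ^ k)).card : ℝ)
      ≤ (∑ k ∈ Ico K (4 * K), Ck k) * P := by
    rw [Finset.sum_mul]
    apply Finset.sum_le_sum
    intro k hk
    obtain ⟨hk1, _⟩ := Finset.mem_Ico.mp hk
    have hk2 : 2 ≤ k := by omega
    refine le_trans (hCk' k hk2 N hN) ?_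
    apply mul_le_mul_of_nonneg_left _ (hCk k hk2)
    rw [hP]
    apply Real.rpow_le_rpow_of_exponent_le hNR
    apply div_le_div_of_nonneg_left (by linarith) (by linarith)
    have : (K : ℝ) ≤ k := by exact_mod_cast hk1
    linarith
  have hXle : (X : ℝ) ≤ (N : ℝ) ^ (1 / (4 * (K : ℝ))) := Nat.floor_le (by positivity)
  have hNε : 1 ≤ (N : ℝ) ^ ε := Real.one_le_rpow hNR hε0.le
  have hlog2 : 0 < Real.log 2 := Real.log_pos (by norm_num)
  have hlogN : (Nat.log 2 N : ℝ) ≤ 1 / (ε * Real.log 2) * (N : ℝ) ^ ε := by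
    have h1 : (2 : ℝ) ^ (Nat.log 2 N) ≤ N := by
      exact_mod_cast Nat.pow_log_le_self 2 (by omega)
    have h2 : (Nat.log 2 N : ℝ) * Real.log 2 ≤ Real.log N := by
      rw [← Real.log_pow]
      exact Real.log_le_log (by positivity) h1
    have h3 : Real.log N ≤ (N : ℝ) ^ ε / ε := Real.log_le_rpow_div hN0.le hε0
    have h4 : (Nat.log 2 N : ℝ) ≤ ((N : ℝ) ^ ε / ε) / Real.log 2 := by
      rw [le_div_iff₀ hlog2]
      linarith
    refine le_trans h4 (le_of_eq ?_)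
    field_simp
  have hlast : (4 * K + Nat.log 2 N + 1 : ℝ) ≤ (4 * K + 1 + 1 / (ε * Real.log 2)) * (N : ℝ) ^ ε := by
    have h1 : (4 * K + 1 : ℝ) ≤ (4 * K + 1) * (N : ℝ) ^ ε := by
      have : (0 : ℝ) ≤ 4 * K + 1 := by positivity
      nlinarith
    calc (4 * K + Nat.log 2 N + 1 : ℝ) = (4 * K + 1) + Nat.log 2 N := by ring
      _ ≤ (4 * K + 1) * (N : ℝ) ^ ε + 1 / (ε * Real.log 2) * (N : ℝ) ^ ε := add_le_add h1 hlogN
      _ = _ := by ring
  have hPe : (N : ℝ) ^ (1 / (4 * (K : ℝ))) * (N : ℝ) ^ ε = P := by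
    rw [← Real.rpow_add hN0, hP, hε]
    congr 1
    ring
  have hsec : (X : ℝ) * (4 * K + Nat.log 2 N + 1) ≤ (4 * K + 1 + 1 / (ε * Real.log 2)) * P := by
    calc (X : ℝ) * (4 * K + Nat.log 2 N + 1)
        ≤ (N : ℝ) ^ (1 / (4 * (K : ℝ))) * ((4 * K + 1 + 1 / (ε * Real.log 2)) * (N : ℝ) ^ ε) := by
          apply mul_le_mul hXle hlast (by positivity) (by positivity)
      _ = (4 * K + 1 + 1 / (ε * Real.log 2)) * ((N : ℝ) ^ (1 / (4 * (K : ℝ))) * (N : ℝ) ^ ε) := by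
          ring
      _ = _ := by rw [hPe]
  calc (∑ k ∈ Ico K (4 * K), (((Icc 1 N).filter
          (fun m => IsDecimalPalindrome m ∧ ∃ x : ℕ, m = x ^ k)).card : ℝ))
        + (X : ℝ) * (4 * K + Nat.log 2 N + 1)
      ≤ (∑ k ∈ Ico K (4 * K), Ck k) * P + (4 * K + 1 + 1 / (ε * Real.log 2)) * P :=
        add_le_add hsum hsec
    _ = _ := by ring

end Pool.Agent.H.MP_40bd32_nt.PS
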