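import Pool.Agent.H.MP_40bd32_nt.PS.Base
import Pool.Agent.H.MP_40bd32_nt.PS.K2

set_option autoImplicit false

open Finset

namespace Pool.Agent.H.MP_40bd32_nt.PS

/-! ### M4 Kernel.lean
`SS a M Λ = ∏_{i<a} phi θ_i`, `θ_i = M/10^(a-i) - Λ/10^(i+1)`, `phi θ = ∑_{t<10} ee (t θ)`.
`‖phi θ‖ ≤ 5 ‖1 + ee θ‖ = 10 |cos πθ| ≤ 10 (1 - 1/6050)` at distance `≥ 1/110` from the integers.
`99 M/10^(a-i) = 10 θ_(i+1) - θ_i`; if the digit `a - i - 1` of `99 M` is in
`{1, …, 8}` then `max (‖θ_i‖, ‖θ_(i+1)‖) ≥ 1/110`.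
-/

/-- The digit kernel. -/
noncomputable def phi (t : ℝ) : ℂ := ∑ a ∈ range 10, ee ((a : ℝ) * t)

theorem norm_phi_le (t : ℝ) : ‖phi t‖ ≤ 10 := by
  unfold phi
  calc ‖∑ a ∈ range 10, ee ((a : ℝ) * t)‖
      ≤ ∑ a ∈ range 10, ‖ee ((a : ℝ) * t)‖ := norm_sum_le _ _
    _ = 10 := by simp [norm_ee]

theorem norm_one_add_ee_sq (t : ℝ) : ‖1 + ee t‖ ^ 2 = 4 * Real.cos (Real.pi * t) ^ 2 := by
  have h1 : ‖1 + ee t‖ ^ 2 = Complex.normSq (1 + ee t) := by
    rw [Complex.normSq_eq_norm_sq]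
  rw [h1, Complex.normSq_apply]
  have hre : (1 + ee t).re = 1 + Real.cos (2 * Real.pi * t) := by
    unfold ee
    rw [Complex.add_re, Complex.exp_ofReal_mul_I_re, Complex.one_re]
  have him : (1 + ee t).im = Real.sin (2 * Real.pi * t) := by
    unfold ee
    rw [Complex.add_im, Complex.exp_ofReal_mul_I_im, Complex.one_im, zero_add]
  rw [hre, him]
  have h2 : 2 * Real.pi * t = 2 * (Real.pi * t) := by ring
  rw [h2]
  have h3 := Real.sin_sq_add_cos_sq (2 * (Real.pi * t))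
  have h4 := Real.cos_two_mul (Real.pi * t)
  nlinarith [h3, h4]

/-- Away from the integers, `cos (pi t)` is away from `±1`. -/
theorem cos_sq_le (t : ℝ) (ht : ∀ n : ℤ, 1 / 110 ≤ |t - n|) :
    Real.cos (Real.pi * t) ^ 2 ≤ 1 - 1 / 3025 := by
  -- reduce to the nearest integer
  set n : ℤ := round t with hn
  have h0 := ht n
  have h1 : |t - n| ≤ 1 / 2 := by
    have := abs_sub_round t
    simpa [hn] using this
  have h2 : Real.sin (Real.pi * t) ^ 2 = Real.sin (Real.pi * |t - n|) ^ 2 := by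
    have ha : Real.sin (Real.pi * (t - n)) ^ 2 = Real.sin (Real.pi * t) ^ 2 := by
      have : Real.pi * (t - n) = Real.pi * t - n * Real.pi := by ring
      rw [this, Real.sin_sub_int_mul_pi, mul_pow]
      have : (((-1 : ℝ) ^ n)) ^ 2 = 1 := by
        rw [← zpow_natCast, ← zpow_mul, mul_comm, zpow_mul]
        norm_num
      rw [this, one_mul]
    rw [← ha]
    rcases abs_cases (t - n) with ⟨h, _⟩ | ⟨h, _⟩
    · rw [h]
    · rw [h, mul_neg, Real.sin_neg]
      ring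
  have h3 : 2 / Real.pi * (Real.pi * |t - n|) ≤ Real.sin (Real.pi * |t - n|) := by
    apply Real.mul_le_sin
    · positivity
    · have := Real.pi_pos
      nlinarith
  have h4 : 2 / Real.pi * (Real.pi * |t - n|) = 2 * |t - n| := by
    have := Real.pi_ne_zero
    field_simp
  rw [h4] at h3
  have h5 : (1 : ℝ) / 55 ≤ Real.sin (Real.pi * |t - n|) := by linarith
  have h6 : (1 : ℝ) / 3025 ≤ Real.sin (Real.pi * t) ^ 2 := by
    rw [h2]
    nlinarith
  have h7 := Real.sin_sq_add_cos_sq (Real.pi * t)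
  linarith

/-- Away from the integers the kernel is smaller than `10` by a constant factor. -/
theorem norm_phi_le_of_far (t : ℝ) (ht : ∀ n : ℤ, 1 / 110 ≤ |t - n|) :
    ‖phi t‖ ≤ 10 * (1 - 1 / 6050) := by
  have h1 : phi t = (1 + ee t) * ∑ b ∈ range 5, ee (2 * (b : ℝ) * t) := by
    unfold phi
    rw [Finset.mul_sum]
    have : ∀ b ∈ range 5, (1 + ee t) * ee (2 * (b : ℝ) * t)
        = ee (((2 * b : ℕ) : ℝ) * t) + ee (((2 * b + 1 : ℕ) : ℝ) * t) := by
      intro b _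
      have e1 : ((2 * b + 1 : ℕ) : ℝ) * t = t + 2 * (b : ℝ) * t := by push_cast; ring
      have e2 : ((2 * b : ℕ) : ℝ) * t = 2 * (b : ℝ) * t := by push_cast; ring
      rw [e1, e2, ee_add]
      ring
    rw [Finset.sum_congr rfl this]
    simp only [Finset.sum_range_succ, Finset.sum_range_zero]
    norm_num
    ring
  have h2 : ‖∑ b ∈ range 5, ee (2 * (b : ℝ) * t)‖ ≤ 5 := by
    calc ‖∑ b ∈ range 5, ee (2 * (b : ℝ) * t)‖
        ≤ ∑ b ∈ range 5, ‖ee (2 * (b : ℝ) * t)‖ := norm_sum_le _ _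
      _ = 5 := by simp [norm_ee]
  have h3 : ‖1 + ee t‖ ≤ 2 * (1 - 1 / 6050) := by
    have h4 := norm_one_add_ee_sq t
    have h5 := cos_sq_le t ht
    have h6 : ‖1 + ee t‖ ^ 2 ≤ (2 * (1 - 1 / 6050)) ^ 2 := by
      rw [h4]
      norm_num at h5 ⊢
      nlinarith
    have h7 : (0 : ℝ) ≤ 2 * (1 - 1 / 6050) := by norm_num
    exact (sq_le_sq₀ (norm_nonneg _) h7).mp h6
  rw [h1, norm_mul]
  calc ‖1 + ee t‖ * ‖∑ b ∈ range 5, ee (2 * (b : ℝ) * t)‖
      ≤ (2 * (1 - 1 / 6050)) * 5 := by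
        apply mul_le_mul h3 h2 (norm_nonneg _)
        norm_num
    _ = 10 * (1 - 1 / 6050) := by ring

/-- `θ_i = M/10^(a-i) - Λ/10^(i+1)`. -/
noncomputable def th (a M : ℕ) (Λ : ℝ) (i : ℕ) : ℝ :=
  (M : ℝ) * 10 ^ i / 10 ^ a - Λ / 10 ^ (i + 1)

theorem ee_sum {ι : Type*} (s : Finset ι) (f : ι → ℝ) :
    ee (∑ i ∈ s, f i) = ∏ i ∈ s, ee (f i) := by
  classical
  induction s using Finset.induction_on with
  | empty => simp [ee_zero]
  | insert a s ha ih => rw [Finset.sum_insert ha, Finset.prod_insert ha, ee_add, ih]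

theorem SS_eq (a M : ℕ) (Λ : ℝ) : SS a M Λ = ∏ i ∈ range a, phi (th a M Λ i) := by
  unfold SS phi
  rw [← PalPS.sum_prod_dg a (fun i d => ee ((d : ℝ) * th a M Λ i))]
  apply Finset.sum_congr rfl
  intro w hw
  have hw' : w < 10 ^ a := Finset.mem_range.mp hw
  rw [← ee_sum]
  congr 1
  have h1 : (w : ℝ) = ∑ i ∈ range a, (PalPS.dg i w : ℝ) * 10 ^ i := by
    conv_lhs => rw [← PalPS.sum_dg a w hw']
    push_cast
    rfl
  unfold rv
  conv_lhs => rw [h1]
  rw [Finset.mul_sum, Finset.sum_div, Finset.mul_sum, ← Finset.sum_sub_distrib]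
  apply Finset.sum_congr rfl
  intro i _
  unfold th PalPS.dg
  ring

/-- the product of the kernels, with a factor `tau` for each far `θ_i` -/
theorem far_of_digit (a M : ℕ) (Λ : ℝ) (i : ℕ) (hi : i + 2 ≤ a)
    (hd : 1 ≤ 99 * M / 10 ^ (a - i - 1) % 10 ∧ 99 * M / 10 ^ (a - i - 1) % 10 ≤ 8) :
    (∀ n : ℤ, 1 / 110 ≤ |th a M Λ i - n|) ∨ (∀ n : ℤ, 1 / 110 ≤ |th a M Λ (i + 1) - n|) := by
  by_contra hcon
  push Not at hcon
  obtain ⟨⟨n1, h1⟩, ⟨n2, h2⟩⟩ := hcon
  -- `99 M / 10^(a-i) = 10 θ_(i+1) - θ_i`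
  obtain ⟨b, rfl⟩ : ∃ b, a = i + 2 + b := ⟨a - (i + 2), by omega⟩
  have hb : i + 2 + b - i - 1 = b + 1 := by omega
  rw [hb] at hd
  have e1 : (99 * M : ℝ) / 10 ^ (b + 2)
      = 10 * th (i + 2 + b) M Λ (i + 1) - th (i + 2 + b) M Λ i := by
    unfold th
    have e10 : (10 : ℝ) ^ (i + 2 + b) = 10 ^ i * 10 ^ (b + 2) := by ring
    rw [e10]
    have hp1 : (10 : ℝ) ^ i ≠ 0 := by positivity
    have hp2 : (10 : ℝ) ^ (b + 2) ≠ 0 := by positivity
    field_simp
    ring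
  have e2 : |(99 * M : ℝ) / 10 ^ (b + 2) - ((10 * n2 - n1 : ℤ) : ℝ)| < 1 / 10 := by
    rw [e1]
    have : 10 * th (i + 2 + b) M Λ (i + 1) - th (i + 2 + b) M Λ i - ((10 * n2 - n1 : ℤ) : ℝ)
        = 10 * (th (i + 2 + b) M Λ (i + 1) - n2) - (th (i + 2 + b) M Λ i - n1) := by
      push_cast
      ring
    rw [this]
    calc |10 * (th (i + 2 + b) M Λ (i + 1) - n2) - (th (i + 2 + b) M Λ i - n1)|
        ≤ |10 * (th (i + 2 + b) M Λ (i + 1) - n2)| + |th (i + 2 + b) M Λ i - n1| := abs_sub _ _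
      _ = 10 * |th (i + 2 + b) M Λ (i + 1) - n2| + |th (i + 2 + b) M Λ i - n1| := by
          rw [abs_mul]
          norm_num
      _ < 1 / 10 := by linarith
  -- but the fractional part lies in `[1/10, 9/10)`
  set v : ℕ := 99 * M with hv
  have hv' : (99 * M : ℝ) = (v : ℝ) := by rw [hv]; push_cast; ring
  rw [hv'] at e2
  set D : ℕ := 10 ^ (b + 1) with hD
  have hDpos : 0 < D := by positivity
  have hdm : v = D * (v / D) + v % D := (Nat.div_add_mod v D).symm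
  have hdm2 : v / D = 10 * (v / D / 10) + v / D % 10 := (Nat.div_add_mod (v / D) 10).symm
  have hr : v % D < D := Nat.mod_lt _ hDpos
  have hDr : (10 : ℝ) ^ (b + 2) = 10 * (D : ℝ) := by
    rw [hD]
    push_cast
    ring
  rw [hDr] at e2
  set K : ℤ := 10 * n2 - n1 with hK
  set q : ℕ := v / D / 10 with hq
  set d : ℕ := v / D % 10 with hdd
  have hvZ : (v : ℤ) = D * (10 * q + d) + (v % D : ℕ) := by
    have : v = D * (10 * q + d) + v % D := by rw [← hdm2]; exact hdm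
    exact_mod_cast this
  have hDR : (0 : ℝ) < D := by exact_mod_cast hDpos
  have e3 : |(v : ℝ) - K * (10 * D)| < D := by
    have : (v : ℝ) / (10 * D) - K = ((v : ℝ) - K * (10 * D)) / (10 * D) := by
      field_simp
    rw [this, abs_div, abs_of_pos (by positivity : (0 : ℝ) < 10 * D),
      div_lt_iff₀ (by positivity)] at e2
    linarith
  have e4 : |(v : ℤ) - K * (10 * D)| < D := by
    have : ((|(v : ℤ) - K * (10 * D)| : ℤ) : ℝ) < ((D : ℤ) : ℝ) := by
      push_cast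
      exact e3
    exact_mod_cast this
  rw [abs_lt] at e4
  obtain ⟨e5, e6⟩ := e4
  rw [hvZ] at e5 e6
  have hr' : ((v % D : ℕ) : ℤ) < D := by exact_mod_cast hr
  have hr0 : (0 : ℤ) ≤ ((v % D : ℕ) : ℤ) := Int.natCast_nonneg _
  have hDZ : (0 : ℤ) < D := by exact_mod_cast hDpos
  have hd1 : (1 : ℤ) ≤ d := by exact_mod_cast hd.1
  have hd8 : (d : ℤ) ≤ 8 := by exact_mod_cast hd.2
  -- `-D < D (10 (q - K) + d) + r < D`
  have e7 : (D : ℤ) * (10 * (q - K) + d) < D * 1 := by nlinarith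
  have e8 : (D : ℤ) * (-2) < D * (10 * (q - K) + d) := by nlinarith
  have e9 : 10 * ((q : ℤ) - K) + d < 1 := lt_of_mul_lt_mul_left e7 hDZ.le
  have e10 : -2 < 10 * ((q : ℤ) - K) + d := lt_of_mul_lt_mul_left e8 hDZ.le
  omega

theorem SS_bound (a M : ℕ) (Λ : ℝ) : ‖SS a M Λ‖ ≤ 10 ^ a * wt a (99 * M) := by
  classical
  rw [SS_eq, norm_prod]
  rcases Nat.eq_zero_or_pos a with h0 | h0
  · subst h0
    simp [wt]
  obtain ⟨b, rfl⟩ : ∃ b, a = b + 1 := ⟨a - 1, by omega⟩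
  set θ := th (b + 1) M Λ with hθ
  set g : ℕ → ℝ := fun i => if (∀ n : ℤ, 1 / 110 ≤ |θ i - n|) then tau else 1 with hg
  have hg0 : ∀ i, 0 ≤ g i := by
    intro i
    simp only [hg]
    split_ifs
    · exact tau_pos.le
    · norm_num
  have hg1 : ∀ i, g i ≤ 1 := by
    intro i
    simp only [hg]
    split_ifs
    · exact tau_lt_one.le
    · exact le_rfl
  have hphi : ∀ i, ‖phi (θ i)‖ ≤ 10 * (g i * g i) := by
    intro i
    simp only [hg]
    split_ifs with h
    · refine le_trans (norm_phi_le_of_far _ h) ?_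
      norm_num [tau]
    · simpa using norm_phi_le (θ i)
  have h1 : ∏ i ∈ range (b + 1), ‖phi (θ i)‖ ≤ ∏ i ∈ range (b + 1), (10 * (g i * g i)) :=
    Finset.prod_le_prod (fun i _ => norm_nonneg _) (fun i _ => hphi i)
  refine le_trans h1 ?_
  rw [Finset.prod_mul_distrib, Finset.prod_const, Finset.card_range]
  apply mul_le_mul_of_nonneg_left _ (by positivity)
  rw [Finset.prod_mul_distrib]
  have h2 : ∏ i ∈ range (b + 1), g i ≤ ∏ i ∈ range b, g i := by
    rw [Finset.prod_range_succ]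
    exact mul_le_of_le_one_right (Finset.prod_nonneg fun i _ => hg0 i) (hg1 _)
  have h3 : ∏ i ∈ range (b + 1), g i ≤ ∏ i ∈ range b, g (i + 1) := by
    rw [Finset.prod_range_succ']
    exact mul_le_of_le_one_right (Finset.prod_nonneg fun i _ => hg0 _) (hg1 _)
  have h4 : (∏ i ∈ range (b + 1), g i) * (∏ i ∈ range (b + 1), g i)
      ≤ (∏ i ∈ range b, g i) * (∏ i ∈ range b, g (i + 1)) :=
    mul_le_mul h2 h3 (Finset.prod_nonneg fun i _ => hg0 i) (Finset.prod_nonneg fun i _ => hg0 i)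
  refine le_trans h4 ?_
  rw [← Finset.prod_mul_distrib]
  unfold wt
  simp only [Nat.add_sub_cancel]
  rw [← Finset.prod_range_reflect (fun i => g i * g (i + 1)) b]
  apply Finset.prod_le_prod (fun i _ => mul_nonneg (hg0 _) (hg0 _))
  intro i hi
  have hib : i < b := Finset.mem_range.mp hi
  split_ifs with hd
  · have hfar := far_of_digit (b + 1) M Λ (b - 1 - i) (by omega)
      (by
        have : b + 1 - (b - 1 - i) - 1 = i + 1 := by omega
        rw [this]
        exact hd)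
    rcases hfar with h | h
    · have : g (b - 1 - i) = tau := by
        simp only [hg]
        rw [if_pos h]
      rw [this]
      exact mul_le_of_le_one_right tau_pos.le (hg1 _)
    · have : g (b - 1 - i + 1) = tau := by
        simp only [hg]
        rw [if_pos h]
      rw [this]
      exact mul_le_of_le_one_left tau_pos.le (hg1 _)
  · exact mul_le_one₀ (hg1 _) (hg0 _) (hg1 _)

end Pool.Agent.H.MP_40bd32_nt.PS
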