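import Pool.Agent.H.MP_40bd32_nt.PS.Base

set_option autoImplicit false

open Finset N4baffcff

namespace Pool.Agent.H.MP_40bd32_nt.PS

/-! ### M1 Pal.lean
Let `L` be the number of digits of `m`, `a_i` the digits, `a_i = a_{L-1-i}`.
`m / 10^(L-j) = ∑_{i<j} a_{L-j+i} 10^i = ∑_{i<j} a_{j-1-i} 10^i = 10^j rv j m`.
-/

theorem pal_digit {m i : ℕ} (hpal : IsDecimalPalindrome m) (hi : i < (Nat.digits 10 m).length) :
    m / 10 ^ i % 10 = m / 10 ^ ((Nat.digits 10 m).length - 1 - i) % 10 := by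
  have h1 := Nat.getD_digits m i (le_refl 2 |>.trans (by norm_num : 2 ≤ 10))
  have h2 := Nat.getD_digits m ((Nat.digits 10 m).length - 1 - i)
    (le_refl 2 |>.trans (by norm_num : 2 ≤ 10))
  rw [← h1, ← h2]
  have hpal' : Nat.digits 10 m = (Nat.digits 10 m).reverse := hpal
  rw [List.getD_eq_getElem _ _ hi, List.getD_eq_getElem _ _ (by omega)]
  have h3 : (Nat.digits 10 m)[i] = ((Nat.digits 10 m).reverse)[i]'(by simpa using hi) := by
    congr 1
  rw [h3, List.getElem_reverse]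

theorem pal_not_dvd {m : ℕ} (hm : 1 ≤ m) (hpal : IsDecimalPalindrome m) : ¬ 10 ∣ m := by
  set L := (Nat.digits 10 m).length with hL
  have h1 : m < 10 ^ L := Nat.lt_base_pow_length_digits (by norm_num)
  have h2 : 10 ^ L ≤ 10 * m := Nat.base_pow_length_digits_le 10 m (by norm_num) (by omega)
  have hL0 : 0 < L := by
    rcases Nat.eq_zero_or_pos L with h | h
    · rw [h] at h1
      simp at h1
      omega
    · exact h
  obtain ⟨n, hn⟩ : ∃ n, L = n + 1 := ⟨L - 1, by omega⟩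
  have h3 := pal_digit hpal (i := 0) (by rw [← hL]; exact hL0)
  rw [← hL, hn] at h3
  simp only [pow_zero, Nat.div_one, Nat.add_sub_cancel, Nat.sub_zero] at h3
  rw [hn, pow_succ] at h1 h2
  have h4 : 1 ≤ m / 10 ^ n := by
    rw [Nat.one_le_div_iff (by positivity)]
    omega
  have h5 : m / 10 ^ n < 10 := by
    rw [Nat.div_lt_iff_lt_mul (by positivity)]
    omega
  omega

theorem mod_eq_sum (u j : ℕ) : u % 10 ^ j = ∑ i ∈ range j, (u / 10 ^ i % 10) * 10 ^ i := by
  induction j with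
  | zero => simp [Nat.mod_one]
  | succ j ih =>
    rw [Finset.sum_range_succ, ← ih, Nat.mod_pow_succ]
    ring

theorem pal_rv {m j : ℕ} (hpal : IsDecimalPalindrome m) (hj : j ≤ (Nat.digits 10 m).length) :
    (10 : ℝ) ^ (Nat.digits 10 m).length * rv j m ≤ m ∧
      (m : ℝ) < 10 ^ (Nat.digits 10 m).length * (rv j m + 1 / 10 ^ j) := by
  set L := (Nat.digits 10 m).length with hL
  have h1 : m < 10 ^ L := Nat.lt_base_pow_length_digits (by norm_num)
  obtain ⟨b, hb⟩ : ∃ b, L = j + b := ⟨L - j, by omega⟩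
  have h2 : m / 10 ^ b < 10 ^ j := by
    rw [Nat.div_lt_iff_lt_mul (by positivity), ← pow_add, ← hb]
    exact h1
  have h3 : m / 10 ^ b = ∑ i ∈ range j, (m / 10 ^ i % 10) * 10 ^ (j - 1 - i) := by
    rw [← Nat.mod_eq_of_lt h2, mod_eq_sum, ← Finset.sum_range_reflect]
    refine Finset.sum_congr rfl fun i hi => ?_
    have hi' : i < j := Finset.mem_range.1 hi
    rw [Nat.div_div_eq_div_mul, ← pow_add]
    have h4 := pal_digit hpal (i := b + (j - 1 - i)) (by rw [← hL]; omega)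
    rw [h4, ← hL]
    have h5 : L - 1 - (b + (j - 1 - i)) = i := by omega
    rw [h5]
  have h4 : (10 : ℝ) ^ j * rv j m = ((m / 10 ^ b : ℕ) : ℝ) := by
    rw [h3]
    unfold rv
    push_cast
    rw [Finset.mul_sum]
    refine Finset.sum_congr rfl fun i hi => ?_
    have hi' : i < j := Finset.mem_range.1 hi
    obtain ⟨c, hc⟩ : ∃ c, j = i + 1 + c := ⟨j - (i + 1), by omega⟩
    have h6 : j - 1 - i = c := by omega
    rw [h6, hc, pow_add]
    have h7 : (10 : ℝ) ^ (i + 1) ≠ 0 := by positivity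
    field_simp
  have h5 : (10 : ℝ) ^ L = 10 ^ b * 10 ^ j := by
    rw [hb, ← pow_add, add_comm]
  have h6 : 10 ^ b * (m / 10 ^ b) ≤ m := Nat.mul_div_le m (10 ^ b)
  have h7 : m < 10 ^ b * (m / 10 ^ b + 1) := Nat.lt_mul_div_succ m (by positivity)
  have h6' : (10 : ℝ) ^ b * ((m / 10 ^ b : ℕ) : ℝ) ≤ m := by exact_mod_cast h6
  have h7' : (m : ℝ) < 10 ^ b * (((m / 10 ^ b : ℕ) : ℝ) + 1) := by exact_mod_cast h7
  have hj0 : (10 : ℝ) ^ j ≠ 0 := by positivity
  constructor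
  · rw [h5, mul_assoc, h4]
    exact h6'
  · have h8 : (10 : ℝ) ^ L * (rv j m + 1 / 10 ^ j) = 10 ^ b * (10 ^ j * rv j m + 1) := by
      rw [h5]
      field_simp
    rw [h8, h4]
    exact h7'

end Pool.Agent.H.MP_40bd32_nt.PS
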