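import Pool.Agent.H.MP_40bd32_nt.PS.Block

set_option autoImplicit false

open Finset N4baffcff

namespace Pool.Agent.H.MP_40bd32_nt.PS

/-! ### M11 Param.lean : choice of the parameters
`g = √10`, `ρ = 1 - 1/15125`, `n0 ≥ 1` with `ρ^n0 ≤ 10^(-20)`, `D0 = 12 n0 + 60`, `t = d / D0`,
`j = (d+1)/2 + 1 + t`, `e = 2j - d - 2 ∈ {2t, 2t+1}`, `r + 1 = 4e/k + 1` so that `2^(k(r+1)) ≥ 10^e` and
`(k-1)(r+1) ≤ 4e + k`, `s = j/3`.  Every term of `block` is `≤ C (j+1) g^(d - 2t)` (`5^j` as well), and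
`g^(-2t) ≤ 10 * 10^(-d/D0)`; `q = g * 10^(-1/(2 D0))` takes the factor `j + 1`.  Small `d` go into `C`.
-/

open Classical in
theorem param_d {g : ℝ} (hg2 : g ^ 2 = 10) (hg3 : 3 ≤ g) (hg4 : g ≤ 4) {n0 : ℕ}
    (hn0 : (1 - 1 / 15125 : ℝ) ^ n0 ≤ 1 / 10 ^ 20) {k d L : ℕ} (hk : 2 ≤ k) (hd : 24 ≤ d)
    (hL : L ≤ k * d) (hL2 : k * (d - 1) + 1 ≤ L) :
    (((range (10 ^ d)).filter (fun x => 1 ≤ x ∧ IsDecimalPalindrome (x ^ k) ∧
        (Nat.digits 10 (x ^ k)).length = L)).card : ℝ) ≤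
      (42 * 10 ^ (2 * k) + 2 * (10 + 9 * g ^ (4 * k + 21))) * (d + 3) *
        (g ^ d / 10 ^ (d / (12 * n0 + 60))) := by
  have hg0 : 0 < g := by linarith
  have hg1 : 1 ≤ g := by linarith
  set D0 := 12 * n0 + 60 with hD0
  set t := d / D0 with ht
  have htD : t * D0 ≤ d := Nat.div_mul_le_self d D0
  have ht60 : 60 * t ≤ d := by
    rw [hD0] at htD
    nlinarith
  have htn : 12 * (n0 * t) ≤ d := by
    rw [hD0] at htD
    nlinarith
  set j := (d + 1) / 2 + 1 + t with hj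
  obtain ⟨e, he⟩ : ∃ e, 2 * j = d + 2 + e := ⟨2 * j - (d + 2), by omega⟩
  have he1 : 2 * t ≤ e := by omega
  have he2 : e ≤ 2 * t + 1 := by omega
  set s := j / 3 with hs
  set r := 4 * e / k with hr
  have hke : k * r ≤ 4 * e := by
    rw [mul_comm]
    exact Nat.div_mul_le_self _ _
  have hke2 : 4 * e < k * (r + 1) := by
    have := Nat.lt_mul_div_succ (4 * e) (by omega : 0 < k)
    exact this
  have hr1 : r ≤ 2 * e := by
    by_contra hcon
    have h1 : 2 * e + 1 ≤ r := by omega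
    have h2 : 2 * (2 * e + 1) ≤ k * r := Nat.mul_le_mul hk h1
    omega
  have hkd : 2 * (d - 1) ≤ k * (d - 1) := Nat.mul_le_mul_right _ hk
  have hjL : j ≤ L := by omega
  have hs1 : 1 ≤ s := by omega
  have hs2 : 2 * s ≤ j := by omega
  have hrj : r + 1 ≤ j - s := by omega
  set c := (k - 1) * (r + 1) with hc
  have hc1 : c ≤ 4 * e + k := by
    have h1 : c ≤ k * (r + 1) := Nat.mul_le_mul_right _ (by omega)
    have h2 : k * (r + 1) = k * r + k := by ring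
    omega
  have hb := block (k := k) (L := L) (j := j) (s := s) (d := d) (r := r) (e := e)
    hk hL hjL hs1 hs2 hrj he
  refine hb.trans ?_
  set G := g ^ d / 10 ^ t with hG
  have hG0 : 0 < G := by positivity
  -- powers of ten as powers of g
  have h10 : ∀ n : ℕ, (10 : ℝ) ^ n = g ^ (2 * n) := by
    intro n
    rw [pow_mul, hg2]
  -- T1
  have T1 : (10 : ℝ) ^ (d + 1) / 10 ^ j ≤ G := by
    rw [hG, div_le_div_iff₀ (by positivity) (by positivity), h10, h10, h10, ← pow_add, ← pow_add]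
    exact pow_le_pow_right₀ hg1 (by omega)
  have T4 : (10 : ℝ) ^ j / 10 ^ e ≤ 10 * G := by
    have h1 : 10 * G = g ^ (d + 2) / 10 ^ t := by
      rw [hG, pow_add, hg2]
      ring
    rw [h1, div_le_div_iff₀ (by positivity) (by positivity), h10, h10, h10, ← pow_add, ← pow_add]
    exact pow_le_pow_right₀ hg1 (by omega)
  have T2 : (10 : ℝ) ^ j / 2 ^ (k * (r + 1)) ≤ 10 * G := by
    refine le_trans ?_ T4
    apply div_le_div_of_nonneg_left (by positivity) (by positivity)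
    calc (10 : ℝ) ^ e ≤ 16 ^ e := pow_le_pow_left₀ (by norm_num) (by norm_num) e
      _ = 2 ^ (4 * e) := by rw [pow_mul]; norm_num
      _ ≤ 2 ^ (k * (r + 1)) := pow_le_pow_right₀ (by norm_num) hke2.le
  have T3 : (5 : ℝ) ^ j ≤ 10 * G := by
    have h1 : 10 * G = g ^ (d + 2) / 10 ^ t := by
      rw [hG, pow_add, hg2]
      ring
    have h2 : (5 : ℝ) ^ j = 10 ^ j / 2 ^ j := by
      rw [← div_pow]
      norm_num
    rw [h1, h2, div_le_div_iff₀ (by positivity) (by positivity)]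
    calc (10 : ℝ) ^ j * 10 ^ t = g ^ (d + 2) * g ^ (e + 2 * t) := by
          rw [h10, h10, ← pow_add, ← pow_add]
          congr 1
          omega
      _ ≤ g ^ (d + 2) * 4 ^ (e + 2 * t) := by
          apply mul_le_mul_of_nonneg_left _ (by positivity)
          exact pow_le_pow_left₀ hg0.le hg4 _
      _ = g ^ (d + 2) * 2 ^ (2 * (e + 2 * t)) := by rw [pow_mul]; norm_num
      _ ≤ g ^ (d + 2) * 2 ^ j := by
          apply mul_le_mul_of_nonneg_left _ (by positivity)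
          exact pow_le_pow_right₀ (by norm_num) (by omega)
  have hρ0 : (0 : ℝ) < 1 - 1 / 15125 := by norm_num
  have hρ1 : (1 - 1 / 15125 : ℝ) ≤ 1 := by norm_num
  have hρs : (1 - 1 / 15125 : ℝ) ^ (s - 1) ≤ 1 / 10 ^ (20 * t) := by
    have h1 : n0 * t ≤ s - 1 := by omega
    calc (1 - 1 / 15125 : ℝ) ^ (s - 1) ≤ (1 - 1 / 15125 : ℝ) ^ (n0 * t) :=
          pow_le_pow_of_le_one hρ0.le hρ1 h1
      _ = ((1 - 1 / 15125 : ℝ) ^ n0) ^ t := by rw [pow_mul]
      _ ≤ (1 / 10 ^ 20) ^ t := pow_le_pow_left₀ (by positivity) hn0 t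
      _ = 1 / 10 ^ (20 * t) := by rw [one_div, inv_pow, ← pow_mul, one_div]
  have hρs1 : (1 - 1 / 15125 : ℝ) ^ (s - 1) ≤ 1 := pow_le_one₀ hρ0.le hρ1
  have T5 : (10 : ℝ) ^ (2 * s) * (1 - 1 / 15125 : ℝ) ^ (s - 1) * (10 ^ c *
            (10 ^ (j - s) * 10 ^ e * 10 ^ c / 10 ^ s + 1)) ≤ (g ^ (4 * k + 21) + g ^ (4 * k + 21)) * G := by
    have h1 : (10 : ℝ) ^ (2 * s) * (1 - 1 / 15125 : ℝ) ^ (s - 1) * (10 ^ c *
            (10 ^ (j - s) * 10 ^ e * 10 ^ c / 10 ^ s + 1))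
        = 10 ^ (j + e + 2 * c) * (1 - 1 / 15125 : ℝ) ^ (s - 1)
          + 10 ^ (2 * s + c) * (1 - 1 / 15125 : ℝ) ^ (s - 1) := by
      have h2 : (10 : ℝ) ^ j = 10 ^ (j - s) * 10 ^ s := by
        rw [← pow_add]
        congr 1
        omega
      have h3 : (10 : ℝ) ^ (2 * s) = 10 ^ s * 10 ^ s := by rw [two_mul, pow_add]
      have h4 : (10 : ℝ) ^ (2 * c) = 10 ^ c * 10 ^ c := by rw [two_mul, pow_add]
      have h5 : (10 : ℝ) ^ s ≠ 0 := by positivity
      have h6 : (10 : ℝ) ^ (j + e + 2 * c) = 10 ^ j * 10 ^ e * 10 ^ (2 * c) := by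
        rw [pow_add _ (j + e) (2 * c), pow_add _ j e]
      have h7 : (10 : ℝ) ^ (2 * s + c) = 10 ^ (2 * s) * 10 ^ c := pow_add _ _ _
      rw [h6, h7, h2, h3, h4]
      field_simp
    rw [h1, add_mul]
    apply add_le_add
    · have h6 : (10 : ℝ) ^ (j + e + 2 * c) * (1 - 1 / 15125 : ℝ) ^ (s - 1)
          ≤ 10 ^ (j + e + 2 * c) * (1 / 10 ^ (20 * t)) :=
        mul_le_mul_of_nonneg_left hρs (by positivity)
      refine h6.trans ?_
      have h7 : (10 : ℝ) ^ (j + e + 2 * c) * (1 / 10 ^ (20 * t)) = 10 ^ (j + e + 2 * c) / 10 ^ (20 * t) := by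
        ring
      have h8 : g ^ (4 * k + 21) * G = g ^ (4 * k + 21 + d) / 10 ^ t := by
        rw [hG, pow_add g (4 * k + 21) d]
        ring
      rw [h7, h8, div_le_div_iff₀ (by positivity) (by positivity), h10, h10, h10, ← pow_add,
        ← pow_add]
      exact pow_le_pow_right₀ hg1 (by omega)
    · have h6 : (10 : ℝ) ^ (2 * s + c) * (1 - 1 / 15125 : ℝ) ^ (s - 1)
          ≤ 10 ^ (2 * s + c) * 1 := mul_le_mul_of_nonneg_left hρs1 (by positivity)
      refine h6.trans ?_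
      have h8 : g ^ (4 * k + 21) * G = g ^ (4 * k + 21 + d) / 10 ^ t := by
        rw [hG, pow_add g (4 * k + 21) d]
        ring
      rw [mul_one, h8, le_div_iff₀ (by positivity), h10, h10, ← pow_add]
      exact pow_le_pow_right₀ hg1 (by omega)
  have T6 : (700 : ℝ) * 10 ^ e * 10 ^ d / 10 ^ (2 * (j - s)) ≤ 7 * g ^ (4 * k + 21) * G := by
    have h1 : (700 : ℝ) * 10 ^ e * 10 ^ d / 10 ^ (2 * (j - s)) = 7 * 10 ^ (2 * s) := by
      rw [div_eq_iff (by positivity)]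
      have h2 : (10 : ℝ) ^ (2 * s) * 10 ^ (2 * (j - s)) = 10 ^ (d + 2 + e) := by
        rw [← pow_add]
        congr 1
        omega
      rw [mul_assoc 7, h2, pow_add, pow_add]
      ring
    have h8 : g ^ (4 * k + 21) * G = g ^ (4 * k + 21 + d) / 10 ^ t := by
      rw [hG, pow_add g (4 * k + 21) d]
      ring
    rw [h1, mul_assoc]
    apply mul_le_mul_of_nonneg_left _ (by norm_num)
    rw [h8, le_div_iff₀ (by positivity), h10, h10, ← pow_add]
    exact pow_le_pow_right₀ hg1 (by omega)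
  have hj1 : (j : ℝ) + 1 ≤ d + 3 := by
    have : j + 1 ≤ d + 3 := by omega
    exact_mod_cast this
  have hd3 : (1 : ℝ) ≤ d + 3 := by
    have : (0 : ℝ) ≤ d := by positivity
    linarith
  have hX : 2 * (((j : ℝ) + 1) * 10 ^ (2 * k) * (10 ^ (d + 1) / 10 ^ j + 10 ^ j / 2 ^ (k * (r + 1))
      + 5 ^ j)) ≤ 2 * ((d + 3) * 10 ^ (2 * k) * (21 * G)) := by
    have h1 : (10 : ℝ) ^ (d + 1) / 10 ^ j + 10 ^ j / 2 ^ (k * (r + 1)) + 5 ^ j ≤ 21 * G := by linarith
    have h2 : (0 : ℝ) ≤ 10 ^ (d + 1) / 10 ^ j + 10 ^ j / 2 ^ (k * (r + 1)) + 5 ^ j := by positivity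
    gcongr
  have hY : 2 * ((10 : ℝ) ^ j / 10 ^ e
        + (10 ^ (2 * s) * (1 - 1 / 15125 : ℝ) ^ (s - 1) * (10 ^ c *
            (10 ^ (j - s) * 10 ^ e * 10 ^ c / 10 ^ s + 1))
          + 700 * 10 ^ e * 10 ^ d / 10 ^ (2 * (j - s)))) ≤
      2 * ((10 + 9 * g ^ (4 * k + 21)) * G) * (d + 3) := by
    have h1 : 2 * ((10 : ℝ) ^ j / 10 ^ e
        + (10 ^ (2 * s) * (1 - 1 / 15125 : ℝ) ^ (s - 1) * (10 ^ c *
            (10 ^ (j - s) * 10 ^ e * 10 ^ c / 10 ^ s + 1))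
          + 700 * 10 ^ e * 10 ^ d / 10 ^ (2 * (j - s)))) ≤
        2 * ((10 + 9 * g ^ (4 * k + 21)) * G) := by
      nlinarith [T4, T5, T6]
    have h2 : 0 ≤ 2 * ((10 + 9 * g ^ (4 * k + 21)) * G) := by positivity
    nlinarith
  have hZ : 2 * (((d : ℝ) + 3) * 10 ^ (2 * k) * (21 * G))
      + 2 * ((10 + 9 * g ^ (4 * k + 21)) * G) * (d + 3)
      = (42 * 10 ^ (2 * k) + 2 * (10 + 9 * g ^ (4 * k + 21))) * (d + 3) * G := by ring
  linarith

open Classical in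
theorem param : ∃ q : ℝ, 3 / 2 ≤ q ∧ q < Real.sqrt 10 ∧ ∀ k : ℕ, 2 ≤ k → ∃ C : ℝ, 0 ≤ C ∧
    ∀ d L : ℕ, 1 ≤ d → L ≤ k * d → k * (d - 1) + 1 ≤ L →
    (((range (10 ^ d)).filter (fun x => 1 ≤ x ∧ IsDecimalPalindrome (x ^ k) ∧
        (Nat.digits 10 (x ^ k)).length = L)).card : ℝ) ≤ C * q ^ d := by
  set g := Real.sqrt 10 with hg
  have hg2 : g ^ 2 = 10 := Real.sq_sqrt (by norm_num)
  have hg0 : 0 ≤ g := Real.sqrt_nonneg _
  have hg3 : 3 ≤ g := by
    rw [hg]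
    exact Real.le_sqrt_of_sq_le (by norm_num)
  have hg4 : g ≤ 4 := by
    rw [hg]
    exact Real.sqrt_le_iff.2 ⟨by norm_num, by norm_num⟩
  obtain ⟨n0, hn0'⟩ := exists_pow_lt_of_lt_one (by positivity : (0 : ℝ) < 1 / 10 ^ 20)
    (by norm_num : (1 - 1 / 15125 : ℝ) < 1)
  have hn0 := hn0'.le
  set D0 := 12 * n0 + 60 with hD0
  have hD0pos : (0 : ℝ) < D0 := by
    have : 0 < D0 := by omega
    exact_mod_cast this
  -- v = 10^(1/(2 D0))
  set v : ℝ := (10 : ℝ) ^ (1 / (2 * (D0 : ℝ))) with hv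
  have hv1 : 1 < v := Real.one_lt_rpow (by norm_num) (by positivity)
  have hv0 : 0 < v := by linarith
  have hvD : (v ^ 2) ^ D0 = 10 := by
    rw [← pow_mul, hv, ← Real.rpow_natCast, ← Real.rpow_mul (by norm_num)]
    push_cast
    have : 1 / (2 * (D0 : ℝ)) * (2 * (D0 : ℝ)) = 1 := by
      field_simp
    rw [this, Real.rpow_one]
  have hv2 : v ≤ 2 := by
    by_contra hcon
    have h1 : 2 < v := by linarith
    have h2 : (2 : ℝ) ≤ v ^ 2 := by nlinarith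
    have h3 : (2 : ℝ) ^ D0 ≤ (v ^ 2) ^ D0 := pow_le_pow_left₀ (by norm_num) h2 D0
    have h4 : (2 : ℝ) ^ 4 ≤ 2 ^ D0 := pow_le_pow_right₀ (by norm_num) (by omega)
    rw [hvD] at h3
    norm_num at h4
    linarith
  refine ⟨g / v, ?_, ?_, ?_⟩
  · rw [le_div_iff₀ hv0]
    linarith
  · rw [div_lt_iff₀ hv0]
    nlinarith
  intro k hk
  set C0 : ℝ := 42 * 10 ^ (2 * k) + 2 * (10 + 9 * g ^ (4 * k + 21)) with hC0
  have hC0pos : 0 ≤ C0 := by positivity
  set η := v - 1 with hη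
  have hη0 : 0 < η := by linarith
  refine ⟨C0 * (3 + 1 / η) * 10 + 10 ^ 24, by positivity, ?_⟩
  intro d L hd hL hL2
  have hq1 : 1 ≤ g / v := by
    rw [le_div_iff₀ hv0]
    linarith
  have hqd : 0 < (g / v) ^ d := by positivity
  rcases Nat.lt_or_ge d 24 with h24 | h24
  · have h1 : (((range (10 ^ d)).filter (fun x => 1 ≤ x ∧ IsDecimalPalindrome (x ^ k) ∧
        (Nat.digits 10 (x ^ k)).length = L)).card : ℝ) ≤ 10 ^ d := by
      have h2 : ((range (10 ^ d)).filter (fun x => 1 ≤ x ∧ IsDecimalPalindrome (x ^ k) ∧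
        (Nat.digits 10 (x ^ k)).length = L)).card ≤ 10 ^ d := by
        refine (Finset.card_filter_le _ _).trans ?_
        rw [Finset.card_range]
      exact_mod_cast h2
    have h3 : (10 : ℝ) ^ d ≤ 10 ^ 24 := pow_le_pow_right₀ (by norm_num) h24.le
    have h4 : (1 : ℝ) ≤ (g / v) ^ d := one_le_pow₀ hq1
    have h5 : (10 : ℝ) ^ 24 * 1 ≤ 10 ^ 24 * (g / v) ^ d :=
      mul_le_mul_of_nonneg_left h4 (by positivity)
    have h6 : 0 ≤ C0 * (3 + 1 / η) * 10 * (g / v) ^ d := by positivity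
    calc (((range (10 ^ d)).filter (fun x => 1 ≤ x ∧ IsDecimalPalindrome (x ^ k) ∧
        (Nat.digits 10 (x ^ k)).length = L)).card : ℝ) ≤ 10 ^ 24 := h1.trans h3
      _ ≤ (C0 * (3 + 1 / η) * 10 + 10 ^ 24) * (g / v) ^ d := by
          rw [add_mul]
          linarith
  · have h1 := param_d hg2 hg3 hg4 hn0 hk h24 hL hL2
    refine h1.trans ?_
    rw [← hC0, ← hD0]
    set t := d / D0 with ht
    -- 1/10^t ≤ 10 / v^(2d)
    have h2 : (v ^ 2) ^ d ≤ 10 * 10 ^ t := by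
      have h3 : d ≤ D0 * (t + 1) := (Nat.lt_mul_div_succ d (by omega : 0 < D0)).le
      calc (v ^ 2) ^ d ≤ (v ^ 2) ^ (D0 * (t + 1)) :=
            pow_le_pow_right₀ (by nlinarith) h3
        _ = 10 * 10 ^ t := by
            rw [pow_mul, hvD, pow_succ]
            ring
    have h3 : g ^ d / 10 ^ t ≤ 10 * ((g / v) ^ d / v ^ d) := by
      have h4 : (g / v) ^ d / v ^ d = g ^ d / (v ^ 2) ^ d := by
        rw [div_pow, div_div, ← mul_pow, ← sq]
      rw [h4, div_le_iff₀ (by positivity), ← mul_div_assoc, div_mul_eq_mul_div,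
        le_div_iff₀ (by positivity)]
      have h5 : 0 ≤ g ^ d := by positivity
      nlinarith
    have h4 : ((d : ℝ) + 3) ≤ (3 + 1 / η) * v ^ d := by
      have h5 : 1 + (d : ℝ) * η ≤ v ^ d := by
        have h6 := one_add_mul_le_pow (by linarith : (-2 : ℝ) ≤ η) d
        have h7 : 1 + η = v := by rw [hη]; ring
        rw [h7] at h6
        exact h6
      have h8 : (3 + 1 / η) * (1 + (d : ℝ) * η) = 3 + 3 * d * η + 1 / η + d := by
        field_simp
        ring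
      have h9 : (3 + 1 / η) * (1 + (d : ℝ) * η) ≤ (3 + 1 / η) * v ^ d :=
        mul_le_mul_of_nonneg_left h5 (by positivity)
      have h10 : 0 ≤ 3 * (d : ℝ) * η + 1 / η := by positivity
      linarith
    have h5 : C0 * ((d : ℝ) + 3) * (g ^ d / 10 ^ t)
        ≤ C0 * ((3 + 1 / η) * v ^ d) * (10 * ((g / v) ^ d / v ^ d)) := by
      apply mul_le_mul (mul_le_mul_of_nonneg_left h4 hC0pos) h3 (by positivity) (by positivity)
    have h6 : C0 * ((3 + 1 / η) * v ^ d) * (10 * ((g / v) ^ d / v ^ d))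
        = C0 * (3 + 1 / η) * 10 * (g / v) ^ d := by
      have : v ^ d ≠ 0 := by positivity
      field_simp
    rw [h6] at h5
    have h7 : 0 ≤ (10 : ℝ) ^ 24 * (g / v) ^ d := by positivity
    calc C0 * ((d : ℝ) + 3) * (g ^ d / 10 ^ t) ≤ C0 * (3 + 1 / η) * 10 * (g / v) ^ d := h5
      _ ≤ (C0 * (3 + 1 / η) * 10 + 10 ^ 24) * (g / v) ^ d := by
          rw [add_mul]
          linarith

end Pool.Agent.H.MP_40bd32_nt.PS
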